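import Pool.Agent.FB.U7.Defs

/-!
# FB/U7/ALG: the traces of the products of the scaled blocks
-/

set_option autoImplicit false

open Matrix

namespace Pool.Agent.FB.U7

/-! ### `M3` -/

/-- the basis `(1, p₁, p₂)`, `(0, 1, 0)`, `(0, 0, 1)` -/
private def ALG_P (p : ℂ × ℂ) : Matrix (Fin 3) (Fin 3) ℂ :=
  !![1, 0, 0; p.1, 1, 0; p.2, 0, 1]

/-- block triangular matrices -/
private def ALG_T (r : ℂ × ℂ) (D : Matrix (Fin 2) (Fin 2) ℂ) : Matrix (Fin 3) (Fin 3) ℂ :=
  !![1, r.1, r.2; 0, D 0 0, D 0 1; 0, D 1 0, D 1 1]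

private theorem ALG_T_mul (r r' : ℂ × ℂ) (D D' : Matrix (Fin 2) (Fin 2) ℂ) :
    ALG_T r D * ALG_T r' D' = ALG_T (r'.1 + (r.1 * D' 0 0 + r.2 * D' 1 0),
      r'.2 + (r.1 * D' 0 1 + r.2 * D' 1 1)) (D * D') := by
  ext i j
  fin_cases i <;> fin_cases j <;>
  simp [ALG_T, Matrix.mul_apply, Fin.sum_univ_three, Fin.sum_univ_two] <;> ring

private theorem ALG_T_one : ALG_T 0 1 = 1 := by
  ext i j
  fin_cases i <;> fin_cases j <;> simp [ALG_T]

private theorem ALG_P_zero : ALG_P 0 = 1 := by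
  ext i j
  fin_cases i <;> fin_cases j <;> simp [ALG_P]

private theorem ALG_trace (p r : ℂ × ℂ) (D : Matrix (Fin 2) (Fin 2) ℂ) :
    (ALG_P p * ALG_T r D).trace = 1 + (r.1 * p.1 + r.2 * p.2 + D.trace) := by
  rw [Matrix.trace_fin_three, Matrix.trace_fin_two]
  simp [ALG_P, ALG_T, Matrix.mul_apply, Fin.sum_univ_three]
  ring

private theorem ALG_M3 (l : ℂ) (s : ℂ × ℂ × ℂ) (p : ℂ × ℂ) (hB : s.2.2 ≠ 0)
    (hn : nu l s p ≠ 0) : M3 l s * ALG_P p = (-(s.2.2 * nu l s p)) •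
      (ALG_P (st l s p) * ALG_T ((1 + l * s.1) / nu l s p, (1 + l * s.2.1) / nu l s p)
        (Dn l s p)) := by
  obtain ⟨a, c, b⟩ := s
  obtain ⟨α, β⟩ := p
  have hb : b ≠ 0 := hB
  have hnu : nu l (a, c, b) (α, β) =
      a + c - 1 / b - l + (1 + l * a) * α + (1 + l * c) * β := rfl
  have hs1 : (st l (a, c, b) (α, β)).1 =
      -(a + (1 + l * a) * α) / (b * nu l (a, c, b) (α, β)) := rfl
  have hs2 : (st l (a, c, b) (α, β)).2 =
      -(c + (1 + l * c) * β) / (b * nu l (a, c, b) (α, β)) := rfl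
  have hD : Dn l (a, c, b) (α, β) =
      !![-((1 + l * a) * (1 / b + (st l (a, c, b) (α, β)).1)) / nu l (a, c, b) (α, β),
        -((1 + l * c) * (st l (a, c, b) (α, β)).1) / nu l (a, c, b) (α, β);
        -((1 + l * a) * (st l (a, c, b) (α, β)).2) / nu l (a, c, b) (α, β),
        -((1 + l * c) * (1 / b + (st l (a, c, b) (α, β)).2)) / nu l (a, c, b) (α, β)] := rfl
  have hM : M3 l (a, c, b) = !![1 + l * b - b * (a + c), -(b * (1 + l * a)), -(b * (1 + l * c));
    a, 1 + l * a, 0; c, 0, 1 + l * c] := rfl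
  rw [hD, hM, ALG_P, ALG_P, ALG_T, hs1, hs2]
  set n := nu l (a, c, b) (α, β) with hn0
  have hbn : b * n = b * (a + c) - 1 - b * l + b * (1 + l * a) * α + b * (1 + l * c) * β := by
    rw [hnu]
    field_simp
  clear_value n
  ext i j
  fin_cases i <;> fin_cases j <;>
    simp [Matrix.mul_apply, Fin.sum_univ_three]
  · linear_combination hbn
  all_goals first | (field_simp; ring1) | (field_simp; simp) | field_simp

private theorem ALG_ind (l : ℂ) : ∀ L : List (ℂ × ℂ × ℂ), Ok l L →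
    (L.map (M3 l)).prod = lam l L • (ALG_P (orb l L) * ALG_T (row l L) (DD l L)) := by
  intro L
  induction L with
  | nil =>
    intro _
    have h1 : orb l [] = 0 := rfl
    have h2 : lam l [] = 1 := rfl
    have h3 : row l [] = 0 := rfl
    have h4 : DD l [] = 1 := rfl
    rw [List.map_nil, List.prod_nil, h1, h2, h3, h4, ALG_T_one, ALG_P_zero, one_smul, one_mul]
  | cons s L ih =>
    rintro ⟨hB, hn, -, hL⟩
    have h1 : orb l (s :: L) = st l s (orb l L) := rfl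
    have h2 : lam l (s :: L) = -(s.2.2 * nu l s (orb l L)) * lam l L := rfl
    have h4 : DD l (s :: L) = Dn l s (orb l L) * DD l L := rfl
    have h3 : row l (s :: L) = ((row l L).1 + ((1 + l * s.1) / nu l s (orb l L) * DD l L 0 0 +
        (1 + l * s.2.1) / nu l s (orb l L) * DD l L 1 0),
        (row l L).2 + ((1 + l * s.1) / nu l s (orb l L) * DD l L 0 1 +
        (1 + l * s.2.1) / nu l s (orb l L) * DD l L 1 1)) := by
      rw [row]
      refine Prod.ext ?_ ?_ <;> simp only <;> ring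
    rw [List.map_cons, List.prod_cons, ih hL, Matrix.mul_smul, ← Matrix.mul_assoc,
      ALG_M3 l s _ hB hn, Matrix.smul_mul, Matrix.mul_assoc, ALG_T_mul, smul_smul, h1, h2, h4, h3,
      mul_comm (lam l L)]

/-! ### `M2` -/

private def ALG_P2 (g : ℂ) : Matrix (Fin 2) (Fin 2) ℂ := !![1, 0; g, 1]

private def ALG_T2 (r d : ℂ) : Matrix (Fin 2) (Fin 2) ℂ := !![1, r; 0, d]

private theorem ALG_T2_mul (r r' d d' : ℂ) :
    ALG_T2 r d * ALG_T2 r' d' = ALG_T2 (r' + r * d') (d * d') := by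
  ext i j
  fin_cases i <;> fin_cases j <;>
  simp [ALG_T2, Matrix.mul_apply, Fin.sum_univ_two]

private theorem ALG_T2_one : ALG_T2 0 1 = 1 := by
  ext i j
  fin_cases i <;> fin_cases j <;> simp [ALG_T2]

private theorem ALG_P2_zero : ALG_P2 0 = 1 := by
  ext i j
  fin_cases i <;> fin_cases j <;> simp [ALG_P2]

private theorem ALG_trace2 (g r d : ℂ) :
    (ALG_P2 g * ALG_T2 r d).trace = 1 + (r * g + d) := by
  rw [Matrix.trace_fin_two]
  simp [ALG_P2, ALG_T2, Matrix.mul_apply, Fin.sum_univ_two]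
  ring

private theorem ALG_M2 (l : ℂ) (s : ℂ × ℂ × ℂ) (g : ℂ) (hB : s.2.2 ≠ 0)
    (hn : nu2 l s g ≠ 0) : M2 l s * ALG_P2 g = (-(s.2.2 * nu2 l s g)) •
      (ALG_P2 (st2 l s g) * ALG_T2 ((1 + l * U l s) / nu2 l s g) (dn2 l s g)) := by
  have hnu : nu2 l s g = U l s - 1 / s.2.2 - l + (1 + l * U l s) * g := rfl
  have hs1 : st2 l s g = -(U l s + (1 + l * U l s) * g) / (s.2.2 * nu2 l s g) := rfl
  have hD : dn2 l s g = -((1 + l * U l s) * (1 / s.2.2 + st2 l s g)) / nu2 l s g := rfl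
  rw [hD, M2, ALG_P2, ALG_P2, ALG_T2, hs1]
  set n := nu2 l s g with hn0
  set b := s.2.2 with hb0
  set u := U l s with hu0
  have hbn : b * n = b * u - 1 - b * l + b * (1 + l * u) * g := by
    rw [hnu]
    field_simp
  clear_value n u b
  ext i j
  fin_cases i <;> fin_cases j <;>
    simp [Matrix.mul_apply, Fin.sum_univ_two]
  · linear_combination hbn
  all_goals (field_simp; try ring1)

private theorem ALG_ind2 (l : ℂ) : ∀ L : List (ℂ × ℂ × ℂ), Ok l L →
    (L.map (M2 l)).prod = lam2 l L • (ALG_P2 (orb2 l L) * ALG_T2 (row2 l L) (dd2 l L)) := by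
  intro L
  induction L with
  | nil =>
    intro _
    have h1 : orb2 l [] = 0 := rfl
    have h2 : lam2 l [] = 1 := rfl
    have h3 : row2 l [] = 0 := rfl
    have h4 : dd2 l [] = 1 := rfl
    rw [List.map_nil, List.prod_nil, h1, h2, h3, h4, ALG_T2_one, ALG_P2_zero, one_smul, one_mul]
  | cons s L ih =>
    rintro ⟨hB, -, hn, hL⟩
    have h1 : orb2 l (s :: L) = st2 l s (orb2 l L) := rfl
    have h2 : lam2 l (s :: L) = -(s.2.2 * nu2 l s (orb2 l L)) * lam2 l L := rfl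
    have h4 : dd2 l (s :: L) = dn2 l s (orb2 l L) * dd2 l L := rfl
    have h3 : row2 l (s :: L) = row2 l L + (1 + l * U l s) / nu2 l s (orb2 l L) * dd2 l L := by
      rw [row2]
      ring
    rw [List.map_cons, List.prod_cons, ih hL, Matrix.mul_smul, ← Matrix.mul_assoc,
      ALG_M2 l s _ hB hn, Matrix.smul_mul, Matrix.mul_assoc, ALG_T2_mul, smul_smul, h1, h2, h4, h3,
      mul_comm (lam2 l L)]

theorem thm_Alg : St_Alg := by
  intro l L h
  refine ⟨?_, ?_⟩
  · rw [ALG_ind l L h, Matrix.trace_smul, ALG_trace, smul_eq_mul, rho3]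
  · rw [ALG_ind2 l L h, Matrix.trace_smul, ALG_trace2, smul_eq_mul, rho2]

end Pool.Agent.FB.U7
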