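import Pool.Agent.FB.U7.Defs

/-!
# FB/U7/ARG: the argument of every block

(helper17)
-/

set_option autoImplicit false

open Matrix Pool.Agent.FB.U5 Pool.Agent.FB.U6

namespace Pool.Agent.FB.U7

private theorem AR_ne (hB : St_Base) {N : ℝ} (hN : 100 ≤ N) {τ : ℝ} (h0 : 0 ≤ τ) (h2 : τ ≤ 2)
    {n : ℤ} (hn : n ≠ 0) : hat n (pth (2 / N) τ) ≠ 0 := by
  obtain ⟨-, hpos, hz, -, -, -, hall⟩ := hB N hN τ h0 h2 _ rfl
  rcases eq_or_lt_of_le h0 with h | h
  · rw [hz h.symm, hat, if_pos rfl]
    exact_mod_cast hn
  · have hσ := hpos h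
    obtain ⟨hm, -, -, -, -, hlow⟩ := hall n
    intro h3
    rw [h3, zero_mul] at hm
    rw [← hm, norm_zero] at hlow
    have h4 : 0 < |(n : ℝ)| := by
      rw [abs_pos]
      exact_mod_cast hn
    have h5 : 0 < min 2 (|(n : ℝ)| * (pth (2 / N) τ).re) := lt_min (by norm_num) (by positivity)
    have h6 : 0 < 2 / 5 * min 2 (|(n : ℝ)| * (pth (2 / N) τ).re) *
        Real.exp (max 0 (n : ℝ) * (pth (2 / N) τ).re) := by positivity
    linarith

private theorem AR_z (ℓ : ℂ) : hat 0 ℓ = 0 := by
  unfold hat
  split_ifs <;> simp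

theorem thm_Arg (hB : St_Base) (hW : St_HasW) (hX : St_ArgX) (hP : St_ArgP) : St_Arg := by
  obtain ⟨N₁, hN₁, hX⟩ := hX
  obtain ⟨N₂, hN₂, hP⟩ := hP
  refine ⟨max N₁ N₂, lt_max_of_lt_left (by linarith), ?_⟩
  rintro N hN ⟨a, c, b⟩ ⟨hb, ha, hc, hac⟩
  have k1 : N₁ ≤ N := (le_max_left _ _).trans hN
  have k2 : N₂ ≤ N := (le_max_right _ _).trans hN
  have k3 : 100 ≤ N := hN₁.trans k1
  have hNp : 0 < N := by linarith
  simp only at hb ha hc hac
  rcases ha with ha | ha
  · subst ha
    have e : wind (0, c, b) = 0 := by
      unfold wind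
      rw [if_neg]
      simp
    rw [e]
    refine hW.congr _ _ _ hW.one fun τ hτ => ?_
    have hc0 : c ≠ 0 := by simpa using hac
    simp only [sb, AR_z, zero_add]
    exact (div_self (AR_ne hB k3 hτ.1 hτ.2 hc0)).symm
  rcases hc with hc | hc
  · subst hc
    have e : wind (a, 0, b) = 0 := by
      unfold wind
      rw [if_neg]
      simp
    rw [e]
    refine hW.congr _ _ _ hW.one fun τ hτ => ?_
    have ha0 : a ≠ 0 := by simpa using hac
    simp only [sb, AR_z, add_zero]
    exact (div_self (AR_ne hB k3 hτ.1 hτ.2 ha0)).symm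
  rcases le_abs.1 ha with ha' | ha' <;> rcases le_abs.1 hc with hc' | hc'
  · have hap : 0 < a := by
      have : (0 : ℝ) < a := by linarith
      exact_mod_cast this
    have hcp : 0 < c := by
      have : (0 : ℝ) < c := by linarith
      exact_mod_cast this
    have e : wind (a, c, b) = 0 := by
      unfold wind
      rw [if_neg]
      simp only [not_and]
      intro h
      nlinarith
    rw [e]
    exact (hP N k2 a c ha' hc').1
  · have hap : 0 < a := by
      have : (0 : ℝ) < a := by linarith
      exact_mod_cast this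
    have hcp : c < 0 := by
      have : (c : ℝ) < 0 := by linarith
      exact_mod_cast this
    have h3 := hX N k1 a (-c) ha' (by push_cast; exact hc') (by omega)
    rw [neg_neg, sub_neg_eq_add] at h3
    have e : wind (a, c, b) = if a < -c then -Real.pi else 0 := by
      unfold wind
      have : (a * c < 0 ∧ a + c < 0) ↔ a < -c := by
        constructor
        · rintro ⟨-, h⟩
          omega
        · intro h
          exact ⟨mul_neg_of_pos_of_neg hap hcp, by omega⟩
      simp only [this]
    rw [e]
    exact h3
  · have hap : a < 0 := by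
      have : (a : ℝ) < 0 := by linarith
      exact_mod_cast this
    have hcp : 0 < c := by
      have : (0 : ℝ) < c := by linarith
      exact_mod_cast this
    have h3 := hX N k1 c (-a) hc' (by push_cast; exact ha') (by omega)
    rw [neg_neg, sub_neg_eq_add] at h3
    have e : wind (a, c, b) = if c < -a then -Real.pi else 0 := by
      unfold wind
      have : (a * c < 0 ∧ a + c < 0) ↔ c < -a := by
        constructor
        · rintro ⟨-, h⟩
          omega
        · intro h
          exact ⟨mul_neg_of_neg_of_pos hap hcp, by omega⟩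
      simp only [this]
    rw [e]
    refine hW.congr _ _ _ h3 fun τ _ => ?_
    simp only [sb]
    rw [add_comm (hat c _), add_comm c a]
  · have hap : a < 0 := by
      have : (a : ℝ) < 0 := by linarith
      exact_mod_cast this
    have hcp : c < 0 := by
      have : (c : ℝ) < 0 := by linarith
      exact_mod_cast this
    have e : wind (a, c, b) = 0 := by
      unfold wind
      rw [if_neg]
      simp only [not_and]
      intro h
      nlinarith
    have h3 := (hP N k2 (-a) (-c) (by push_cast; exact ha') (by push_cast; exact hc')).2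
    rw [e]
    refine hW.congr _ _ _ h3 fun τ _ => ?_
    simp only [sb]
    rw [neg_neg, neg_neg, sub_neg_eq_add]

end Pool.Agent.FB.U7
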