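import Pool.Agent.FB.U7.Defs

/-!
# FB/U7, module ARGP: the argument of a block with two exponents of the same sign
-/

set_option autoImplicit false

open Matrix LaurentPolynomial Pool.RU Pool.Agent.FB.U5 Pool.Agent.FB.U6

namespace Pool.Agent.FB.U7

/-! ### real estimates -/

private theorem argp_cs (x : ℝ) : |Real.cos x| + |Real.sin x| ≤ 3 / 2 := by
  have h1 := Real.sin_sq_add_cos_sq x
  have h2 : |Real.cos x| ^ 2 = Real.cos x ^ 2 := sq_abs _
  have h3 : |Real.sin x| ^ 2 = Real.sin x ^ 2 := sq_abs _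
  have h4 := abs_nonneg (Real.cos x)
  have h5 := abs_nonneg (Real.sin x)
  nlinarith [sq_nonneg (|Real.cos x| - |Real.sin x|)]

private theorem argp_E1 {s t : ℝ} (h0 : 0 ≤ t) (hts : t ≤ s) :
    |Real.sin t| - Real.cos t ≤ Real.exp s / 2 := by
  have h1 := Real.quadratic_le_exp_of_nonneg (h0.trans hts)
  rcases le_total t (8 / 5) with h | h
  · have h2 : |Real.sin t| ≤ t := by
      have h3 := Real.abs_sin_le_abs (x := t)
      rwa [abs_of_nonneg h0] at h3
    have h3 := Real.one_sub_sq_div_two_le_cos (x := t)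
    nlinarith
  · have h2 := argp_cs t
    have h3 := neg_abs_le (Real.cos t)
    nlinarith

private theorem argp_psi {n σ y : ℝ} (hn : 0 < n) (hσ : 0 < σ) (hy0 : 0 ≤ y) (hy : y ≤ σ) :
    |Real.exp (-(n * σ)) * Real.sin (n * y)| < 1 - Real.exp (-(n * σ)) * Real.cos (n * y) := by
  have h1 : |Real.sin (n * y)| ≤ n * σ := by
    have h3 := Real.abs_sin_le_abs (x := n * y)
    rw [abs_of_nonneg (mul_nonneg hn.le hy0)] at h3
    exact h3.trans (mul_le_mul_of_nonneg_left hy hn.le)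
  have h2 := Real.cos_le_one (n * y)
  have h3 : n * σ + 1 < Real.exp (n * σ) := Real.add_one_lt_exp (mul_pos hn hσ).ne'
  have h4 : Real.exp (-(n * σ)) * Real.exp (n * σ) = 1 := by
    rw [← Real.exp_add, neg_add_cancel, Real.exp_zero]
  have h5 := Real.exp_pos (-(n * σ))
  rw [abs_mul, abs_of_pos h5]
  nlinarith [mul_lt_mul_of_pos_left h3 h5, mul_le_mul_of_nonneg_left h1 h5.le,
    mul_le_mul_of_nonneg_left h2 h5.le]

private theorem argp_gp : StrictAntiOn (fun t : ℝ => Real.exp (-t) * (Real.cos t + Real.sin t))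
    (Set.Icc 0 Real.pi) := by
  refine strictAntiOn_of_deriv_neg (convex_Icc _ _) (by fun_prop) ?_
  intro x hx
  rw [interior_Icc] at hx
  have h1 : HasDerivAt (fun t : ℝ => Real.exp (-t) * (Real.cos t + Real.sin t))
      (Real.exp (-x) * (-1) * (Real.cos x + Real.sin x) +
        Real.exp (-x) * (-Real.sin x + Real.cos x)) x :=
    ((Real.hasDerivAt_exp (-x)).comp x (hasDerivAt_neg x)).mul
      ((Real.hasDerivAt_cos x).add (Real.hasDerivAt_sin x))
  rw [h1.deriv]
  have h2 := Real.sin_pos_of_mem_Ioo hx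
  have h3 := Real.exp_pos (-x)
  nlinarith [mul_pos h3 h2]

private theorem argp_gm : StrictAntiOn (fun t : ℝ => Real.exp (-t) * (Real.cos t - Real.sin t))
    (Set.Icc 0 (Real.pi / 2)) := by
  refine strictAntiOn_of_deriv_neg (convex_Icc _ _) (by fun_prop) ?_
  intro x hx
  rw [interior_Icc] at hx
  have h1 : HasDerivAt (fun t : ℝ => Real.exp (-t) * (Real.cos t - Real.sin t))
      (Real.exp (-x) * (-1) * (Real.cos x - Real.sin x) +
        Real.exp (-x) * (-Real.sin x - Real.cos x)) x :=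
    ((Real.hasDerivAt_exp (-x)).comp x (hasDerivAt_neg x)).mul
      ((Real.hasDerivAt_cos x).sub (Real.hasDerivAt_sin x))
  rw [h1.deriv]
  have h2 : 0 < Real.cos x := Real.cos_pos_of_mem_Ioo ⟨by linarith [hx.1, Real.pi_pos], hx.2⟩
  have h3 := Real.exp_pos (-x)
  nlinarith [mul_pos h3 h2]

private theorem argp_K {A D σ y : ℝ} (hD : 0 ≤ D) (hDA : D < A) (hσ : 0 < σ) (hy0 : 0 ≤ y)
    (hy : y ≤ σ) (hc : A * σ < 2 → y = σ) :
    |-(Real.exp (-(D * σ)) * Real.sin (D * y)) + 2 * (Real.exp (-(A * σ)) * Real.sin (A * y))| <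
      1 + Real.exp (-(D * σ)) * Real.cos (D * y) -
        2 * (Real.exp (-(A * σ)) * Real.cos (A * y)) := by
  have hE : Real.exp (-(D * σ)) * (|Real.sin (D * y)| - Real.cos (D * y)) ≤ 1 / 2 := by
    have h1 := argp_E1 (mul_nonneg hD hy0) (mul_le_mul_of_nonneg_left hy hD)
    have h4 : Real.exp (-(D * σ)) * Real.exp (D * σ) = 1 := by
      rw [← Real.exp_add, neg_add_cancel, Real.exp_zero]
    have h5 := Real.exp_pos (-(D * σ))
    nlinarith [mul_le_mul_of_nonneg_left h1 h5.le]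
  rcases le_or_gt 2 (A * σ) with h | h
  · have h1 : Real.exp (-(A * σ)) < 1 / 6 := by
      have h2 : Real.exp (-(A * σ)) ≤ Real.exp (-2) := Real.exp_le_exp.2 (by linarith)
      have h3 : Real.exp (-2) * (Real.exp 1 * Real.exp 1) = 1 := by
        rw [← Real.exp_add, ← Real.exp_add]
        norm_num
      have h4 := Real.exp_one_gt_d9
      have h5 := Real.exp_pos (-2)
      nlinarith [mul_pos h5 h5]
    have h2 := argp_cs (A * y)
    have h3 := Real.exp_pos (-(A * σ))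
    have h4 := Real.exp_pos (-(D * σ))
    have h5 : |-(Real.exp (-(D * σ)) * Real.sin (D * y)) +
        2 * (Real.exp (-(A * σ)) * Real.sin (A * y))| ≤
        Real.exp (-(D * σ)) * |Real.sin (D * y)| +
          2 * (Real.exp (-(A * σ)) * |Real.sin (A * y)|) := by
      refine (abs_add_le _ _).trans ?_
      rw [abs_neg, abs_mul, abs_mul, abs_mul, abs_of_pos h3, abs_of_pos h4,
        abs_of_pos (two_pos : (0 : ℝ) < 2)]
    have h6 := le_abs_self (Real.cos (A * y))
    nlinarith [mul_le_mul_of_nonneg_left h6 h3.le, mul_le_mul_of_nonneg_left h2 h3.le,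
      abs_nonneg (Real.sin (A * y)), abs_nonneg (Real.cos (A * y))]
  · have hys := hc h
    subst hys
    have hpi := Real.pi_gt_three
    have hu0 : 0 ≤ D * y := mul_nonneg hD hy0
    have huv : D * y < A * y := mul_lt_mul_of_pos_right hDA hσ
    have hv0 : 0 < A * y := hu0.trans_lt huv
    have hp1 := argp_gp (a := D * y) ⟨hu0, by linarith⟩ (b := A * y) ⟨hv0.le, by linarith⟩ huv
    have hp2 := argp_gp (a := 0) ⟨le_rfl, by linarith⟩ (b := A * y) ⟨hv0.le, by linarith⟩ hv0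
    simp only [neg_zero, Real.exp_zero, Real.cos_zero, Real.sin_zero, add_zero, mul_one] at hp1 hp2
    have hm : 2 * (Real.exp (-(A * y)) * (Real.cos (A * y) - Real.sin (A * y))) <
        1 + Real.exp (-(D * y)) * (Real.cos (D * y) - Real.sin (D * y)) := by
      rcases le_or_gt (A * y) (Real.pi / 2) with h1 | h1
      · have hm1 := argp_gm (a := D * y) ⟨hu0, by linarith⟩ (b := A * y) ⟨hv0.le, h1⟩ huv
        have hm2 := argp_gm (a := 0) ⟨le_rfl, by linarith⟩ (b := A * y) ⟨hv0.le, h1⟩ hv0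
        simp only [neg_zero, Real.exp_zero, Real.cos_zero, Real.sin_zero, sub_zero,
          mul_one] at hm1 hm2
        linarith
      · have h2 : Real.cos (A * y) ≤ 0 :=
          Real.cos_nonpos_of_pi_div_two_le_of_le h1.le (by linarith)
        have h3 : 0 ≤ Real.sin (A * y) := Real.sin_nonneg_of_nonneg_of_le_pi hv0.le (by linarith)
        have h4 := Real.exp_pos (-(A * y))
        have h5 := Real.exp_pos (-(D * y))
        have h6 := le_abs_self (Real.sin (D * y))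
        nlinarith [mul_le_mul_of_nonneg_left h6 h5.le, mul_nonneg h4.le h3,
          mul_nonneg h4.le (neg_nonneg.2 h2)]
    rw [abs_lt]
    constructor
    · linarith
    · linarith

/-! ### the quotients -/

/-- `(exp (n ℓ) - 1) / ℓ` -/
private noncomputable def argp_G (n : ℤ) (ℓ : ℂ) : ℂ := dslope (fun z : ℂ => Complex.exp (n * z)) 0 ℓ

private theorem argp_der (n : ℤ) (z : ℂ) :
    HasDerivAt (fun z : ℂ => Complex.exp (n * z)) (Complex.exp (n * z) * n) z := by
  have h1 : HasDerivAt (fun z : ℂ => (n : ℂ) * z) (n : ℂ) z := by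
    have h2 := (hasDerivAt_id z).const_mul (n : ℂ)
    rwa [mul_one] at h2
  exact (Complex.hasDerivAt_exp ((n : ℂ) * z)).comp z h1

private theorem argp_G_cont (n : ℤ) : Continuous (argp_G n) := by
  rw [continuous_iff_continuousAt]
  intro z
  unfold argp_G
  by_cases hz : z = 0
  · rw [hz]
    exact continuousAt_dslope_same.2 (argp_der n 0).differentiableAt
  · exact (continuousAt_dslope_of_ne hz).2 (argp_der n z).continuousAt

private theorem argp_G_zero (n : ℤ) : argp_G n 0 = n := by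
  unfold argp_G
  rw [dslope_same, (argp_der n 0).deriv, mul_zero, Complex.exp_zero, one_mul]

private theorem argp_G_ne (n : ℤ) {ℓ : ℂ} (h : ℓ ≠ 0) :
    argp_G n ℓ = (Complex.exp (n * ℓ) - 1) / ℓ := by
  unfold argp_G
  rw [dslope_of_ne _ h, slope_def_field, mul_zero, Complex.exp_zero, sub_zero]

private theorem argp_quo (a b e : ℤ) {ℓ : ℂ} (h : ℓ ≠ 0 → lm ℓ ≠ 0) :
    (hat a ℓ + hat b ℓ) / hat e ℓ = (argp_G a ℓ + argp_G b ℓ) / argp_G e ℓ := by
  by_cases h0 : ℓ = 0
  · rw [h0, argp_G_zero, argp_G_zero, argp_G_zero]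
    unfold hat
    rw [if_pos rfl, if_pos rfl, if_pos rfl]
  · rw [argp_G_ne a h0, argp_G_ne b h0, argp_G_ne e h0]
    unfold hat
    rw [if_neg h0, if_neg h0, if_neg h0, ← add_div, ← add_div,
      div_div_div_cancel_right₀ (h h0), div_div_div_cancel_right₀ h0]

private theorem argp_pos {z w : ℂ} (hz : |z.im| < z.re) (hw : |w.im| < w.re) :
    0 < (z / w).re := by
  have h1 : w ≠ 0 := by
    rintro rfl
    simp at hw
  have h2 : 0 < Complex.normSq w := Complex.normSq_pos.2 h1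
  rw [Complex.div_re, ← add_div]
  refine div_pos ?_ h2
  have h3 := abs_lt.1 hz
  have h4 := abs_lt.1 hw
  have h5 : |z.im * w.im| ≤ |z.im| * |w.im| := (abs_mul _ _).le
  have h6 := neg_abs_le (z.im * w.im)
  have h7 := abs_nonneg z.im
  have h8 := abs_nonneg w.im
  nlinarith [mul_lt_mul'' hz hw h7 h8]

private theorem argp_exp (n : ℤ) (ℓ : ℂ) :
    (Complex.exp (((-n : ℤ) : ℂ) * ℓ)).re = Real.exp (-(n * ℓ.re)) * Real.cos (n * ℓ.im) ∧
    (Complex.exp (((-n : ℤ) : ℂ) * ℓ)).im = -(Real.exp (-(n * ℓ.re)) * Real.sin (n * ℓ.im)) := by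
  have h1 : (((-n : ℤ) : ℂ) * ℓ).re = -(n * ℓ.re) := by
    push_cast
    simp
  have h2 : (((-n : ℤ) : ℂ) * ℓ).im = -(n * ℓ.im) := by
    push_cast
    simp
  rw [Complex.exp_re, Complex.exp_im, h1, h2, Real.cos_neg, Real.sin_neg]
  exact ⟨rfl, by ring⟩

/-- `1 - exp (-n ℓ)` -/
private theorem argp_psiC (n : ℤ) (hn : 0 < (n : ℝ)) {ℓ : ℂ} (h0 : 0 < ℓ.re) (h1 : 0 ≤ ℓ.im)
    (h2 : ℓ.im ≤ ℓ.re) : |(1 - Complex.exp (((-n : ℤ) : ℂ) * ℓ)).im| <
      (1 - Complex.exp (((-n : ℤ) : ℂ) * ℓ)).re := by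
  have h3 := argp_psi hn h0 h1 h2
  obtain ⟨h4, h5⟩ := argp_exp n ℓ
  rw [Complex.sub_re, Complex.sub_im, h4, h5, Complex.one_re, Complex.one_im, zero_sub, neg_neg]
  exact h3

private theorem argp_pth (R : ℝ) : Continuous (pth R) := by
  unfold pth
  fun_prop

private theorem argp_im (R t : ℝ) : (pth R t).im = R * min t (2 - t) := by
  unfold pth
  simp

private theorem argp_re (R t : ℝ) : (pth R t).re = R * min t 1 := by
  unfold pth
  simp

/-- the exponential factor -/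
private theorem argp_expW (R : ℝ) (n : ℤ) : HasW (fun τ => Complex.exp (n * pth R τ)) 0 := by
  have hc := argp_pth R
  refine ⟨by fun_prop, fun τ => n * (pth R τ).im, ?_, ?_, ?_, ?_⟩
  · exact (continuous_const.mul (Complex.continuous_im.comp hc)).continuousOn
  · show (n : ℝ) * (pth R 0).im = 0
    rw [argp_im]
    norm_num
  · show (n : ℝ) * (pth R 2).im = 0
    rw [argp_im]
    norm_num
  · intro t _
    refine ⟨Complex.exp_ne_zero _, ?_⟩
    show Complex.exp (n * pth R t) = ((‖Complex.exp (n * pth R t)‖ : ℝ) : ℂ) *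
      Complex.exp (((n * (pth R t).im : ℝ) : ℂ) * Complex.I)
    rw [Complex.norm_exp, Complex.ofReal_exp, ← Complex.exp_add]
    congr 1
    apply Complex.ext
    · simp
    · simp

/-- a quotient of points with `|im| < re` along the path -/
private theorem argp_near (h : St_Base) (hw : St_HasW) {N : ℝ} (hN : 100 ≤ N) (f : ℝ → ℂ)
    (F : ℂ → ℂ) (hf : ∀ τ ∈ Set.Icc (0 : ℝ) 2, f τ = F (pth (2 / N) τ))
    (hc : ∀ τ ∈ Set.Icc (0 : ℝ) 2, ContinuousAt F (pth (2 / N) τ))
    (h0 : F 0 = 1) (hF : ∀ τ ∈ Set.Ioc (0 : ℝ) 2, 0 < (F (pth (2 / N) τ)).re)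
    (hr : (F (pth (2 / N) 2)).im = 0) : HasW f 0 := by
  have hp0 : pth (2 / N) 0 = 0 := (h N hN 0 le_rfl (by norm_num) _ rfl).2.2.1 rfl
  refine hw.near f ?_ ?_ ?_ ?_
  · refine ContinuousOn.congr (f := fun τ => F (pth (2 / N) τ)) (fun τ hτ => ?_) hf
    exact ((hc τ hτ).comp (argp_pth (2 / N)).continuousAt).continuousWithinAt
  · intro t ht
    rw [hf t ht]
    rcases ht.1.eq_or_lt with h1 | h1
    · rw [← h1, hp0, h0]
      norm_num
    · exact hF t ⟨h1, ht.2⟩
  · rw [hf 0 ⟨le_rfl, by norm_num⟩, hp0, h0]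
    rfl
  · rw [hf 2 ⟨by norm_num, le_rfl⟩]
    exact hr

private theorem argp_real (n : ℤ) {ℓ : ℂ} (h : ℓ.im = 0) : (argp_G n ℓ).im = 0 := by
  by_cases h0 : ℓ = 0
  · rw [h0, argp_G_zero]
    simp
  · rw [argp_G_ne n h0]
    obtain ⟨x, rfl⟩ : ∃ x : ℝ, ℓ = x := ⟨ℓ.re, by
      apply Complex.ext
      · simp
      · simpa using h⟩
    have h1 : (Complex.exp (n * x) - 1) / (x : ℂ) = (((Real.exp (n * x) - 1) / x : ℝ) : ℂ) := by
      push_cast
      rfl
    rw [h1, Complex.ofReal_im]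

private theorem argp_mul_im {z w : ℂ} (hz : z.im = 0) (hw : w.im = 0) : (z * w).im = 0 := by
  rw [Complex.mul_im, hz, hw]
  ring

private theorem argp_div_im {z w : ℂ} (hz : z.im = 0) (hw : w.im = 0) : (z / w).im = 0 := by
  rw [Complex.div_im, hz, hw]
  ring

/-- the facts on the path -/
private theorem argp_path (h : St_Base) {N : ℝ} (hN : 100 ≤ N) {τ : ℝ}
    (hτ : τ ∈ Set.Icc (0 : ℝ) 2) : (pth (2 / N) τ ≠ 0 → lm (pth (2 / N) τ) ≠ 0) ∧
      (0 < τ → 0 < (pth (2 / N) τ).re ∧ 0 ≤ (pth (2 / N) τ).im ∧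
        (pth (2 / N) τ).im ≤ (pth (2 / N) τ).re ∧ pth (2 / N) τ ≠ 0 ∧
        ∀ A : ℤ, N ≤ (A : ℝ) → (A : ℝ) * (pth (2 / N) τ).re < 2 →
          (pth (2 / N) τ).im = (pth (2 / N) τ).re) := by
  obtain ⟨⟨h1, h2, h3⟩, h4, h5, h6, ⟨h7, -⟩, -⟩ := h N hN τ hτ.1 hτ.2 _ rfl
  refine ⟨fun h8 h9 => ?_, fun h8 => ⟨h4 h8, h1, h2, fun h9 => ?_, fun A hA h9 => ?_⟩⟩
  · rw [h9, norm_zero] at h7
    have h10 := norm_pos_iff.2 h8
    linarith
  · have h10 := h4 h8
    rw [h9] at h10
    simp at h10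
  · apply h6
    have hN0 : 0 < N := by linarith
    rw [lt_div_iff₀ hN0]
    have h10 := h4 h8
    nlinarith

/-- the case of two negative exponents -/
private theorem argp_mm (h : St_Base) (hw : St_HasW) {N : ℝ} (hN : 100 ≤ N) {A C : ℤ}
    (hA : N ≤ (A : ℝ)) (hC : N ≤ (C : ℝ)) :
    HasW (fun τ => (hat (-A) (pth (2 / N) τ) + hat (-C) (pth (2 / N) τ)) /
      hat (-A - C) (pth (2 / N) τ)) 0 := by
  have hA0 : (0 : ℝ) < A := by linarith
  have hC0 : (0 : ℝ) < C := by linarith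
  have hAC0 : (0 : ℝ) < ((A + C : ℤ) : ℝ) := by
    push_cast
    linarith
  have hval : ∀ ℓ : ℂ, ℓ ≠ 0 → (argp_G (-A) ℓ + argp_G (-C) ℓ) / argp_G (-A - C) ℓ =
      ((1 - Complex.exp (((-A : ℤ) : ℂ) * ℓ)) + (1 - Complex.exp (((-C : ℤ) : ℂ) * ℓ))) /
        (1 - Complex.exp (((-(A + C) : ℤ) : ℂ) * ℓ)) := by
    intro ℓ hℓ
    have h1 : -A - C = -(A + C) := by ring
    rw [h1, argp_G_ne _ hℓ, argp_G_ne _ hℓ, argp_G_ne _ hℓ, ← add_div,
      div_div_div_cancel_right₀ hℓ, ← neg_div_neg_eq]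
    congr 1
    · ring
    · ring
  have hG : ∀ τ ∈ Set.Icc (0 : ℝ) 2, argp_G (-A - C) (pth (2 / N) τ) ≠ 0 := by
    intro τ hτ
    rcases hτ.1.eq_or_lt with h1 | h1
    · have hp0 : pth (2 / N) 0 = 0 := (h N hN 0 le_rfl (by norm_num) _ rfl).2.2.1 rfl
      rw [← h1, hp0, argp_G_zero]
      have h2 : (-A - C : ℤ) ≠ 0 := by
        intro h3
        have h4 : ((-A - C : ℤ) : ℝ) = 0 := by rw [h3, Int.cast_zero]
        push_cast at h4
        linarith
      exact_mod_cast h2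
    · obtain ⟨h2, h3, h4, h5, -⟩ := (argp_path h hN hτ).2 h1
      have h6 : -A - C = -(A + C) := by ring
      rw [h6, argp_G_ne _ h5]
      refine div_ne_zero ?_ h5
      have h7 := argp_psiC (A + C) hAC0 h2 h3 h4
      intro h8
      have h9 : (1 : ℂ) - Complex.exp (((-(A + C) : ℤ) : ℂ) * pth (2 / N) τ) = 0 := by
        rw [← neg_sub, h8, neg_zero]
      rw [h9] at h7
      simp at h7
  refine argp_near h hw hN _ (fun ℓ => (argp_G (-A) ℓ + argp_G (-C) ℓ) / argp_G (-A - C) ℓ)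
    ?_ ?_ ?_ ?_ ?_
  · intro τ hτ
    exact argp_quo _ _ _ (argp_path h hN hτ).1
  · intro τ hτ
    exact ((argp_G_cont _).continuousAt.add (argp_G_cont _).continuousAt).div
      (argp_G_cont _).continuousAt (hG τ hτ)
  · show (argp_G (-A) 0 + argp_G (-C) 0) / argp_G (-A - C) 0 = 1
    rw [argp_G_zero, argp_G_zero, argp_G_zero]
    have h1 : (((-A - C : ℤ)) : ℂ) ≠ 0 := by
      have h2 : (-A - C : ℤ) ≠ 0 := by
        intro h3
        have h4 : ((-A - C : ℤ) : ℝ) = 0 := by rw [h3, Int.cast_zero]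
        push_cast at h4
        linarith
      exact_mod_cast h2
    rw [div_eq_one_iff_eq h1]
    push_cast
    ring
  · intro τ hτ
    obtain ⟨h2, h3, h4, h5, -⟩ := (argp_path h hN ⟨hτ.1.le, hτ.2⟩).2 hτ.1
    show 0 < ((argp_G (-A) _ + argp_G (-C) _) / argp_G (-A - C) _).re
    rw [hval _ h5]
    refine argp_pos ?_ (argp_psiC (A + C) hAC0 h2 h3 h4)
    rw [Complex.add_im, Complex.add_re]
    exact (abs_add_le _ _).trans_lt (add_lt_add (argp_psiC A hA0 h2 h3 h4)
      (argp_psiC C hC0 h2 h3 h4))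
  · have h1 : (pth (2 / N) 2).im = 0 := by
      rw [argp_im]
      norm_num
    refine argp_div_im ?_ (argp_real _ h1)
    rw [Complex.add_im, argp_real _ h1, argp_real _ h1, add_zero]

/-- the case of two positive exponents -/
private theorem argp_pp (h : St_Base) (hw : St_HasW) {N : ℝ} (hN : 100 ≤ N) {A C : ℤ}
    (hA : N ≤ (A : ℝ)) (hC : N ≤ (C : ℝ)) (hCA : C ≤ A) :
    HasW (fun τ => (hat A (pth (2 / N) τ) + hat C (pth (2 / N) τ)) /
      hat (A + C) (pth (2 / N) τ)) 0 := by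
  have hA0 : (0 : ℝ) < A := by linarith
  have hC0 : (0 : ℝ) < C := by linarith
  have hAC0 : (0 : ℝ) < ((A + C : ℤ) : ℝ) := by
    push_cast
    linarith
  have hD0 : (0 : ℝ) ≤ ((A - C : ℤ) : ℝ) := by
    push_cast
    have h1 : (C : ℝ) ≤ A := by exact_mod_cast hCA
    linarith
  have hDA : ((A - C : ℤ) : ℝ) < A := by
    push_cast
    linarith
  have hval : ∀ ℓ : ℂ, ℓ ≠ 0 →
      Complex.exp (C * ℓ) * ((argp_G A ℓ + argp_G C ℓ) / argp_G (A + C) ℓ) =
      (1 + Complex.exp (((-(A - C) : ℤ) : ℂ) * ℓ) - 2 * Complex.exp (((-A : ℤ) : ℂ) * ℓ)) /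
        (1 - Complex.exp (((-(A + C) : ℤ) : ℂ) * ℓ)) := by
    intro ℓ hℓ
    rw [argp_G_ne _ hℓ, argp_G_ne _ hℓ, argp_G_ne _ hℓ, ← add_div,
      div_div_div_cancel_right₀ hℓ]
    have h1 : Complex.exp (((A + C : ℤ) : ℂ) * ℓ) ≠ 0 := Complex.exp_ne_zero _
    have h2 : Complex.exp (((-(A + C) : ℤ) : ℂ) * ℓ) * Complex.exp (((A + C : ℤ) : ℂ) * ℓ) = 1 := by
      rw [← Complex.exp_add]
      have h3 : ((-(A + C) : ℤ) : ℂ) * ℓ + ((A + C : ℤ) : ℂ) * ℓ = 0 := by
        push_cast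
        ring
      rw [h3, Complex.exp_zero]
    have h3 : Complex.exp (((-(A - C) : ℤ) : ℂ) * ℓ) * Complex.exp (((A + C : ℤ) : ℂ) * ℓ) =
        Complex.exp (C * ℓ) * Complex.exp (C * ℓ) := by
      rw [← Complex.exp_add, ← Complex.exp_add]
      congr 1
      push_cast
      ring
    have h4 : Complex.exp (((-A : ℤ) : ℂ) * ℓ) * Complex.exp (((A + C : ℤ) : ℂ) * ℓ) =
        Complex.exp (C * ℓ) := by
      rw [← Complex.exp_add]
      congr 1
      push_cast
      ring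
    have h5 : Complex.exp (C * ℓ) * Complex.exp (A * ℓ) =
        Complex.exp (((A + C : ℤ) : ℂ) * ℓ) := by
      rw [← Complex.exp_add]
      congr 1
      push_cast
      ring
    have h6 : (1 - Complex.exp (((-(A + C) : ℤ) : ℂ) * ℓ)) * Complex.exp (((A + C : ℤ) : ℂ) * ℓ) =
        Complex.exp (((A + C : ℤ) : ℂ) * ℓ) - 1 := by
      rw [sub_mul, h2, one_mul]
    rw [← mul_div_mul_right _ (1 - Complex.exp (((-(A + C) : ℤ) : ℂ) * ℓ)) h1, h6,
      ← mul_div_assoc]
    congr 1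
    linear_combination h5 - h3 + 2 * h4
  have hG : ∀ τ ∈ Set.Icc (0 : ℝ) 2, argp_G (A + C) (pth (2 / N) τ) ≠ 0 := by
    intro τ hτ
    rcases hτ.1.eq_or_lt with h1 | h1
    · have hp0 : pth (2 / N) 0 = 0 := (h N hN 0 le_rfl (by norm_num) _ rfl).2.2.1 rfl
      rw [← h1, hp0, argp_G_zero]
      have h2 : (A + C : ℤ) ≠ 0 := by
        intro h3
        rw [h3, Int.cast_zero] at hAC0
        exact lt_irrefl _ hAC0
      exact_mod_cast h2
    · obtain ⟨h2, h3, h4, h5, -⟩ := (argp_path h hN hτ).2 h1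
      rw [argp_G_ne _ h5]
      refine div_ne_zero ?_ h5
      have h7 := argp_psiC (A + C) hAC0 h2 h3 h4
      intro h8
      have h9 : (1 : ℂ) - Complex.exp (((-(A + C) : ℤ) : ℂ) * pth (2 / N) τ) = 0 := by
        have h10 : ((-(A + C) : ℤ) : ℂ) * pth (2 / N) τ = -(((A + C : ℤ) : ℂ) * pth (2 / N) τ) := by
          push_cast
          ring
        rw [h10, Complex.exp_neg, sub_eq_zero.1 h8, inv_one, sub_self]
      rw [h9] at h7
      simp at h7
  have hH : HasW (fun τ => Complex.exp (C * pth (2 / N) τ) *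
      ((hat A (pth (2 / N) τ) + hat C (pth (2 / N) τ)) / hat (A + C) (pth (2 / N) τ))) 0 := by
    refine argp_near h hw hN _
      (fun ℓ => Complex.exp (C * ℓ) * ((argp_G A ℓ + argp_G C ℓ) / argp_G (A + C) ℓ))
      ?_ ?_ ?_ ?_ ?_
    · intro τ hτ
      show _ * _ = _ * _
      rw [argp_quo _ _ _ (argp_path h hN hτ).1]
    · intro τ hτ
      exact (argp_der C _).continuousAt.mul
        (((argp_G_cont _).continuousAt.add (argp_G_cont _).continuousAt).div
        (argp_G_cont _).continuousAt (hG τ hτ))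
    · show Complex.exp (C * 0) * ((argp_G A 0 + argp_G C 0) / argp_G (A + C) 0) = 1
      rw [argp_G_zero, argp_G_zero, argp_G_zero, mul_zero, Complex.exp_zero, one_mul]
      have h1 : (((A + C : ℤ)) : ℂ) ≠ 0 := by
        have h2 : (A + C : ℤ) ≠ 0 := by
          intro h3
          rw [h3, Int.cast_zero] at hAC0
          exact lt_irrefl _ hAC0
        exact_mod_cast h2
      rw [div_eq_one_iff_eq h1]
      push_cast
      ring
    · intro τ hτ
      obtain ⟨h2, h3, h4, h5, h6⟩ := (argp_path h hN ⟨hτ.1.le, hτ.2⟩).2 hτ.1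
      show 0 < (Complex.exp (C * _) * ((argp_G A _ + argp_G C _) / argp_G (A + C) _)).re
      rw [hval _ h5]
      refine argp_pos ?_ (argp_psiC (A + C) hAC0 h2 h3 h4)
      have h7 := argp_K hD0 hDA h2 h3 h4 (h6 A hA)
      obtain ⟨h8, h9⟩ := argp_exp (A - C) (pth (2 / N) τ)
      obtain ⟨h10, h11⟩ := argp_exp A (pth (2 / N) τ)
      have h12 : ∀ z w : ℂ, (1 + z - 2 * w).re = 1 + z.re - 2 * w.re := by
        intro z w
        simp
      have h13 : ∀ z w : ℂ, (1 + z - 2 * w).im = z.im - 2 * w.im := by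
        intro z w
        simp
      rw [h12, h13, h8, h9, h10, h11, mul_neg, sub_neg_eq_add]
      exact h7
    · have h1 : (pth (2 / N) 2).im = 0 := by
        rw [argp_im]
        norm_num
      refine argp_mul_im ?_ (argp_div_im ?_ (argp_real _ h1))
      · rw [Complex.exp_im]
        have h2 : ((C : ℂ) * pth (2 / N) 2).im = 0 := by
          simp [h1]
        rw [h2, Real.sin_zero, mul_zero]
      · rw [Complex.add_im, argp_real _ h1, argp_real _ h1, add_zero]
  have h1 := hw.mul _ _ _ _ (argp_expW (2 / N) (-C)) hH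
  rw [add_zero] at h1
  refine hw.congr _ _ _ h1 fun τ _ => ?_
  show _ * _ = _
  rw [← mul_assoc, ← Complex.exp_add]
  have h2 : ((-C : ℤ) : ℂ) * pth (2 / N) τ + C * pth (2 / N) τ = 0 := by
    push_cast
    ring
  rw [h2, Complex.exp_zero, one_mul]

/-- **Module U7_ARGP** -/
theorem thm_ArgP (h : St_Base) (hw : St_HasW) : St_ArgP := by
  refine ⟨100, le_rfl, fun N hN A C hA hC => ⟨?_, argp_mm h hw hN hA hC⟩⟩
  rcases le_total C A with h1 | h1
  · exact argp_pp h hw hN hA hC h1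
  · refine hw.congr _ _ _ (argp_pp h hw hN hC hA h1) fun τ _ => ?_
    show (hat C _ + hat A _) / hat (C + A) _ = _
    rw [add_comm (hat C _), add_comm C A]

end Pool.Agent.FB.U7
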