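import Pool.Agent.FB.U7.Defs

/-!
# FB/U7: the argument of `(hat A + hat (-C)) / hat (A - C)` along the path (ARGX)
-/

set_option autoImplicit false

namespace Pool.Agent.FB.U7

open Complex Set

/-! ### the path in polar form -/

/-- the direction of the path -/
private noncomputable def argxUps (τ : ℝ) : ℂ := 1 + ((min 1 (2 - τ) : ℝ) : ℂ) * I

private theorem argx_ups_re (τ : ℝ) : (argxUps τ).re = 1 := by
  unfold argxUps
  rw [Complex.add_re, Complex.re_ofReal_mul, Complex.I_re, Complex.one_re, mul_zero, add_zero]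

private theorem argx_ups_cont : Continuous argxUps := by
  unfold argxUps
  fun_prop

private theorem argx_pth (R τ : ℝ) :
    pth R τ = ((R * min τ 1 : ℝ) : ℂ) * argxUps τ := by
  have e : min τ (2 - τ) = min τ 1 * min 1 (2 - τ) := by
    rcases le_total τ 1 with h | h
    · rw [min_eq_left h, min_eq_left (by linarith : τ ≤ 2 - τ), min_eq_left (by linarith : (1 : ℝ) ≤ 2 - τ),
        mul_one]
    · rw [min_eq_right h, min_eq_right (by linarith : 2 - τ ≤ τ),
        min_eq_right (by linarith : 2 - τ ≤ (1 : ℝ)), one_mul]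
  unfold pth argxUps
  rw [e]
  push_cast
  ring

private theorem argx_pth_cont (R : ℝ) : Continuous (pth R) := by
  unfold pth
  fun_prop

/-! ### the quotient function -/

/-- `(e ^ (n z) - 1) / z` -/
private noncomputable def argxG (n : ℤ) (z : ℂ) : ℂ := dslope (fun z => Complex.exp ((n : ℂ) * z)) 0 z

private theorem argx_G_ne (n : ℤ) (z : ℂ) (hz : z ≠ 0) :
    argxG n z = (Complex.exp ((n : ℂ) * z) - 1) / z := by
  unfold argxG
  rw [dslope_of_ne _ hz, slope_def_field, mul_zero, Complex.exp_zero, sub_zero]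

private theorem argx_G_deriv (n : ℤ) :
    HasDerivAt (fun z => Complex.exp ((n : ℂ) * z)) (n : ℂ) 0 := by
  have h1 : HasDerivAt (fun z : ℂ => (n : ℂ) * z) ((n : ℂ) * 1) 0 := (hasDerivAt_id (0 : ℂ)).const_mul _
  have h2 := h1.cexp
  simpa using h2

private theorem argx_G_zero (n : ℤ) : argxG n 0 = n := by
  unfold argxG
  rw [dslope_same]
  exact (argx_G_deriv n).deriv

private theorem argx_G_cont (n : ℤ) : Continuous (argxG n) := by
  rw [← continuousOn_univ]
  refine (continuousOn_dslope (Filter.univ_mem)).2 ⟨?_, (argx_G_deriv n).differentiableAt⟩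
  exact (by fun_prop : Continuous fun z : ℂ => Complex.exp ((n : ℂ) * z)).continuousOn

private theorem argx_G_mul (n : ℤ) (z : ℂ) : argxG n z * z = Complex.exp ((n : ℂ) * z) - 1 := by
  by_cases hz : z = 0
  · rw [hz, mul_zero, mul_zero, Complex.exp_zero, sub_self]
  · rw [argx_G_ne n z hz, div_mul_cancel₀ _ hz]

private theorem argx_G_neg (n : ℤ) (z : ℂ) :
    argxG n z = -(Complex.exp ((n : ℂ) * z) * argxG (-n) z) := by
  by_cases hz : z = 0
  · rw [hz, argx_G_zero, argx_G_zero, mul_zero, Complex.exp_zero]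
    push_cast
    ring
  · apply mul_right_cancel₀ hz
    rw [neg_mul, mul_assoc, argx_G_mul, argx_G_mul, mul_sub, ← Complex.exp_add]
    have e : (n : ℂ) * z + ((-n : ℤ) : ℂ) * z = 0 := by
      push_cast
      ring
    rw [e, Complex.exp_zero]
    ring

/-! ### real inequalities -/

private theorem argx_f_pos (v : ℝ) (h0 : 0 < v) (h2 : v ≤ 2) :
    0 < 1 + Real.exp v * (Real.sin v - Real.cos v) := by
  have hpi := Real.pi_gt_three
  have hd : ∀ x : ℝ, HasDerivAt (fun x => 1 + Real.exp x * (Real.sin x - Real.cos x))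
      (2 * (Real.exp x * Real.sin x)) x := by
    intro x
    have h1 := ((Real.hasDerivAt_exp x).mul ((Real.hasDerivAt_sin x).sub (Real.hasDerivAt_cos x))).const_add 1
    refine h1.congr_deriv ?_
    simp only [Pi.sub_apply]
    ring
  have hm : StrictMonoOn (fun x => 1 + Real.exp x * (Real.sin x - Real.cos x)) (Icc 0 2) := by
    refine strictMonoOn_of_deriv_pos (convex_Icc 0 2) ?_ ?_
    · exact (continuous_iff_continuousAt.2 fun x => (hd x).continuousAt).continuousOn
    · intro x hx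
      rw [interior_Icc] at hx
      rw [(hd x).deriv]
      have := Real.sin_pos_of_pos_of_lt_pi hx.1 (by linarith [hx.2])
      have := Real.exp_pos x
      positivity
  have h3 := hm (⟨le_refl _, by norm_num⟩ : (0 : ℝ) ∈ Icc (0 : ℝ) 2) ⟨h0.le, h2⟩ h0
  simpa using h3

private theorem argx_g_pos (w : ℝ) (h0 : 0 < w) :
    0 < 1 - Real.exp (-w) * (Real.sin w + Real.cos w) := by
  have h1 : w + 1 < Real.exp w := Real.add_one_lt_exp h0.ne'
  have h2 : Real.sin w ≤ w := Real.sin_le h0.le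
  have h3 : Real.cos w ≤ 1 := Real.cos_le_one w
  have h4 : Real.exp (-w) * Real.exp w = 1 := by rw [← Real.exp_add]; simp
  have h5 := Real.exp_pos (-w)
  nlinarith

private theorem argx_cs_nonneg (v : ℝ) (h0 : 0 < v) (h2 : v < 2) :
    0 ≤ Real.cos v + Real.sin v := by
  have hpi := Real.pi_gt_three
  have h1 := Real.sin_pos_of_pos_of_lt_pi (x := v + Real.pi / 4) (by linarith) (by linarith)
  rw [Real.sin_add, Real.cos_pi_div_four, Real.sin_pi_div_four] at h1
  have h3 : 0 < √2 := by positivity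
  have h4 : Real.sin v * (√2 / 2) + Real.cos v * (√2 / 2) = (√2 / 2) * (Real.cos v + Real.sin v) := by ring
  rw [h4] at h1
  exact ((mul_pos_iff_of_pos_left (by positivity)).1 h1).le

/-! ### the numerator -/

/-- the normalized numerator -/
private noncomputable def argxK (A C : ℤ) (R τ : ℝ) : ℂ :=
  argxUps τ * (argxG A (pth R τ) + argxG (-C) (pth R τ)) * Complex.exp (-((A : ℂ) * pth R τ))

private theorem argx_K_cont (A C : ℤ) (R : ℝ) : Continuous (argxK A C R) := by
  unfold argxK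
  have h1 := argx_pth_cont R
  have h2 := (argx_G_cont A).comp h1
  have h3 := (argx_G_cont (-C)).comp h1
  have h4 := argx_ups_cont
  have h5 : Continuous fun τ => Complex.exp (-((A : ℂ) * pth R τ)) := by fun_prop
  exact (h4.mul (h2.add h3)).mul h5

private theorem argx_K_mul (A C : ℤ) (R τ : ℝ) :
    ((R * min τ 1 : ℝ) : ℂ) * argxK A C R τ =
      (Complex.exp ((A : ℂ) * pth R τ) + Complex.exp (-((C : ℂ) * pth R τ)) - 2) *
        Complex.exp (-((A : ℂ) * pth R τ)) := by
  have h1 := argx_G_mul A (pth R τ)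
  have h2 := argx_G_mul (-C) (pth R τ)
  have h3 : ((-C : ℤ) : ℂ) * pth R τ = -((C : ℂ) * pth R τ) := by
    push_cast
    ring
  rw [h3] at h2
  have h4 : ((R * min τ 1 : ℝ) : ℂ) * argxK A C R τ =
      (argxG A (pth R τ) * pth R τ + argxG (-C) (pth R τ) * pth R τ) *
        Complex.exp (-((A : ℂ) * pth R τ)) := by
    unfold argxK
    have h5 := argx_pth R τ
    have h6 : ∀ x y : ℂ, ((R * min τ 1 : ℝ) : ℂ) * (argxUps τ * x * y) =
        x * (((R * min τ 1 : ℝ) : ℂ) * argxUps τ) * y := by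
      intro x y
      ring
    rw [h6, ← h5]
    ring
  rw [h4, h1, h2]
  ring

private theorem argx_pth_re (R τ : ℝ) : (pth R τ).re = R * min τ 1 := by
  rw [argx_pth, Complex.re_ofReal_mul, argx_ups_re, mul_one]

/-- the real part of `1 + e ^ (-(A+C) z) - 2 e ^ (-A z)` -/
private theorem argx_big (A C : ℤ) (z : ℂ) (hC : 0 < (C : ℝ)) (hz : 0 < z.re)
    (h : 2 ≤ (A : ℝ) * z.re) :
    0 < ((Complex.exp ((A : ℂ) * z) + Complex.exp (-((C : ℂ) * z)) - 2) *
        Complex.exp (-((A : ℂ) * z))).re := by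
  have e1 : (Complex.exp ((A : ℂ) * z) + Complex.exp (-((C : ℂ) * z)) - 2) *
        Complex.exp (-((A : ℂ) * z)) =
      1 + Complex.exp (-((C : ℂ) * z) + -((A : ℂ) * z)) - 2 * Complex.exp (-((A : ℂ) * z)) := by
    rw [Complex.exp_add, sub_mul, add_mul, ← Complex.exp_add, add_neg_cancel, Complex.exp_zero]
  rw [e1]
  have n1 : ‖Complex.exp (-((A : ℂ) * z))‖ = Real.exp (-(A * z.re)) := by
    rw [Complex.norm_exp]
    congr 1
    simp
  have n2 : ‖Complex.exp (-((C : ℂ) * z) + -((A : ℂ) * z))‖ = Real.exp (-(C * z.re) + -(A * z.re)) := by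
    rw [Complex.norm_exp]
    congr 1
    simp
  have r1 := Complex.abs_re_le_norm (Complex.exp (-((A : ℂ) * z)))
  have r2 := Complex.abs_re_le_norm (Complex.exp (-((C : ℂ) * z) + -((A : ℂ) * z)))
  rw [n1] at r1
  rw [n2] at r2
  have h3 : Real.exp (-(C * z.re) + -(A * z.re)) ≤ Real.exp (-(A * z.re)) := by
    apply Real.exp_le_exp.2
    have := mul_pos hC hz
    linarith
  have h4 : Real.exp (-(A * z.re)) ≤ Real.exp (-2) := Real.exp_le_exp.2 (by linarith)
  have h5 : (2 : ℝ) + 1 < Real.exp 2 := Real.add_one_lt_exp (by norm_num)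
  have h6 : Real.exp (-2) * Real.exp 2 = 1 := by rw [← Real.exp_add]; simp
  have h7 := Real.exp_pos (-2)
  have h8 : Real.exp (-2) * 3 < 1 := by nlinarith
  have a1 := (abs_le.1 r1).2
  have a2 := (abs_le.1 r2).1
  simp only [Complex.sub_re, Complex.add_re, Complex.one_re]
  have e2 : (2 * Complex.exp (-((A : ℂ) * z))).re = 2 * (Complex.exp (-((A : ℂ) * z))).re := by
    simp
  rw [e2]
  linarith

/-- the small values of the parameter -/
private theorem argx_small (A C : ℤ) (σ : ℝ) (hC : 0 < (C : ℝ)) (hs : 0 < σ)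
    (hA : 0 < (A : ℝ)) (h : (A : ℝ) * σ < 2) (z K : ℂ) (hz : z = (σ : ℂ) * (1 + I))
    (hK : (σ : ℂ) * K = (Complex.exp ((A : ℂ) * z) + Complex.exp (-((C : ℂ) * z)) - 2) *
        Complex.exp (-((A : ℂ) * z))) (h1 : K.re = 0) : 0 < K.im := by
  by_contra hn
  push Not at hn
  have hv : 0 < (A : ℝ) * σ := mul_pos hA hs
  have hw : 0 < (C : ℝ) * σ := mul_pos hC hs
  have f1 := argx_f_pos _ hv h.le
  have f2 := argx_g_pos _ hw
  have f3 := argx_cs_nonneg _ hv h
  have e0 : K = (K.im : ℂ) * I := by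
    apply Complex.ext
    · simp [h1]
    · simp
  have e1 : Complex.exp ((A : ℂ) * z) + Complex.exp (-((C : ℂ) * z)) - 2 =
      ((σ * K.im : ℝ) : ℂ) * (I * Complex.exp ((A : ℂ) * z)) := by
    have e2 : Complex.exp (-((A : ℂ) * z)) * Complex.exp ((A : ℂ) * z) = 1 := by
      rw [← Complex.exp_add, neg_add_cancel, Complex.exp_zero]
    have e3 : ((σ : ℂ) * K) * Complex.exp ((A : ℂ) * z) =
        Complex.exp ((A : ℂ) * z) + Complex.exp (-((C : ℂ) * z)) - 2 := by
      rw [hK, mul_assoc, e2, mul_one]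
    rw [← e3]
    conv_lhs => rw [e0]
    push_cast
    ring
  have x1 : (Complex.exp ((A : ℂ) * z)).re = Real.exp (A * σ) * Real.cos (A * σ) := by
    rw [Complex.exp_re, hz]
    simp
  have x2 : (Complex.exp ((A : ℂ) * z)).im = Real.exp (A * σ) * Real.sin (A * σ) := by
    rw [Complex.exp_im, hz]
    simp
  have x3 : (Complex.exp (-((C : ℂ) * z))).re = Real.exp (-(C * σ)) * Real.cos (C * σ) := by
    rw [Complex.exp_re, hz]
    simp
  have x4 : (Complex.exp (-((C : ℂ) * z))).im = -(Real.exp (-(C * σ)) * Real.sin (C * σ)) := by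
    rw [Complex.exp_im, hz]
    simp
  have y1 := congrArg Complex.re e1
  have y2 := congrArg Complex.im e1
  rw [Complex.re_ofReal_mul, Complex.sub_re, Complex.add_re, Complex.I_mul_re] at y1
  rw [Complex.im_ofReal_mul, Complex.sub_im, Complex.add_im, Complex.I_mul_im] at y2
  rw [x1, x3, x2] at y1
  rw [x1, x2, x4] at y2
  have z1 : (2 : ℂ).re = 2 := rfl
  have z2 : (2 : ℂ).im = 0 := rfl
  rw [z1] at y1
  rw [z2] at y2
  have m1 : σ * K.im ≤ 0 := mul_nonpos_of_nonneg_of_nonpos hs.le hn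
  have m2 : 0 ≤ Real.exp (A * σ) * (Real.cos (A * σ) + Real.sin (A * σ)) :=
    mul_nonneg (Real.exp_pos _).le f3
  have m3 := mul_nonpos_of_nonpos_of_nonneg m1 m2
  nlinarith

private theorem argx_pth_zero (R : ℝ) : pth R 0 = 0 := by
  rw [argx_pth]
  simp

private theorem argx_K_zero (A C : ℤ) (R : ℝ) : argxK A C R 0 = (((A - C : ℤ) : ℝ) : ℂ) * (1 + I) := by
  have e : argxUps 0 = 1 + I := by
    unfold argxUps
    norm_num
  unfold argxK
  rw [argx_pth_zero, argx_G_zero, argx_G_zero, mul_zero, neg_zero, Complex.exp_zero, mul_one, e]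
  push_cast
  ring

private theorem argx_K_ne (N : ℝ) (hN : 100 ≤ N) (A C : ℤ) (hA : N ≤ (A : ℝ)) (hC : N ≤ (C : ℝ))
    (hAC : A ≠ C) (τ : ℝ) (h0 : 0 ≤ τ) : 0 < (argxK A C (2 / N) τ).im ∨ (argxK A C (2 / N) τ).re ≠ 0 := by
  by_cases hK : (argxK A C (2 / N) τ).re = 0
  · refine Or.inl ?_
    have hN0 : 0 < N := by linarith
    have hR : 0 < 2 / N := by positivity
    rcases h0.lt_or_eq with ht | ht
    · have hs : 0 < 2 / N * min τ 1 := mul_pos hR (lt_min ht one_pos)
      have hm := argx_K_mul A C (2 / N) τ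
      have hre := argx_pth_re (2 / N) τ
      rcases le_or_gt 2 ((A : ℝ) * (2 / N * min τ 1)) with h | h
      · exfalso
        have h1 := argx_big A C (pth (2 / N) τ) (by linarith) (by rw [hre]; exact hs) (by rw [hre]; exact h)
        rw [← hm, Complex.re_ofReal_mul, hK, mul_zero] at h1
        exact lt_irrefl _ h1
      · have h1 : min τ 1 < 1 := by
          by_contra hc
          push Not at hc
          have h2 : 2 / N * 1 ≤ 2 / N * min τ 1 := mul_le_mul_of_nonneg_left hc hR.le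
          have h3 : (N : ℝ) * (2 / N * 1) ≤ A * (2 / N * min τ 1) :=
            mul_le_mul hA h2 (by positivity) (by linarith)
          have h4 : (N : ℝ) * (2 / N * 1) = 2 := by field_simp
          linarith
        have h2 : τ < 1 := by
          by_contra hc
          push Not at hc
          rw [min_eq_right hc] at h1
          exact lt_irrefl _ h1
        have e : argxUps τ = 1 + I := by
          unfold argxUps
          rw [min_eq_left (by linarith : (1 : ℝ) ≤ 2 - τ)]
          push_cast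
          ring
        have hz := argx_pth (2 / N) τ
        rw [e] at hz
        exact argx_small A C _ (by linarith) hs (by linarith) h _ _ hz hm hK
    · exfalso
      rw [← ht, argx_K_zero, Complex.re_ofReal_mul] at hK
      have h1 : ((A - C : ℤ) : ℝ) ≠ 0 := by
        exact_mod_cast sub_ne_zero.2 hAC
      have h2 : (1 + I : ℂ).re = 1 := by simp
      rw [h2, mul_one] at hK
      exact h1 hK
  · exact Or.inr hK

private theorem argx_k_slit (N : ℝ) (hN : 100 ≤ N) (A C : ℤ) (hA : N ≤ (A : ℝ)) (hC : N ≤ (C : ℝ))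
    (hAC : A ≠ C) (τ : ℝ) (h0 : 0 ≤ τ) : -I * argxK A C (2 / N) τ ∈ slitPlane := by
  rw [Complex.mem_slitPlane_iff]
  have h := argx_K_ne N hN A C hA hC hAC τ h0
  have e1 : (-I * argxK A C (2 / N) τ).re = (argxK A C (2 / N) τ).im := by simp
  have e2 : (-I * argxK A C (2 / N) τ).im = -(argxK A C (2 / N) τ).re := by simp
  rw [e1, e2]
  rcases h with h | h
  · exact Or.inl h
  · exact Or.inr (neg_ne_zero.2 h)

/-! ### the denominator -/

/-- the normalized denominator -/
private noncomputable def argxD (n : ℤ) (R τ : ℝ) : ℂ := -(argxUps τ * argxG (-n) (pth R τ))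

private theorem argx_D_cont (n : ℤ) (R : ℝ) : Continuous (argxD n R) := by
  unfold argxD
  exact (argx_ups_cont.mul ((argx_G_cont (-n)).comp (argx_pth_cont R))).neg

private theorem argx_D_zero (n : ℤ) (R : ℝ) : argxD n R 0 = ((n : ℝ) : ℂ) * (1 + I) := by
  have e : argxUps 0 = 1 + I := by
    unfold argxUps
    norm_num
  unfold argxD
  rw [argx_pth_zero, argx_G_zero, e]
  push_cast
  ring

private theorem argx_D_mul (n : ℤ) (R τ : ℝ) :
    ((R * min τ 1 : ℝ) : ℂ) * argxD n R τ = 1 - Complex.exp (-((n : ℂ) * pth R τ)) := by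
  have h2 := argx_G_mul (-n) (pth R τ)
  have h3 : ((-n : ℤ) : ℂ) * pth R τ = -((n : ℂ) * pth R τ) := by
    push_cast
    ring
  rw [h3] at h2
  have h4 : ((R * min τ 1 : ℝ) : ℂ) * argxD n R τ = -(argxG (-n) (pth R τ) * pth R τ) := by
    unfold argxD
    have h5 := argx_pth R τ
    have h6 : ∀ x : ℂ, ((R * min τ 1 : ℝ) : ℂ) * (-(argxUps τ * x)) =
        -(x * (((R * min τ 1 : ℝ) : ℂ) * argxUps τ)) := by
      intro x
      ring
    rw [h6, ← h5]
  rw [h4, h2]
  ring

private theorem argx_D_re (R : ℝ) (hR : 0 < R) (n : ℤ) (hn : 0 < n) (τ : ℝ) (h0 : 0 ≤ τ) :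
    0 < (argxD n R τ).re := by
  have hn' : (0 : ℝ) < n := by exact_mod_cast hn
  rcases h0.lt_or_eq with ht | ht
  · have hs : 0 < R * min τ 1 := mul_pos hR (lt_min ht one_pos)
    have hm := congrArg Complex.re (argx_D_mul n R τ)
    rw [Complex.re_ofReal_mul, Complex.sub_re, Complex.one_re] at hm
    have n1 : ‖Complex.exp (-((n : ℂ) * pth R τ))‖ = Real.exp (-(n * (R * min τ 1))) := by
      rw [Complex.norm_exp, ← argx_pth_re]
      congr 1
      simp
    have r1 := Complex.abs_re_le_norm (Complex.exp (-((n : ℂ) * pth R τ)))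
    rw [n1] at r1
    have r2 := (abs_le.1 r1).2
    have r3 : Real.exp (-(n * (R * min τ 1))) < 1 := by
      rw [Real.exp_lt_one_iff]
      have := mul_pos hn' hs
      linarith
    have h5 : 0 < R * min τ 1 * (argxD n R τ).re := by
      rw [hm]
      linarith
    exact (mul_pos_iff_of_pos_left hs).1 h5
  · rw [← ht, argx_D_zero, Complex.re_ofReal_mul]
    have h2 : (1 + I : ℂ).re = 1 := by simp
    rw [h2, mul_one]
    exact hn'

private theorem argx_D_slit (R : ℝ) (hR : 0 < R) (n : ℤ) (hn : 0 < n) (τ : ℝ) (h0 : 0 ≤ τ) :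
    argxD n R τ ∈ slitPlane := by
  rw [Complex.mem_slitPlane_iff]
  exact Or.inl (argx_D_re R hR n hn τ h0)

/-! ### values of the argument -/

private theorem argx_arg1 : arg (1 + I) = Real.pi / 4 := by
  have h := Complex.arg_mul_cos_add_sin_mul_I (r := √2) (by positivity) (θ := Real.pi / 4)
    ⟨by linarith [Real.pi_pos], by linarith [Real.pi_pos]⟩
  have h2 : ((√2 : ℝ) : ℂ) * (Complex.cos ((Real.pi / 4 : ℝ) : ℂ) + Complex.sin ((Real.pi / 4 : ℝ) : ℂ) * I) =
      1 + I := by
    rw [← Complex.ofReal_cos, ← Complex.ofReal_sin, Real.cos_pi_div_four, Real.sin_pi_div_four]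
    have h3 : (√2 : ℝ) * (√2 / 2) = 1 := by
      have := Real.mul_self_sqrt (show (0 : ℝ) ≤ 2 by norm_num)
      linarith
    have h4 : ((√2 : ℝ) : ℂ) * ((√2 / 2 : ℝ) : ℂ) = 1 := by exact_mod_cast h3
    linear_combination (1 + I) * h4
  rw [h2] at h
  exact h

private theorem argx_arg2 : arg (1 - I) = -(Real.pi / 4) := by
  have h := Complex.arg_mul_cos_add_sin_mul_I (r := √2) (by positivity) (θ := -(Real.pi / 4))
    ⟨by linarith [Real.pi_pos], by linarith [Real.pi_pos]⟩
  have h2 : ((√2 : ℝ) : ℂ) * (Complex.cos ((-(Real.pi / 4) : ℝ) : ℂ) +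
      Complex.sin ((-(Real.pi / 4) : ℝ) : ℂ) * I) = 1 - I := by
    rw [← Complex.ofReal_cos, ← Complex.ofReal_sin, Real.cos_neg, Real.sin_neg, Real.cos_pi_div_four,
      Real.sin_pi_div_four]
    have h3 : (√2 : ℝ) * (√2 / 2) = 1 := by
      have := Real.mul_self_sqrt (show (0 : ℝ) ≤ 2 by norm_num)
      linarith
    have h4 : ((√2 : ℝ) : ℂ) * ((√2 / 2 : ℝ) : ℂ) = 1 := by exact_mod_cast h3
    rw [Complex.ofReal_neg]
    linear_combination (1 - I) * h4
  rw [h2] at h
  exact h

private theorem argx_arg3 : arg (-1 + I) = 3 * Real.pi / 4 := by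
  have h := Complex.arg_mul_cos_add_sin_mul_I (r := √2) (by positivity) (θ := Real.pi - Real.pi / 4)
    ⟨by linarith [Real.pi_pos], by linarith [Real.pi_pos]⟩
  have h2 : ((√2 : ℝ) : ℂ) * (Complex.cos ((Real.pi - Real.pi / 4 : ℝ) : ℂ) +
      Complex.sin ((Real.pi - Real.pi / 4 : ℝ) : ℂ) * I) = -1 + I := by
    rw [← Complex.ofReal_cos, ← Complex.ofReal_sin, Real.cos_pi_sub, Real.sin_pi_sub,
      Real.cos_pi_div_four, Real.sin_pi_div_four]
    have h3 : (√2 : ℝ) * (√2 / 2) = 1 := by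
      have := Real.mul_self_sqrt (show (0 : ℝ) ≤ 2 by norm_num)
      linarith
    have h4 : ((√2 : ℝ) : ℂ) * ((√2 / 2 : ℝ) : ℂ) = 1 := by exact_mod_cast h3
    rw [Complex.ofReal_neg]
    linear_combination (-1 + I) * h4
  rw [h2] at h
  rw [h]
  ring

/-! ### assembly -/

private theorem argx_mk (f : ℝ → ℂ) (θ : ℝ → ℝ) (w : ℝ) (hf : ContinuousOn f (Icc 0 2))
    (hθ : ContinuousOn θ (Icc 0 2)) (h0 : θ 0 = 0) (h2 : θ 2 = w)
    (h : ∀ t ∈ Icc (0 : ℝ) 2, ∃ r : ℝ, 0 < r ∧ f t = (r : ℂ) * Complex.exp (θ t * I)) : HasW f w := by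
  refine ⟨hf, θ, hθ, h0, h2, fun t ht => ?_⟩
  obtain ⟨r, hr, e⟩ := h t ht
  have hn : ‖f t‖ = r := by
    rw [e, norm_mul, Complex.norm_exp_ofReal_mul_I, mul_one, Complex.norm_real, Real.norm_eq_abs,
      abs_of_pos hr]
  refine ⟨?_, ?_⟩
  · rw [← norm_pos_iff, hn]
    exact hr
  · rw [hn]
    exact e

private theorem argx_exp (n : ℤ) (z : ℂ) : Complex.exp ((n : ℂ) * z) =
    ((Real.exp (n * z.re) : ℝ) : ℂ) * Complex.exp (((n * z.im : ℝ) : ℂ) * I) := by
  rw [Complex.ofReal_exp, ← Complex.exp_add]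
  congr 1
  conv_lhs => rw [← Complex.re_add_im z]
  push_cast
  ring

private theorem argx_I : I = Complex.exp (((Real.pi / 2 : ℝ) : ℂ) * I) := by
  rw [Complex.exp_mul_I, ← Complex.ofReal_cos, ← Complex.ofReal_sin, Real.cos_pi_div_two,
    Real.sin_pi_div_two]
  simp

/-- the quotient of the hats -/
private theorem argx_hat (h : St_Base) (N : ℝ) (hN : 100 ≤ N) (A C : ℤ) (τ : ℝ) (h0 : 0 ≤ τ)
    (h2 : τ ≤ 2) :
    (hat A (pth (2 / N) τ) + hat (-C) (pth (2 / N) τ)) / hat (A - C) (pth (2 / N) τ) =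
      (argxG A (pth (2 / N) τ) + argxG (-C) (pth (2 / N) τ)) / argxG (A - C) (pth (2 / N) τ) := by
  by_cases hz : pth (2 / N) τ = 0
  · rw [hz, argx_G_zero, argx_G_zero, argx_G_zero]
    simp only [hat, if_pos]
  · have hb := h N hN τ h0 h2 _ rfl
    have hl : lm (pth (2 / N) τ) ≠ 0 := by
      rw [← norm_pos_iff]
      have h3 := norm_pos_iff.2 hz
      have h4 := hb.2.2.2.2.1.1
      linarith
    have key : ∀ n : ℤ, hat n (pth (2 / N) τ) =
        argxG n (pth (2 / N) τ) * (pth (2 / N) τ / lm (pth (2 / N) τ)) := by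
      intro n
      unfold hat
      rw [if_neg hz, argx_G_ne n _ hz]
      field_simp
    rw [key A, key (-C), key (A - C), ← add_mul, mul_div_mul_right]
    exact div_ne_zero hz hl

private theorem argx_pth_two (R : ℝ) : pth R 2 = (R : ℂ) := by
  rw [argx_pth]
  unfold argxUps
  norm_num

private theorem argx_K_two (N : ℝ) (hN : 100 ≤ N) (A C : ℤ) (hA : N ≤ (A : ℝ)) (hC : N ≤ (C : ℝ)) :
    arg (-I * argxK A C (2 / N) 2) = -(Real.pi / 2) := by
  have hN0 : 0 < N := by linarith
  have hR : 0 < 2 / N := by positivity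
  have hm := argx_K_mul A C (2 / N) 2
  have hmin : min (2 : ℝ) 1 = 1 := min_eq_right (by norm_num)
  have h2 : 2 ≤ (A : ℝ) * (2 / N) := by
    have h3 : N * (2 / N) = 2 := by field_simp
    have h4 : N * (2 / N) ≤ A * (2 / N) := mul_le_mul_of_nonneg_right hA hR.le
    linarith
  rw [hmin, mul_one, argx_pth_two] at hm
  have h1 := argx_big A C ((2 / N : ℝ) : ℂ) (by linarith) (by rw [Complex.ofReal_re]; exact hR)
    (by rw [Complex.ofReal_re]; exact h2)
  rw [← hm, Complex.re_ofReal_mul] at h1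
  have hre : 0 < (argxK A C (2 / N) 2).re := (mul_pos_iff_of_pos_left hR).1 h1
  have e1 : (Complex.exp ((A : ℂ) * ((2 / N : ℝ) : ℂ)) + Complex.exp (-((C : ℂ) * ((2 / N : ℝ) : ℂ))) - 2) *
        Complex.exp (-((A : ℂ) * ((2 / N : ℝ) : ℂ))) =
      (((Real.exp (A * (2 / N)) + Real.exp (-(C * (2 / N))) - 2) * Real.exp (-(A * (2 / N))) : ℝ) : ℂ) := by
    push_cast
    ring
  have him : (argxK A C (2 / N) 2).im = 0 := by
    rw [e1] at hm
    have h5 := congrArg Complex.im hm
    rw [Complex.im_ofReal_mul, Complex.ofReal_im] at h5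
    rcases mul_eq_zero.1 h5 with h6 | h6
    · exact absurd h6 hR.ne'
    · exact h6
  have e2 : -I * argxK A C (2 / N) 2 = ((argxK A C (2 / N) 2).re : ℂ) * -I := by
    have e3 : argxK A C (2 / N) 2 = ((argxK A C (2 / N) 2).re : ℂ) := by
      apply Complex.ext
      · simp
      · simp [him]
    conv_lhs => rw [e3]
    ring
  rw [e2, Complex.arg_real_mul _ hre, Complex.arg_neg_I]

private theorem argx_D_two (R : ℝ) (hR : 0 < R) (n : ℤ) (hn : 0 < n) : arg (argxD n R 2) = 0 := by
  have hre := argx_D_re R hR n hn 2 (by norm_num)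
  have hm := argx_D_mul n R 2
  have hmin : min (2 : ℝ) 1 = 1 := min_eq_right (by norm_num)
  rw [hmin, mul_one, argx_pth_two] at hm
  have e1 : 1 - Complex.exp (-((n : ℂ) * (R : ℂ))) = ((1 - Real.exp (-(n * R)) : ℝ) : ℂ) := by
    push_cast
    ring
  have him : (argxD n R 2).im = 0 := by
    rw [e1] at hm
    have h5 := congrArg Complex.im hm
    rw [Complex.im_ofReal_mul, Complex.ofReal_im] at h5
    rcases mul_eq_zero.1 h5 with h6 | h6
    · exact absurd h6 hR.ne'
    · exact h6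
  have e3 : argxD n R 2 = ((argxD n R 2).re : ℂ) := by
    apply Complex.ext
    · simp
    · simp [him]
  rw [e3, Complex.arg_ofReal_of_nonneg hre.le]

private theorem argx_num (A C : ℤ) (R τ : ℝ) :
    argxUps τ * (argxG A (pth R τ) + argxG (-C) (pth R τ)) =
      argxK A C R τ * Complex.exp ((A : ℂ) * pth R τ) := by
  unfold argxK
  rw [mul_assoc, ← Complex.exp_add, neg_add_cancel, Complex.exp_zero, mul_one]

private theorem argx_den (n : ℤ) (R τ : ℝ) :
    argxUps τ * argxG n (pth R τ) = Complex.exp ((n : ℂ) * pth R τ) * argxD n R τ := by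
  rw [argx_G_neg]
  unfold argxD
  ring

private theorem argx_ups_ne (τ : ℝ) : argxUps τ ≠ 0 := by
  intro h
  have := argx_ups_re τ
  rw [h, Complex.zero_re] at this
  exact zero_ne_one this

private theorem argx_K_polar (A C : ℤ) (R τ : ℝ) : argxK A C R τ * Complex.exp ((A : ℂ) * pth R τ) =
    ((‖-I * argxK A C R τ‖ * Real.exp (A * (pth R τ).re) : ℝ) : ℂ) *
      Complex.exp (((A * (pth R τ).im + arg (-I * argxK A C R τ) + Real.pi / 2 : ℝ) : ℂ) * I) := by
  have h1 : argxK A C R τ = (-I * argxK A C R τ) * I := by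
    have := Complex.I_mul_I
    linear_combination (argxK A C R τ) * this
  have h2 := Complex.norm_mul_exp_arg_mul_I (-I * argxK A C R τ)
  have h3 : Complex.exp (((A * (pth R τ).im + arg (-I * argxK A C R τ) + Real.pi / 2 : ℝ) : ℂ) * I) =
      Complex.exp (((A * (pth R τ).im : ℝ) : ℂ) * I) * Complex.exp ((arg (-I * argxK A C R τ) : ℂ) * I) *
        I := by
    rw [Complex.ofReal_add, Complex.ofReal_add, add_mul, add_mul, Complex.exp_add, Complex.exp_add,
      ← argx_I]
  rw [h3, argx_exp]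
  conv_lhs => rw [h1, ← h2]
  push_cast
  ring

private theorem argx_arg_cont (f : ℝ → ℂ) (hf : Continuous f)
    (h : ∀ t ∈ Icc (0 : ℝ) 2, f t ∈ slitPlane) : ContinuousOn (fun t => arg (f t)) (Icc 0 2) := by
  intro t ht
  exact ((Complex.continuousAt_arg (h t ht)).comp (f := f) hf.continuousAt).continuousWithinAt

private theorem argx_im_cont (n : ℤ) (R : ℝ) : Continuous fun τ => (n : ℝ) * (pth R τ).im :=
  continuous_const.mul (Complex.continuous_im.comp (argx_pth_cont R))

/-- the case `A > C` -/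
private theorem argx_case1 (N : ℝ) (hN : 100 ≤ N) (A C : ℤ) (hA : N ≤ (A : ℝ)) (hC : N ≤ (C : ℝ))
    (hAC : C < A) : HasW (fun τ => (argxG A (pth (2 / N) τ) + argxG (-C) (pth (2 / N) τ)) /
      argxG (A - C) (pth (2 / N) τ)) 0 := by
  have hN0 : 0 < N := by linarith
  have hR : 0 < 2 / N := by positivity
  have hn : 0 < A - C := sub_pos.2 hAC
  have hne : A ≠ C := hAC.ne'
  have hf : ∀ τ ∈ Icc (0 : ℝ) 2, argxG (A - C) (pth (2 / N) τ) ≠ 0 := by
    intro τ hτ h0
    have h1 := argx_den (A - C) (2 / N) τ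
    rw [h0, mul_zero] at h1
    have h2 := slitPlane_ne_zero (argx_D_slit (2 / N) hR (A - C) hn τ hτ.1)
    exact (mul_ne_zero (Complex.exp_ne_zero _) h2) h1.symm
  refine argx_mk _ (fun τ => (A * (pth (2 / N) τ).im + arg (-I * argxK A C (2 / N) τ) + Real.pi / 2) -
    (((A - C : ℤ) : ℝ) * (pth (2 / N) τ).im + arg (argxD (A - C) (2 / N) τ))) 0 ?_ ?_ ?_ ?_ ?_
  · have h1 := argx_pth_cont (2 / N)
    exact (((argx_G_cont A).comp h1).add ((argx_G_cont (-C)).comp h1)).continuousOn.div
      ((argx_G_cont (A - C)).comp h1).continuousOn hf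
  · refine ContinuousOn.sub (ContinuousOn.add (ContinuousOn.add ?_ ?_) continuousOn_const)
      (ContinuousOn.add ?_ ?_)
    · exact (argx_im_cont A (2 / N)).continuousOn
    · exact argx_arg_cont _ (continuous_const.mul (argx_K_cont A C (2 / N)))
        fun t ht => argx_k_slit N hN A C hA hC hne t ht.1
    · exact (argx_im_cont (A - C) (2 / N)).continuousOn
    · exact argx_arg_cont _ (argx_D_cont (A - C) (2 / N))
        fun t ht => argx_D_slit (2 / N) hR (A - C) hn t ht.1
  · have hr : (0 : ℝ) < ((A - C : ℤ) : ℝ) := by exact_mod_cast hn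
    have e1 : -I * argxK A C (2 / N) 0 = (((A - C : ℤ) : ℝ) : ℂ) * (1 - I) := by
      rw [argx_K_zero]
      have := Complex.I_mul_I
      linear_combination -(((A - C : ℤ) : ℝ) : ℂ) * this
    show (A * (pth (2 / N) 0).im + arg (-I * argxK A C (2 / N) 0) + Real.pi / 2) -
      (((A - C : ℤ) : ℝ) * (pth (2 / N) 0).im + arg (argxD (A - C) (2 / N) 0)) = 0
    rw [e1, Complex.arg_real_mul _ hr, argx_arg2, argx_D_zero, Complex.arg_real_mul _ hr, argx_arg1,
      argx_pth_zero, Complex.zero_im]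
    ring
  · show (A * (pth (2 / N) 2).im + arg (-I * argxK A C (2 / N) 2) + Real.pi / 2) -
      (((A - C : ℤ) : ℝ) * (pth (2 / N) 2).im + arg (argxD (A - C) (2 / N) 2)) = 0
    rw [argx_K_two N hN A C hA hC, argx_D_two (2 / N) hR (A - C) hn, argx_pth_two, Complex.ofReal_im]
    ring
  · intro τ hτ
    have hk := slitPlane_ne_zero (argx_k_slit N hN A C hA hC hne τ hτ.1)
    have hd := slitPlane_ne_zero (argx_D_slit (2 / N) hR (A - C) hn τ hτ.1)
    refine ⟨(‖-I * argxK A C (2 / N) τ‖ * Real.exp (A * (pth (2 / N) τ).re)) /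
      (Real.exp (((A - C : ℤ) : ℝ) * (pth (2 / N) τ).re) * ‖argxD (A - C) (2 / N) τ‖), ?_, ?_⟩
    · have := norm_pos_iff.2 hk
      have := norm_pos_iff.2 hd
      positivity
    · have e1 : (argxG A (pth (2 / N) τ) + argxG (-C) (pth (2 / N) τ)) /
          argxG (A - C) (pth (2 / N) τ) =
          (argxUps τ * (argxG A (pth (2 / N) τ) + argxG (-C) (pth (2 / N) τ))) /
          (argxUps τ * argxG (A - C) (pth (2 / N) τ)) :=
        (mul_div_mul_left _ _ (argx_ups_ne τ)).symm
      show (argxG A (pth (2 / N) τ) + argxG (-C) (pth (2 / N) τ)) /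
          argxG (A - C) (pth (2 / N) τ) = _
      rw [e1, argx_num, argx_den, argx_K_polar, argx_exp (A - C)]
      have e2 := Complex.norm_mul_exp_arg_mul_I (argxD (A - C) (2 / N) τ)
      conv_lhs => rw [← e2]
      rw [Complex.ofReal_sub, sub_mul, Complex.exp_sub, Complex.ofReal_add (((A - C : ℤ) : ℝ) * _),
        add_mul _ _ I, Complex.exp_add]
      rw [Complex.ofReal_div, Complex.ofReal_mul (Real.exp (((A - C : ℤ) : ℝ) * (pth (2 / N) τ).re))]
      rw [div_mul_div_comm]
      congr 1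
      ring

/-- the case `A < C` -/
private theorem argx_case2 (N : ℝ) (hN : 100 ≤ N) (A C : ℤ) (hA : N ≤ (A : ℝ)) (hC : N ≤ (C : ℝ))
    (hAC : A < C) : HasW (fun τ => (argxG A (pth (2 / N) τ) + argxG (-C) (pth (2 / N) τ)) /
      argxG (A - C) (pth (2 / N) τ)) (-Real.pi) := by
  have hN0 : 0 < N := by linarith
  have hR : 0 < 2 / N := by positivity
  have hn : 0 < C - A := sub_pos.2 hAC
  have hne : A ≠ C := hAC.ne
  have hsub : A - C = -(C - A) := by ring
  have hden : ∀ τ : ℝ, argxUps τ * argxG (A - C) (pth (2 / N) τ) = -argxD (C - A) (2 / N) τ := by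
    intro τ
    unfold argxD
    rw [hsub]
    ring
  have hf : ∀ τ ∈ Icc (0 : ℝ) 2, argxG (A - C) (pth (2 / N) τ) ≠ 0 := by
    intro τ hτ h0
    have h1 := hden τ
    rw [h0, mul_zero] at h1
    have h2 := slitPlane_ne_zero (argx_D_slit (2 / N) hR (C - A) hn τ hτ.1)
    exact (neg_ne_zero.2 h2) h1.symm
  refine argx_mk _ (fun τ => (A * (pth (2 / N) τ).im + arg (-I * argxK A C (2 / N) τ) + Real.pi / 2) -
    (Real.pi + arg (argxD (C - A) (2 / N) τ))) (-Real.pi) ?_ ?_ ?_ ?_ ?_
  · have h1 := argx_pth_cont (2 / N)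
    exact (((argx_G_cont A).comp h1).add ((argx_G_cont (-C)).comp h1)).continuousOn.div
      ((argx_G_cont (A - C)).comp h1).continuousOn hf
  · refine ContinuousOn.sub (ContinuousOn.add (ContinuousOn.add ?_ ?_) continuousOn_const)
      (ContinuousOn.add continuousOn_const ?_)
    · exact (argx_im_cont A (2 / N)).continuousOn
    · exact argx_arg_cont _ (continuous_const.mul (argx_K_cont A C (2 / N)))
        fun t ht => argx_k_slit N hN A C hA hC hne t ht.1
    · exact argx_arg_cont _ (argx_D_cont (C - A) (2 / N))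
        fun t ht => argx_D_slit (2 / N) hR (C - A) hn t ht.1
  · have hr : (0 : ℝ) < ((C - A : ℤ) : ℝ) := by exact_mod_cast hn
    have e1 : -I * argxK A C (2 / N) 0 = (((C - A : ℤ) : ℝ) : ℂ) * (-1 + I) := by
      rw [argx_K_zero]
      have := Complex.I_mul_I
      push_cast
      linear_combination -((A : ℂ) - (C : ℂ)) * this
    show (A * (pth (2 / N) 0).im + arg (-I * argxK A C (2 / N) 0) + Real.pi / 2) -
      (Real.pi + arg (argxD (C - A) (2 / N) 0)) = 0
    rw [e1, Complex.arg_real_mul _ hr, argx_arg3, argx_D_zero, Complex.arg_real_mul _ hr, argx_arg1,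
      argx_pth_zero, Complex.zero_im]
    ring
  · show (A * (pth (2 / N) 2).im + arg (-I * argxK A C (2 / N) 2) + Real.pi / 2) -
      (Real.pi + arg (argxD (C - A) (2 / N) 2)) = -Real.pi
    rw [argx_K_two N hN A C hA hC, argx_D_two (2 / N) hR (C - A) hn, argx_pth_two, Complex.ofReal_im]
    ring
  · intro τ hτ
    have hk := slitPlane_ne_zero (argx_k_slit N hN A C hA hC hne τ hτ.1)
    have hd := slitPlane_ne_zero (argx_D_slit (2 / N) hR (C - A) hn τ hτ.1)
    refine ⟨(‖-I * argxK A C (2 / N) τ‖ * Real.exp (A * (pth (2 / N) τ).re)) /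
      ‖argxD (C - A) (2 / N) τ‖, ?_, ?_⟩
    · have := norm_pos_iff.2 hk
      have := norm_pos_iff.2 hd
      positivity
    · have e1 : (argxG A (pth (2 / N) τ) + argxG (-C) (pth (2 / N) τ)) /
          argxG (A - C) (pth (2 / N) τ) =
          (argxUps τ * (argxG A (pth (2 / N) τ) + argxG (-C) (pth (2 / N) τ))) /
          (argxUps τ * argxG (A - C) (pth (2 / N) τ)) :=
        (mul_div_mul_left _ _ (argx_ups_ne τ)).symm
      show (argxG A (pth (2 / N) τ) + argxG (-C) (pth (2 / N) τ)) /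
          argxG (A - C) (pth (2 / N) τ) = _
      rw [e1, argx_num, hden, argx_K_polar]
      have e2 := Complex.norm_mul_exp_arg_mul_I (argxD (C - A) (2 / N) τ)
      conv_lhs => rw [← e2]
      have e3 := Complex.exp_pi_mul_I
      rw [Complex.ofReal_sub, sub_mul, Complex.exp_sub, Complex.ofReal_add Real.pi,
        add_mul _ _ I, Complex.exp_add, e3]
      rw [Complex.ofReal_div]
      rw [div_mul_div_comm]
      congr 1
      ring

theorem thm_ArgX (h : St_Base) (_hw : St_HasW) : St_ArgX := by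
  refine ⟨100, le_refl _, fun N hN A C hA hC hAC => ?_⟩
  have key : ∀ w, HasW (fun τ => (argxG A (pth (2 / N) τ) + argxG (-C) (pth (2 / N) τ)) /
      argxG (A - C) (pth (2 / N) τ)) w →
      HasW (fun τ => (hat A (pth (2 / N) τ) + hat (-C) (pth (2 / N) τ)) /
        hat (A - C) (pth (2 / N) τ)) w := by
    rintro w ⟨h1, θ, h2, h3, h4, h5⟩
    have e : ∀ t ∈ Icc (0 : ℝ) 2, (hat A (pth (2 / N) t) + hat (-C) (pth (2 / N) t)) /
        hat (A - C) (pth (2 / N) t) =
        (argxG A (pth (2 / N) t) + argxG (-C) (pth (2 / N) t)) / argxG (A - C) (pth (2 / N) t) :=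
      fun t ht => argx_hat h N hN A C t ht.1 ht.2
    refine ⟨h1.congr fun t ht => e t ht, θ, h2, h3, h4, fun t ht => ?_⟩
    show (hat A (pth (2 / N) t) + hat (-C) (pth (2 / N) t)) / hat (A - C) (pth (2 / N) t) ≠ 0 ∧
      (hat A (pth (2 / N) t) + hat (-C) (pth (2 / N) t)) / hat (A - C) (pth (2 / N) t) =
      ‖(hat A (pth (2 / N) t) + hat (-C) (pth (2 / N) t)) / hat (A - C) (pth (2 / N) t)‖ *
        Complex.exp (θ t * I)
    rw [e t ht]
    exact h5 t ht
  rcases lt_or_gt_of_ne hAC with h1 | h1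
  · rw [if_pos h1]
    exact key _ (argx_case2 N hN A C hA hC h1)
  · rw [if_neg (not_lt.2 h1.le)]
    exact key _ (argx_case1 N hN A C hA hC h1)

end Pool.Agent.FB.U7
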