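import Pool.Agent.FB.U7.Defs

/-!
# FB/U7, module BASE: elementary facts on the path
-/

set_option autoImplicit false

open Matrix LaurentPolynomial Pool.RU Pool.Agent.FB.U5 Pool.Agent.FB.U6

namespace Pool.Agent.FB.U7

/-- the exponential bound -/
private theorem BASE_exp (z : ℂ) : ‖Complex.exp z - 1‖ ≤ ‖z‖ * Real.exp (max 0 z.re) := by
  have h1 := norm_image_sub_le_of_norm_deriv_le_segment_01' (f := fun t : ℝ => Complex.exp (t * z))
    (f' := fun t : ℝ => z * Complex.exp (t * z)) (C := ‖z‖ * Real.exp (max 0 z.re)) (by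
      intro t _
      have h2 : HasDerivAt (fun t : ℝ => ((t : ℂ) * z)) z t := by
        have h3 := (Complex.ofRealCLM.hasDerivAt (x := t)).mul_const z
        simpa using h3
      have h4 := h2.cexp
      rw [mul_comm] at h4
      exact h4.hasDerivWithinAt) (by
      intro t ht
      rw [norm_mul, Complex.norm_exp]
      refine mul_le_mul_of_nonneg_left (Real.exp_le_exp.2 ?_) (norm_nonneg _)
      have h5 : ((t : ℂ) * z).re = t * z.re := by
        rw [Complex.re_ofReal_mul]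
      rw [h5]
      rcases le_total 0 z.re with h | h
      · rw [max_eq_right h]
        nlinarith [ht.1, ht.2]
      · rw [max_eq_left h]
        nlinarith [ht.1, ht.2])
  simpa using h1

private theorem BASE_small (u : ℝ) (hu : 0 ≤ u) : 2 / 5 * min 2 u ≤ 1 - Real.exp (-u) := by
  have e2 : Real.exp (-2) ≤ 1 / 5 := by
    rw [Real.exp_neg]
    have h1 := Real.exp_one_gt_d9
    have h2 : Real.exp 2 = Real.exp 1 * Real.exp 1 := by
      rw [← Real.exp_add]
      norm_num
    have h3 : 5 ≤ Real.exp 2 := by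
      rw [h2]
      nlinarith
    rw [inv_eq_one_div]
    exact one_div_le_one_div_of_le (by norm_num) h3
  rcases le_total u 2 with h | h
  · rw [min_eq_right h]
    have hc := convexOn_exp.2 (Set.mem_univ (0 : ℝ)) (Set.mem_univ (-2 : ℝ))
      (show (0 : ℝ) ≤ 1 - u / 2 by linarith) (show (0 : ℝ) ≤ u / 2 by linarith) (by ring)
    simp only [smul_eq_mul, mul_zero, zero_add, Real.exp_zero, mul_one] at hc
    have h4 : u / 2 * (-2) = -u := by ring
    rw [h4] at hc
    nlinarith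
  · rw [min_eq_left h]
    have h5 : Real.exp (-u) ≤ Real.exp (-2) := Real.exp_le_exp.2 (by linarith)
    linarith

private theorem BASE_norm (ℓ : ℂ) (h0 : 0 ≤ ℓ.im) (h1 : ℓ.im ≤ ℓ.re) : ‖ℓ‖ ≤ 3 / 2 * ℓ.re := by
  have h2 : ‖ℓ‖ ^ 2 = ℓ.re ^ 2 + ℓ.im ^ 2 := by
    rw [Complex.sq_norm, Complex.normSq_apply]
    ring
  have h3 : 0 ≤ ‖ℓ‖ := norm_nonneg _
  by_contra h
  push Not at h
  nlinarith

private theorem BASE_lm (ℓ : ℂ) (h : ‖ℓ‖ ≤ 3 / 100) : ‖lm ℓ - ℓ‖ ≤ 1 / 10 * ‖ℓ‖ := by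
  have h0 : ‖ℓ / 2‖ = ‖ℓ‖ / 2 := by
    rw [norm_div]
    norm_num
  have h0' : ‖-ℓ / 2‖ = ‖ℓ‖ / 2 := by
    rw [norm_div, norm_neg]
    norm_num
  have h1 : ‖Complex.exp (ℓ / 2) - 1 - ℓ / 2‖ ≤ ‖ℓ / 2‖ ^ 2 :=
    Complex.norm_exp_sub_one_sub_id_le (by rw [h0]; linarith)
  have h2 : ‖Complex.exp (-ℓ / 2) - 1 - -ℓ / 2‖ ≤ ‖-ℓ / 2‖ ^ 2 :=
    Complex.norm_exp_sub_one_sub_id_le (by rw [h0']; linarith)
  have h3 : lm ℓ - ℓ = (Complex.exp (ℓ / 2) - 1 - ℓ / 2) -
      (Complex.exp (-ℓ / 2) - 1 - -ℓ / 2) := by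
    unfold lm
    ring
  rw [h3]
  refine (norm_sub_le _ _).trans ?_
  rw [h0] at h1
  rw [h0'] at h2
  nlinarith [norm_nonneg ℓ]

theorem thm_Base : St_Base := by
  intro N hN τ h0 h2 ℓ hℓ
  have hR : 0 < 2 / N := by positivity
  have hR' : 2 / N ≤ 1 / 50 := by
    rw [div_le_div_iff₀ (by linarith) (by norm_num)]
    linarith
  have hre : ℓ.re = 2 / N * min τ 1 := by
    rw [hℓ]
    unfold pth
    simp
  have him : ℓ.im = 2 / N * min τ (2 - τ) := by
    rw [hℓ]
    unfold pth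
    simp
  have a1 : 0 ≤ ℓ.im := by
    rw [him]
    exact mul_nonneg hR.le (le_min h0 (by linarith))
  have a2 : ℓ.im ≤ ℓ.re := by
    rw [him, hre]
    refine mul_le_mul_of_nonneg_left ?_ hR.le
    refine le_min (min_le_left _ _) ?_
    rcases le_total τ 1 with h | h
    · exact (min_le_left _ _).trans h
    · exact (min_le_right _ _).trans (by linarith)
  have a3 : ℓ.re ≤ 2 / N := by
    rw [hre]
    nlinarith [min_le_right τ 1]
  have a0 : 0 ≤ ℓ.re := a1.trans a2
  have a4 : ‖ℓ‖ ≤ 3 / 2 * ℓ.re := BASE_norm ℓ a1 a2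
  have a5 := BASE_lm ℓ (by nlinarith)
  have a6 : 9 / 10 * ‖ℓ‖ ≤ ‖lm ℓ‖ ∧ ‖lm ℓ‖ ≤ 11 / 10 * ‖ℓ‖ := by
    constructor
    · have h3 := norm_sub_norm_le ℓ (lm ℓ)
      rw [norm_sub_rev] at h3
      linarith
    · have h3 := norm_sub_norm_le (lm ℓ) ℓ
      linarith
  refine ⟨⟨a1, a2, a3⟩, fun h => ?_, fun h => ?_, fun h => ?_, a6, a4, fun n => ?_⟩
  · rw [hre]
    exact mul_pos hR (lt_min h one_pos)
  · apply Complex.ext
    · rw [hre, h]
      simp
    · rw [him, h]
      simp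
  · have h3 : τ < 1 := by
      by_contra h3
      push Not at h3
      rw [hre, min_eq_right h3, mul_one] at h
      exact lt_irrefl _ h
    rw [hre, him, min_eq_left (by linarith), min_eq_left h3.le]
  · have b1 : hat n ℓ * lm ℓ = Complex.exp (n * ℓ) - 1 := by
      unfold hat
      by_cases h : ℓ = 0
      · rw [if_pos h, h]
        unfold lm
        simp
      · rw [if_neg h]
        have h3 : lm ℓ ≠ 0 := by
          intro h3
          rw [h3, norm_zero] at a6
          have h4 : 0 < ‖ℓ‖ := norm_pos_iff.2 h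
          linarith [a6.1]
        exact div_mul_cancel₀ _ h3
    have b2 : ((n : ℂ) * ℓ).re = n * ℓ.re := by
      have h3 : ((n : ℂ) * ℓ) = ((n : ℝ) : ℂ) * ℓ := by push_cast; rfl
      rw [h3, Complex.re_ofReal_mul]
    have b3 : ‖Complex.exp (n * ℓ)‖ = Real.exp (n * ℓ.re) := by
      rw [Complex.norm_exp, b2]
    have b4 : max 0 ((n : ℝ) * ℓ.re) = max 0 (n : ℝ) * ℓ.re := by
      rcases le_total 0 (n : ℝ) with h | h
      · rw [max_eq_right h, max_eq_right (mul_nonneg h a0)]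
      · rw [max_eq_left h, max_eq_left (mul_nonpos_of_nonpos_of_nonneg h a0), zero_mul]
    refine ⟨b1, ?_, b3, ?_, ?_, ?_⟩
    · rw [mul_comm, b1]
      ring
    · have h3 := BASE_exp (n * ℓ)
      rw [b2, b4, norm_mul, Complex.norm_intCast] at h3
      exact h3
    · refine (norm_sub_le _ _).trans ?_
      rw [b3, norm_one]
      have h3 : Real.exp (n * ℓ.re) ≤ Real.exp (max 0 (n : ℝ) * ℓ.re) := by
        rw [← b4]
        exact Real.exp_le_exp.2 (le_max_right _ _)
      have h4 : 1 ≤ Real.exp (max 0 (n : ℝ) * ℓ.re) := by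
        rw [← b4]
        exact Real.one_le_exp (le_max_left _ _)
      linarith
    · have h3 : |Real.exp (n * ℓ.re) - 1| ≤ ‖Complex.exp (n * ℓ) - 1‖ := by
        have h4 := abs_norm_sub_norm_le (Complex.exp (n * ℓ)) 1
        rw [b3, norm_one] at h4
        exact h4
      refine le_trans ?_ h3
      rcases le_total 0 (n : ℝ) with h | h
      · have hu : 0 ≤ (n : ℝ) * ℓ.re := mul_nonneg h a0
        rw [abs_of_nonneg h, max_eq_right h, abs_of_nonneg (by
          linarith [Real.one_le_exp hu])]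
        have h5 := BASE_small _ hu
        have h6 : Real.exp (-(n * ℓ.re)) * Real.exp (n * ℓ.re) = 1 := by
          rw [← Real.exp_add]
          simp
        have h7 : 0 < Real.exp (n * ℓ.re) := Real.exp_pos _
        have h8 := mul_le_mul_of_nonneg_right h5 h7.le
        rw [sub_mul, one_mul, h6] at h8
        exact h8
      · have hu : 0 ≤ -(n : ℝ) * ℓ.re := mul_nonneg (by linarith) a0
        rw [abs_of_nonpos h, max_eq_left h, zero_mul, Real.exp_zero, mul_one]
        have h5 := BASE_small _ hu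
        rw [neg_mul, neg_neg] at h5
        rw [neg_mul]
        refine h5.trans ?_
        rw [abs_sub_comm]
        exact le_abs_self _

end Pool.Agent.FB.U7
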