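import Pool.Agent.FB.U7.Defs

/-!
# FB/U7, module CONT: continuity along the path, reality at real points (helper21)
-/

set_option autoImplicit false

open Matrix LaurentPolynomial Pool.RU Pool.Agent.FB.U5 Pool.Agent.FB.U6

namespace Pool.Agent.FB.U7

/-! ### `lm` and `hat` -/

private theorem CONT_lm_cont : Continuous lm := by
  unfold lm
  fun_prop

private theorem CONT_lm_ne {ℓ : ℂ} (h0 : ℓ ≠ 0) (h : ‖ℓ‖ < 1) : lm ℓ ≠ 0 := by
  intro h1
  have h2 : Complex.exp (ℓ / 2) = Complex.exp (-ℓ / 2) := sub_eq_zero.mp h1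
  have h3 : Complex.exp ℓ = 1 := by
    have h4 : ℓ = ℓ / 2 - (-ℓ / 2) := by ring
    rw [h4, Complex.exp_sub, h2, div_self (Complex.exp_ne_zero _)]
  obtain ⟨n, hn⟩ := Complex.exp_eq_one_iff.mp h3
  have hn0 : n ≠ 0 := by
    rintro rfl
    exact h0 (by simpa using hn)
  have h5 : ‖ℓ‖ = |(n : ℝ)| * (2 * Real.pi) := by
    rw [hn, norm_mul, norm_mul, norm_mul, Complex.norm_I, mul_one, Complex.norm_intCast,
      Complex.norm_real, Real.norm_of_nonneg Real.pi_pos.le]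
    norm_num
  have h6 : (1 : ℝ) ≤ |(n : ℝ)| := by
    have : (1 : ℤ) ≤ |n| := Int.one_le_abs hn0
    exact_mod_cast this
  have h7 : (1 : ℝ) * (2 * 3) ≤ |(n : ℝ)| * (2 * Real.pi) :=
    mul_le_mul h6 (by linarith [Real.pi_gt_three]) (by norm_num) (abs_nonneg _)
  linarith

private theorem CONT_deriv_lm : HasDerivAt lm 1 0 := by
  have h1 : HasDerivAt (fun ℓ : ℂ => Complex.exp (ℓ / 2)) (Complex.exp (0 / 2) * (1 / 2)) 0 :=
    ((hasDerivAt_id (0 : ℂ)).div_const 2).cexp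
  have h2 : HasDerivAt (fun ℓ : ℂ => Complex.exp (-ℓ / 2)) (Complex.exp (-0 / 2) * (-1 / 2)) 0 :=
    ((hasDerivAt_id (0 : ℂ)).neg.div_const 2).cexp
  have h3 := h1.sub h2
  have h4 : Complex.exp (0 / 2) * (1 / 2) - Complex.exp (-0 / 2) * (-1 / 2) = 1 := by
    simp
    norm_num
  rw [h4] at h3
  exact h3

private theorem CONT_deriv_e (n : ℤ) :
    HasDerivAt (fun ℓ : ℂ => Complex.exp (n * ℓ) - 1) n 0 := by
  have h1 : HasDerivAt (fun ℓ : ℂ => Complex.exp (n * ℓ)) (Complex.exp (n * 0) * (n * 1)) 0 :=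
    ((hasDerivAt_id (0 : ℂ)).const_mul (n : ℂ)).cexp
  have h2 := h1.sub_const 1
  simpa using h2

private theorem CONT_hat (n : ℤ) (ℓ : ℂ) :
    hat n ℓ = dslope (fun ℓ : ℂ => Complex.exp (n * ℓ) - 1) 0 ℓ / dslope lm 0 ℓ := by
  unfold hat
  by_cases h : ℓ = 0
  · subst h
    rw [if_pos rfl, dslope_same, dslope_same, CONT_deriv_lm.deriv, (CONT_deriv_e n).deriv, div_one]
  · rw [if_neg h, dslope_of_ne _ h, dslope_of_ne _ h, slope_def_field, slope_def_field]
    have h1 : lm 0 = 0 := by simp [lm]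
    rw [h1]
    simp only [mul_zero, Complex.exp_zero, sub_self, sub_zero]
    rw [div_div_div_cancel_right₀ h]

private theorem CONT_hat_cont (n : ℤ) : ContinuousOn (hat n) (Metric.ball 0 1) := by
  have h1 : hat n = fun ℓ => dslope (fun ℓ : ℂ => Complex.exp (n * ℓ) - 1) 0 ℓ / dslope lm 0 ℓ :=
    funext (CONT_hat n)
  rw [h1]
  have hb : Metric.ball (0 : ℂ) 1 ∈ nhds (0 : ℂ) := Metric.ball_mem_nhds 0 one_pos
  refine ContinuousOn.div ?_ ?_ ?_
  · rw [continuousOn_dslope hb]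
    exact ⟨by fun_prop, (CONT_deriv_e n).differentiableAt⟩
  · rw [continuousOn_dslope hb]
    exact ⟨CONT_lm_cont.continuousOn, CONT_deriv_lm.differentiableAt⟩
  · intro ℓ hℓ
    by_cases h : ℓ = 0
    · subst h
      rw [dslope_same, CONT_deriv_lm.deriv]
      exact one_ne_zero
    · rw [dslope_of_ne _ h, slope_def_field]
      have h2 : lm 0 = 0 := by simp [lm]
      rw [h2, sub_zero, sub_zero]
      exact div_ne_zero (CONT_lm_ne h (by simpa using hℓ)) h

private theorem CONT_pth_cont (R : ℝ) : Continuous (pth R) := by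
  unfold pth
  fun_prop

private theorem CONT_pth_norm {R t : ℝ} (hR : 0 ≤ R) (h0 : 0 ≤ t) (h2 : t ≤ 2) :
    ‖pth R t‖ ≤ 2 * R := by
  have h3 : 0 ≤ min t 1 := le_min h0 zero_le_one
  have h4 : min t 1 ≤ 1 := min_le_right _ _
  have h5 : 0 ≤ min t (2 - t) := le_min h0 (by linarith)
  have h6 : min t (2 - t) ≤ 1 := by
    rcases le_total t 1 with h | h
    · exact (min_le_left _ _).trans h
    · exact (min_le_right _ _).trans (by linarith)
  unfold pth
  refine (norm_add_le _ _).trans ?_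
  rw [norm_mul, Complex.norm_I, mul_one, Complex.norm_real, Complex.norm_real,
    Real.norm_of_nonneg (mul_nonneg hR h3), Real.norm_of_nonneg (mul_nonneg hR h5)]
  nlinarith

/-! ### reality -/

private noncomputable abbrev RK : Subfield ℂ := Complex.ofRealHom.fieldRange

private theorem mem_RK {z : ℂ} : z ∈ RK ↔ z.im = 0 := by
  constructor
  · rintro ⟨r, rfl⟩
    exact Complex.ofReal_im r
  · intro h
    exact ⟨z.re, Complex.ext rfl (by simpa using h.symm)⟩

private theorem RK_exp {z : ℂ} (h : z ∈ RK) : Complex.exp z ∈ RK := by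
  obtain ⟨r, rfl⟩ := h
  refine mem_RK.mpr ?_
  exact Complex.exp_ofReal_im r

private theorem RK_all (l : ℂ) (hl : l ∈ RK) (L : List (ℂ × ℂ × ℂ))
    (hL : ∀ s ∈ L, s.1 ∈ RK ∧ s.2.1 ∈ RK ∧ s.2.2 ∈ RK) :
    (orb l L).1 ∈ RK ∧ (orb l L).2 ∈ RK ∧ orb2 l L ∈ RK ∧ (∀ i j, DD l L i j ∈ RK) ∧
      (row l L).1 ∈ RK ∧ (row l L).2 ∈ RK ∧ dd2 l L ∈ RK ∧ row2 l L ∈ RK := by
  induction L with
  | nil =>
    refine ⟨RK.zero_mem, RK.zero_mem, RK.zero_mem, fun i j => ?_, RK.zero_mem, RK.zero_mem,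
      RK.one_mem, RK.zero_mem⟩
    show (1 : Matrix (Fin 2) (Fin 2) ℂ) i j ∈ RK
    rw [Matrix.one_apply]
    split_ifs
    · exact RK.one_mem
    · exact RK.zero_mem
  | cons s L ih =>
    obtain ⟨h1, h2, h3⟩ := hL s List.mem_cons_self
    obtain ⟨i1, i2, i3, i4, i5, i6, i7, i8⟩ := ih fun t ht => hL t (List.mem_cons_of_mem _ ht)
    have h4 : U l s ∈ RK := RK.add_mem (RK.add_mem h1 h2) (RK.mul_mem (RK.mul_mem hl h1) h2)
    have e1 : 1 + l * s.1 ∈ RK := RK.add_mem RK.one_mem (RK.mul_mem hl h1)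
    have e2 : 1 + l * s.2.1 ∈ RK := RK.add_mem RK.one_mem (RK.mul_mem hl h2)
    have e3 : 1 + l * U l s ∈ RK := RK.add_mem RK.one_mem (RK.mul_mem hl h4)
    have e4 : 1 / s.2.2 ∈ RK := RK.div_mem RK.one_mem h3
    have h5 : nu l s (orb l L) ∈ RK := RK.add_mem (RK.add_mem (RK.sub_mem (RK.sub_mem
      (RK.add_mem h1 h2) e4) hl) (RK.mul_mem e1 i1)) (RK.mul_mem e2 i2)
    have h6 : nu2 l s (orb2 l L) ∈ RK := RK.add_mem (RK.sub_mem (RK.sub_mem h4 e4) hl)
      (RK.mul_mem e3 i3)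
    have h7 : (st l s (orb l L)).1 ∈ RK := RK.div_mem
      (RK.neg_mem (RK.add_mem h1 (RK.mul_mem e1 i1))) (RK.mul_mem h3 h5)
    have h8 : (st l s (orb l L)).2 ∈ RK := RK.div_mem
      (RK.neg_mem (RK.add_mem h2 (RK.mul_mem e2 i2))) (RK.mul_mem h3 h5)
    have h9 : st2 l s (orb2 l L) ∈ RK := RK.div_mem
      (RK.neg_mem (RK.add_mem h4 (RK.mul_mem e3 i3))) (RK.mul_mem h3 h6)
    have h10 : ∀ i j, Dn l s (orb l L) i j ∈ RK := by
      intro i j
      fin_cases i <;> fin_cases j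
      · exact RK.div_mem (RK.neg_mem (RK.mul_mem e1 (RK.add_mem e4 h7))) h5
      · exact RK.div_mem (RK.neg_mem (RK.mul_mem e2 h7)) h5
      · exact RK.div_mem (RK.neg_mem (RK.mul_mem e1 h8)) h5
      · exact RK.div_mem (RK.neg_mem (RK.mul_mem e2 (RK.add_mem e4 h8))) h5
    refine ⟨h7, h8, h9, fun i j => ?_, ?_, ?_, ?_, ?_⟩
    · show (Dn l s (orb l L) * DD l L) i j ∈ RK
      rw [Matrix.mul_apply]
      exact RK.sum_mem fun k _ => RK.mul_mem (h10 i k) (i4 k j)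
    · exact RK.add_mem i5 (RK.div_mem (RK.add_mem (RK.mul_mem e1 (i4 0 0))
        (RK.mul_mem e2 (i4 1 0))) h5)
    · exact RK.add_mem i6 (RK.div_mem (RK.add_mem (RK.mul_mem e1 (i4 0 1))
        (RK.mul_mem e2 (i4 1 1))) h5)
    · exact RK.mul_mem (RK.div_mem (RK.neg_mem (RK.mul_mem e3 (RK.add_mem e4 h9))) h6) i7
    · exact RK.add_mem i8 (RK.div_mem (RK.mul_mem e3 i7) h6)

/-! ### continuity -/

private theorem CONT_all (l : ℝ → ℂ) (L : List (ℝ → ℂ × ℂ × ℂ)) (S : Set ℝ) (hl : ContinuousOn l S)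
    (hL : ∀ s ∈ L, ContinuousOn s S) (hok : ∀ τ ∈ S, Ok (l τ) (L.map fun s => s τ)) :
    ContinuousOn (fun τ => (orb (l τ) (L.map fun s => s τ)).1) S ∧
    ContinuousOn (fun τ => (orb (l τ) (L.map fun s => s τ)).2) S ∧
    ContinuousOn (fun τ => orb2 (l τ) (L.map fun s => s τ)) S ∧
    (∀ i j, ContinuousOn (fun τ => DD (l τ) (L.map fun s => s τ) i j) S) ∧
    ContinuousOn (fun τ => (row (l τ) (L.map fun s => s τ)).1) S ∧
    ContinuousOn (fun τ => (row (l τ) (L.map fun s => s τ)).2) S ∧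
    ContinuousOn (fun τ => dd2 (l τ) (L.map fun s => s τ)) S ∧
    ContinuousOn (fun τ => row2 (l τ) (L.map fun s => s τ)) S := by
  induction L with
  | nil =>
    exact ⟨continuousOn_const, continuousOn_const, continuousOn_const,
      fun i j => continuousOn_const, continuousOn_const, continuousOn_const, continuousOn_const,
      continuousOn_const⟩
  | cons s L ih =>
    have hs := hL s List.mem_cons_self
    have h1 : ContinuousOn (fun τ => (s τ).1) S := continuous_fst.comp_continuousOn hs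
    have h2 : ContinuousOn (fun τ => (s τ).2.1) S :=
      (continuous_fst.comp continuous_snd).comp_continuousOn hs
    have h3 : ContinuousOn (fun τ => (s τ).2.2) S :=
      (continuous_snd.comp continuous_snd).comp_continuousOn hs
    obtain ⟨i1, i2, i3, i4, i5, i6, i7, i8⟩ := ih (fun t ht => hL t (List.mem_cons_of_mem _ ht))
      fun τ hτ => (hok τ hτ).2.2.2
    have n1 : ∀ τ ∈ S, (s τ).2.2 ≠ 0 := fun τ hτ => (hok τ hτ).1
    have n2 : ∀ τ ∈ S, nu (l τ) (s τ) (orb (l τ) (L.map fun s => s τ)) ≠ 0 :=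
      fun τ hτ => (hok τ hτ).2.1
    have n3 : ∀ τ ∈ S, nu2 (l τ) (s τ) (orb2 (l τ) (L.map fun s => s τ)) ≠ 0 :=
      fun τ hτ => (hok τ hτ).2.2.1
    have h4 : ContinuousOn (fun τ => U (l τ) (s τ)) S := (h1.add h2).add ((hl.mul h1).mul h2)
    have e1 : ContinuousOn (fun τ => 1 + l τ * (s τ).1) S := continuousOn_const.add (hl.mul h1)
    have e2 : ContinuousOn (fun τ => 1 + l τ * (s τ).2.1) S := continuousOn_const.add (hl.mul h2)
    have e3 : ContinuousOn (fun τ => 1 + l τ * U (l τ) (s τ)) S :=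
      continuousOn_const.add (hl.mul h4)
    have e4 : ContinuousOn (fun τ => 1 / (s τ).2.2) S := continuousOn_const.div h3 n1
    have h5 : ContinuousOn (fun τ => nu (l τ) (s τ) (orb (l τ) (L.map fun s => s τ))) S :=
      ((((h1.add h2).sub e4).sub hl).add (e1.mul i1)).add (e2.mul i2)
    have h6 : ContinuousOn (fun τ => nu2 (l τ) (s τ) (orb2 (l τ) (L.map fun s => s τ))) S :=
      ((h4.sub e4).sub hl).add (e3.mul i3)
    have h7 : ContinuousOn (fun τ => (st (l τ) (s τ) (orb (l τ) (L.map fun s => s τ))).1) S :=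
      (h1.add (e1.mul i1)).neg.div (h3.mul h5) fun τ hτ => mul_ne_zero (n1 τ hτ) (n2 τ hτ)
    have h8 : ContinuousOn (fun τ => (st (l τ) (s τ) (orb (l τ) (L.map fun s => s τ))).2) S :=
      (h2.add (e2.mul i2)).neg.div (h3.mul h5) fun τ hτ => mul_ne_zero (n1 τ hτ) (n2 τ hτ)
    have h9 : ContinuousOn (fun τ => st2 (l τ) (s τ) (orb2 (l τ) (L.map fun s => s τ))) S :=
      (h4.add (e3.mul i3)).neg.div (h3.mul h6) fun τ hτ => mul_ne_zero (n1 τ hτ) (n3 τ hτ)
    have h10 : ∀ i j, ContinuousOn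
        (fun τ => Dn (l τ) (s τ) (orb (l τ) (L.map fun s => s τ)) i j) S := by
      intro i j
      fin_cases i <;> fin_cases j
      · exact (e1.mul (e4.add h7)).neg.div h5 n2
      · exact (e2.mul h7).neg.div h5 n2
      · exact (e1.mul h8).neg.div h5 n2
      · exact (e2.mul (e4.add h8)).neg.div h5 n2
    refine ⟨h7, h8, h9, fun i j => ?_, ?_, ?_, ?_, ?_⟩
    · have h11 : (fun τ => DD (l τ) ((s :: L).map fun s => s τ) i j) = fun τ =>
          Dn (l τ) (s τ) (orb (l τ) (L.map fun s => s τ)) i 0 * DD (l τ) (L.map fun s => s τ) 0 j +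
          Dn (l τ) (s τ) (orb (l τ) (L.map fun s => s τ)) i 1 * DD (l τ) (L.map fun s => s τ) 1 j := by
        funext τ
        show (Dn (l τ) (s τ) (orb (l τ) (L.map fun s => s τ)) *
          DD (l τ) (L.map fun s => s τ)) i j = _
        rw [Matrix.mul_apply, Fin.sum_univ_two]
      rw [h11]
      exact ((h10 i 0).mul (i4 0 j)).add ((h10 i 1).mul (i4 1 j))
    · exact i5.add (((e1.mul (i4 0 0)).add (e2.mul (i4 1 0))).div h5 n2)
    · exact i6.add (((e1.mul (i4 0 1)).add (e2.mul (i4 1 1))).div h5 n2)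
    · exact ((e3.mul (e4.add h9)).neg.div h6 n3).mul i7
    · exact i8.add ((e3.mul i7).div h6 n3)

theorem thm_Cont : St_Cont := by
  refine ⟨⟨10, by norm_num, fun N hN => ⟨?_, fun n => ?_⟩⟩, ?_, ?_, ?_⟩
  · exact (CONT_lm_cont.comp (CONT_pth_cont _)).continuousOn
  · refine (CONT_hat_cont n).comp (CONT_pth_cont _).continuousOn fun τ hτ => ?_
    have hR : (0 : ℝ) ≤ 2 / N := div_nonneg (by norm_num) (by linarith)
    have h1 := CONT_pth_norm hR hτ.1 hτ.2
    have h2 : 2 * (2 / N) ≤ 2 / 5 := by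
      rw [mul_div_assoc', div_le_div_iff₀ (by linarith) (by norm_num)]
      linarith
    rw [mem_ball_zero_iff]
    linarith
  · intro l L S hl hL hok
    obtain ⟨i1, i2, i3, i4, i5, i6, i7, i8⟩ := CONT_all l L S hl hL hok
    refine ⟨i1.prodMk i2, i3, ?_, ?_⟩
    · have h1 : (fun τ => rho3 (l τ) (L.map fun s => s τ)) = fun τ =>
          (row (l τ) (L.map fun s => s τ)).1 * (orb (l τ) (L.map fun s => s τ)).1 +
          (row (l τ) (L.map fun s => s τ)).2 * (orb (l τ) (L.map fun s => s τ)).2 +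
          (DD (l τ) (L.map fun s => s τ) 0 0 + DD (l τ) (L.map fun s => s τ) 1 1) := by
        funext τ
        unfold rho3
        rw [Matrix.trace_fin_two]
      rw [h1]
      exact ((i5.mul i1).add (i6.mul i2)).add ((i4 0 0).add (i4 1 1))
    · exact (i8.mul i3).add i7
  · intro l L hl hL
    obtain ⟨i1, i2, i3, i4, i5, i6, i7, i8⟩ := RK_all l (mem_RK.mpr hl) L fun s hs =>
      ⟨mem_RK.mpr (hL s hs).1, mem_RK.mpr (hL s hs).2.1, mem_RK.mpr (hL s hs).2.2⟩
    refine ⟨mem_RK.mp i1, mem_RK.mp i2, mem_RK.mp i3, mem_RK.mp ?_, mem_RK.mp ?_⟩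
    · unfold rho3
      rw [Matrix.trace_fin_two]
      exact RK.add_mem (RK.add_mem (RK.mul_mem i5 i1) (RK.mul_mem i6 i2))
        (RK.add_mem (i4 0 0) (i4 1 1))
    · exact RK.add_mem (RK.mul_mem i8 i3) i7
  · intro ℓ hℓ
    have h1 : ℓ ∈ RK := mem_RK.mpr hℓ
    have h2 : (2 : ℂ) ∈ RK := mem_RK.mpr (by simp)
    have h3 : lm ℓ ∈ RK := RK.sub_mem (RK_exp (RK.div_mem h1 h2))
      (RK_exp (RK.div_mem (RK.neg_mem h1) h2))
    refine ⟨mem_RK.mp h3, fun n => mem_RK.mp ?_⟩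
    unfold hat
    have h4 : (n : ℂ) ∈ RK := mem_RK.mpr (by simp)
    split_ifs
    · exact h4
    · exact RK.div_mem (RK.sub_mem (RK_exp (RK.mul_mem h4 h1)) RK.one_mem) h3

end Pool.Agent.FB.U7
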