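import Mathlib
import Pool.Agent.FB.U6.Defs

/-!
# FB/U7: closed 4-braids, all sign patterns: definitions and statements of the modules

`q = exp ℓ`, `lm ℓ = exp (ℓ/2) - exp (-ℓ/2)`, `Q = - (lm ℓ) ^ 2 = 2 - q - q⁻¹`,
`hat n ℓ = (q ^ n - 1) / lm ℓ`.  A block is `s = (A, C, B) = (hat a ℓ, hat c ℓ, hat b ℓ)`; the weights of
`σ₁^a`, `σ₃^c`, `σ₂^b` are `1 + lm ℓ * A`, `1 + lm ℓ * C`, `1 + lm ℓ * B`.  Everything is continuous at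
`ℓ = 0`.  The traces `T3`, `T2` are followed along the path `pth` from `ℓ = 0` to a real point: their
quotient makes as many half turns as there are blocks with `a c < 0`, `a + c < 0`.
-/

set_option autoImplicit false

open Matrix LaurentPolynomial Pool.RU Pool.Agent.FB.U5 Pool.Agent.FB.U6

namespace Pool.Agent.FB.U7

/-! ### the scaled blocks -/

/-- the weight of `σ₁^a σ₃^c` in the scaled form -/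
noncomputable def U (l : ℂ) (s : ℂ × ℂ × ℂ) : ℂ := s.1 + s.2.1 + l * s.1 * s.2.1

/-- the block `T3` in the basis `𝟙, l e₁, l e₂` -/
noncomputable def M3 (l : ℂ) (s : ℂ × ℂ × ℂ) : Matrix (Fin 3) (Fin 3) ℂ :=
  !![1 + l * s.2.2 - s.2.2 * (s.1 + s.2.1), -(s.2.2 * (1 + l * s.1)), -(s.2.2 * (1 + l * s.2.1));
    s.1, 1 + l * s.1, 0; s.2.1, 0, 1 + l * s.2.1]

/-- the block `T2` in the basis `𝟙, l e₁` -/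
noncomputable def M2 (l : ℂ) (s : ℂ × ℂ × ℂ) : Matrix (Fin 2) (Fin 2) ℂ :=
  !![1 + l * s.2.2 - s.2.2 * U l s, -(s.2.2 * (1 + l * U l s)); U l s, 1 + l * U l s]

/-- the growth factor of a block is `- s.2.2 * nu` -/
noncomputable def nu (l : ℂ) (s : ℂ × ℂ × ℂ) (p : ℂ × ℂ) : ℂ :=
  s.1 + s.2.1 - 1 / s.2.2 - l + (1 + l * s.1) * p.1 + (1 + l * s.2.1) * p.2

/-- the new state -/
noncomputable def st (l : ℂ) (s : ℂ × ℂ × ℂ) (p : ℂ × ℂ) : ℂ × ℂ :=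
  (-(s.1 + (1 + l * s.1) * p.1) / (s.2.2 * nu l s p),
    -(s.2.1 + (1 + l * s.2.1) * p.2) / (s.2.2 * nu l s p))

/-- the matrix of the other two directions -/
noncomputable def Dn (l : ℂ) (s : ℂ × ℂ × ℂ) (p : ℂ × ℂ) : Matrix (Fin 2) (Fin 2) ℂ :=
  !![-((1 + l * s.1) * (1 / s.2.2 + (st l s p).1)) / nu l s p,
      -((1 + l * s.2.1) * (st l s p).1) / nu l s p;
    -((1 + l * s.1) * (st l s p).2) / nu l s p,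
      -((1 + l * s.2.1) * (1 / s.2.2 + (st l s p).2)) / nu l s p]

/-- the state after a list of blocks (the last block acts first), starting at `0` -/
noncomputable def orb (l : ℂ) (L : List (ℂ × ℂ × ℂ)) : ℂ × ℂ := L.foldr (st l) 0

/-- the growth factor of a list -/
noncomputable def lam (l : ℂ) : List (ℂ × ℂ × ℂ) → ℂ
  | [] => 1
  | s :: L => -(s.2.2 * nu l s (orb l L)) * lam l L

/-- the other two directions of a list -/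
noncomputable def DD (l : ℂ) : List (ℂ × ℂ × ℂ) → Matrix (Fin 2) (Fin 2) ℂ
  | [] => 1
  | s :: L => Dn l s (orb l L) * DD l L

/-- the row of a list -/
noncomputable def row (l : ℂ) : List (ℂ × ℂ × ℂ) → ℂ × ℂ
  | [] => 0
  | s :: L => ((row l L).1 + ((1 + l * s.1) * DD l L 0 0 + (1 + l * s.2.1) * DD l L 1 0) /
        nu l s (orb l L),
      (row l L).2 + ((1 + l * s.1) * DD l L 0 1 + (1 + l * s.2.1) * DD l L 1 1) / nu l s (orb l L))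

/-- the relative error of `lam` -/
noncomputable def rho3 (l : ℂ) (L : List (ℂ × ℂ × ℂ)) : ℂ :=
  (row l L).1 * (orb l L).1 + (row l L).2 * (orb l L).2 + (DD l L).trace

/-- the growth factor of `M2` is `- s.2.2 * nu2` -/
noncomputable def nu2 (l : ℂ) (s : ℂ × ℂ × ℂ) (g : ℂ) : ℂ :=
  U l s - 1 / s.2.2 - l + (1 + l * U l s) * g

/-- the new state of `M2` -/
noncomputable def st2 (l : ℂ) (s : ℂ × ℂ × ℂ) (g : ℂ) : ℂ :=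
  -(U l s + (1 + l * U l s) * g) / (s.2.2 * nu2 l s g)

/-- the factor of the other direction of `M2` -/
noncomputable def dn2 (l : ℂ) (s : ℂ × ℂ × ℂ) (g : ℂ) : ℂ :=
  -((1 + l * U l s) * (1 / s.2.2 + st2 l s g)) / nu2 l s g

/-- the state of `M2` after a list of blocks, starting at `0` -/
noncomputable def orb2 (l : ℂ) (L : List (ℂ × ℂ × ℂ)) : ℂ := L.foldr (st2 l) 0

/-- the growth factor of a list -/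
noncomputable def lam2 (l : ℂ) : List (ℂ × ℂ × ℂ) → ℂ
  | [] => 1
  | s :: L => -(s.2.2 * nu2 l s (orb2 l L)) * lam2 l L

/-- the other direction of a list -/
noncomputable def dd2 (l : ℂ) : List (ℂ × ℂ × ℂ) → ℂ
  | [] => 1
  | s :: L => dn2 l s (orb2 l L) * dd2 l L

/-- the row of a list -/
noncomputable def row2 (l : ℂ) : List (ℂ × ℂ × ℂ) → ℂ
  | [] => 0
  | s :: L => row2 l L + (1 + l * U l s) * dd2 l L / nu2 l s (orb2 l L)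

/-- the relative error of `lam2` -/
noncomputable def rho2 (l : ℂ) (L : List (ℂ × ℂ × ℂ)) : ℂ := row2 l L * orb2 l L + dd2 l L

/-- no denominator vanishes along the orbits -/
def Ok (l : ℂ) : List (ℂ × ℂ × ℂ) → Prop
  | [] => True
  | s :: L => s.2.2 ≠ 0 ∧ nu l s (orb l L) ≠ 0 ∧ nu2 l s (orb2 l L) ≠ 0 ∧ Ok l L

/-- **Module U7_ALG**: the traces of the products. -/
def St_Alg : Prop := ∀ (l : ℂ) (L : List (ℂ × ℂ × ℂ)), Ok l L →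
  (L.map (M3 l)).prod.trace = lam l L * (1 + rho3 l L) ∧
    (L.map (M2 l)).prod.trace = lam2 l L * (1 + rho2 l L)

/-- the weights of a scaled block -/
noncomputable def wt (l : ℂ) (s : ℂ × ℂ × ℂ) : ℂ × ℂ × ℂ := (1 + l * s.1, 1 + l * s.2.1, 1 + l * s.2.2)

/-- **Module U7_SIM**: the scaled blocks are conjugate to the blocks of `U5`. -/
def St_Sim : Prop := ∀ (l : ℂ) (L : List (ℂ × ℂ × ℂ)), l ≠ 0 →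
  (L.map (M3 l)).prod.trace = ((L.map (wt l)).map (U5.T3 (-l ^ 2))).prod.trace ∧
    (L.map (M2 l)).prod.trace = ((L.map (wt l)).map (U5.T2 (-l ^ 2))).prod.trace

/-! ### the local estimates -/

/-- a good block -/
structure Ad (η M : ℝ) (l : ℂ) (s : ℂ × ℂ × ℂ) : Prop where
  B : M ≤ ‖s.2.2‖
  D : η * (1 + Real.sqrt ‖l‖ * (‖s.1‖ + ‖s.2.1‖)) ≤ ‖s.1 + s.2.1‖
  U : η ≤ ‖U l s‖

/-- **Module U7_LOC** -/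
def St_Loc : Prop := ∀ η : ℝ, 0 < η → η ≤ 1 → ∃ M₀ : ℝ, 1 ≤ M₀ ∧ ∀ M : ℝ, M₀ ≤ M → ∀ l : ℂ,
  M * ‖l‖ ≤ 1 → ∀ L : List (ℂ × ℂ × ℂ), (∀ s ∈ L, Ad η M l s) →
  Ok l L ∧
  (∀ s L', s :: L' <:+ L → ‖nu l s (orb l L') / (s.1 + s.2.1) - 1‖ ≤ 1 / 4 ∧
    ‖nu2 l s (orb2 l L') / U l s - 1‖ ≤ 1 / 4) ∧
  (L ≠ [] → l ≠ 0 → ‖rho3 l L‖ ≤ 1 / 4) ∧ (L ≠ [] → ‖rho2 l L‖ ≤ 1 / 4)

/-! ### the path -/

/-- `2 sinh (ℓ / 2)` -/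
noncomputable def lm (ℓ : ℂ) : ℂ := Complex.exp (ℓ / 2) - Complex.exp (-ℓ / 2)

/-- `(q ^ n - 1) / lm ℓ`, `q = exp ℓ` -/
noncomputable def hat (n : ℤ) (ℓ : ℂ) : ℂ := if ℓ = 0 then (n : ℂ) else (Complex.exp (n * ℓ) - 1) / lm ℓ

/-- the scaled block of `(a, c, b)` -/
noncomputable def sb (ℓ : ℂ) (t : ℤ × ℤ × ℤ) : ℂ × ℂ × ℂ := (hat t.1 ℓ, hat t.2.1 ℓ, hat t.2.2 ℓ)

/-- the path: `R t (1 + i)` for `t ≤ 1`, then vertically down to the real point `R` for `t = 2` -/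
noncomputable def pth (R t : ℝ) : ℂ := ((R * min t 1 : ℝ) : ℂ) + ((R * min t (2 - t) : ℝ) : ℂ) * Complex.I

/-- an admissible block of integers -/
def AdZ (N : ℝ) (t : ℤ × ℤ × ℤ) : Prop :=
  N ≤ |(t.2.2 : ℝ)| ∧ (t.1 = 0 ∨ N ≤ |(t.1 : ℝ)|) ∧ (t.2.1 = 0 ∨ N ≤ |(t.2.1 : ℝ)|) ∧ t.1 + t.2.1 ≠ 0

/-- **Module U7_EST**: the blocks along the path `pth (2 / N)` are good, and their growth. -/
def St_Est : Prop := ∃ η c N₁ : ℝ, 0 < η ∧ η ≤ 1 ∧ 0 < c ∧ c ≤ 1 ∧ 0 < N₁ ∧ ∀ N : ℝ, N₁ ≤ N →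
  ∀ t : ℤ × ℤ × ℤ, AdZ N t → ∀ τ : ℝ, 0 ≤ τ → τ ≤ 2 → ∀ ℓ : ℂ, ℓ = pth (2 / N) τ →
  (c * N) * ‖lm ℓ‖ ≤ 1 ∧ (0 < τ → lm ℓ ≠ 0) ∧ Ad η (c * N) (lm ℓ) (sb ℓ t) ∧
    U (lm ℓ) (sb ℓ t) = hat (t.1 + t.2.1) ℓ ∧
    c * N * Real.exp (max 0 (t.2.2 : ℝ) * ℓ.re) ≤ ‖(sb ℓ t).2.2‖ ∧
    η * Real.exp (max 0 (max (t.1 : ℝ) (t.2.1 : ℝ)) * ℓ.re) ≤ ‖(sb ℓ t).1 + (sb ℓ t).2.1‖ ∧
    η * Real.exp (max 0 ((t.1 : ℝ) + (t.2.1 : ℝ)) * ℓ.re) ≤ ‖U (lm ℓ) (sb ℓ t)‖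

/-- **Module U7_BASE**: elementary facts on the path (`σ = ℓ.re`). -/
def St_Base : Prop := ∀ N : ℝ, 100 ≤ N → ∀ τ : ℝ, 0 ≤ τ → τ ≤ 2 → ∀ ℓ : ℂ, ℓ = pth (2 / N) τ →
  (0 ≤ ℓ.im ∧ ℓ.im ≤ ℓ.re ∧ ℓ.re ≤ 2 / N) ∧ (0 < τ → 0 < ℓ.re) ∧ (τ = 0 → ℓ = 0) ∧
  (ℓ.re < 2 / N → ℓ.im = ℓ.re) ∧ (9 / 10 * ‖ℓ‖ ≤ ‖lm ℓ‖ ∧ ‖lm ℓ‖ ≤ 11 / 10 * ‖ℓ‖) ∧
  ‖ℓ‖ ≤ 3 / 2 * ℓ.re ∧
  ∀ n : ℤ, hat n ℓ * lm ℓ = Complex.exp (n * ℓ) - 1 ∧ 1 + lm ℓ * hat n ℓ = Complex.exp (n * ℓ) ∧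
    ‖Complex.exp (n * ℓ)‖ = Real.exp (n * ℓ.re) ∧
    ‖Complex.exp (n * ℓ) - 1‖ ≤ |(n : ℝ)| * ‖ℓ‖ * Real.exp (max 0 (n : ℝ) * ℓ.re) ∧
    ‖Complex.exp (n * ℓ) - 1‖ ≤ 2 * Real.exp (max 0 (n : ℝ) * ℓ.re) ∧
    2 / 5 * min 2 (|(n : ℝ)| * ℓ.re) * Real.exp (max 0 (n : ℝ) * ℓ.re) ≤
      ‖Complex.exp (n * ℓ) - 1‖

/-- the two lower bounds for `Δ = hat a + hat c` -/
def DB (η : ℝ) (a c : ℤ) (ℓ : ℂ) : Prop :=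
  η * (1 + Real.sqrt ‖lm ℓ‖ * (‖hat a ℓ‖ + ‖hat c ℓ‖)) ≤ ‖hat a ℓ + hat c ℓ‖ ∧
    η * Real.exp (max 0 (max (a : ℝ) (c : ℝ)) * ℓ.re) ≤ ‖hat a ℓ + hat c ℓ‖

/-- **Module U7_ESTX**: blocks with exponents `a = A > 0`, `c = -C < 0`. -/
def St_EstX : Prop := ∃ η N₁ : ℝ, 0 < η ∧ 100 ≤ N₁ ∧ ∀ N : ℝ, N₁ ≤ N → ∀ A C : ℤ, N ≤ (A : ℝ) →
  N ≤ (C : ℝ) → A ≠ C → ∀ τ : ℝ, 0 ≤ τ → τ ≤ 2 → DB η A (-C) (pth (2 / N) τ)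

/-- **Module U7_ESTP**: blocks with two exponents of the same sign. -/
def St_EstP : Prop := ∃ η N₁ : ℝ, 0 < η ∧ 100 ≤ N₁ ∧ ∀ N : ℝ, N₁ ≤ N → ∀ A C : ℤ, N ≤ (A : ℝ) →
  N ≤ (C : ℝ) → ∀ τ : ℝ, 0 ≤ τ → τ ≤ 2 →
    DB η A C (pth (2 / N) τ) ∧ DB η (-A) (-C) (pth (2 / N) τ)

/-- **Module U7_EST**: assembly of the estimates -/
def St_EstAsm : Prop := St_Base → St_EstX → St_EstP → St_Est

/-! ### the winding number -/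

/-- `f` has no zero on `[0, 2]`; its argument can be followed continuously from `0` to `w`. -/
def HasW (f : ℝ → ℂ) (w : ℝ) : Prop := ContinuousOn f (Set.Icc 0 2) ∧
  ∃ θ : ℝ → ℝ, ContinuousOn θ (Set.Icc 0 2) ∧ θ 0 = 0 ∧ θ 2 = w ∧
    ∀ t ∈ Set.Icc (0 : ℝ) 2, f t ≠ 0 ∧ f t = ‖f t‖ * Complex.exp (θ t * Complex.I)

/-- **Module U7_HASW** -/
structure St_HasW : Prop where
  one : HasW (fun _ => 1) 0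
  mul : ∀ f g w w', HasW f w → HasW g w' → HasW (fun t => f t * g t) (w + w')
  div : ∀ f g w w', HasW f w → HasW g w' → HasW (fun t => f t / g t) (w - w')
  congr : ∀ f g w, HasW f w → (∀ t ∈ Set.Icc (0 : ℝ) 2, f t = g t) → HasW g w
  near : ∀ f : ℝ → ℂ, ContinuousOn f (Set.Icc 0 2) → (∀ t ∈ Set.Icc (0 : ℝ) 2, 0 < (f t).re) →
    (f 0).im = 0 → (f 2).im = 0 → HasW f 0
  concl : ∀ f w, HasW f w → (∀ t ∈ Set.Ioc (0 : ℝ) 2, 0 < (f t).re) → |w| < Real.pi / 2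

open Classical in
/-- the argument of a block -/
noncomputable def wind (t : ℤ × ℤ × ℤ) : ℝ :=
  if t.1 * t.2.1 < 0 ∧ t.1 + t.2.1 < 0 then -Real.pi else 0

/-- **Module U7_ARGX** -/
def St_ArgX : Prop := ∃ N₂ : ℝ, 100 ≤ N₂ ∧ ∀ N : ℝ, N₂ ≤ N → ∀ A C : ℤ, N ≤ (A : ℝ) → N ≤ (C : ℝ) →
  A ≠ C → HasW (fun τ => (hat A (pth (2 / N) τ) + hat (-C) (pth (2 / N) τ)) /
    hat (A - C) (pth (2 / N) τ)) (if A < C then -Real.pi else 0)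

/-- **Module U7_ARGP** -/
def St_ArgP : Prop := ∃ N₂ : ℝ, 100 ≤ N₂ ∧ ∀ N : ℝ, N₂ ≤ N → ∀ A C : ℤ, N ≤ (A : ℝ) → N ≤ (C : ℝ) →
  HasW (fun τ => (hat A (pth (2 / N) τ) + hat C (pth (2 / N) τ)) / hat (A + C) (pth (2 / N) τ)) 0 ∧
  HasW (fun τ => (hat (-A) (pth (2 / N) τ) + hat (-C) (pth (2 / N) τ)) /
    hat (-A - C) (pth (2 / N) τ)) 0

/-- **Module U7_ARG** -/
def St_Arg : Prop := ∃ N₂ : ℝ, 0 < N₂ ∧ ∀ N : ℝ, N₂ ≤ N → ∀ t : ℤ × ℤ × ℤ, AdZ N t →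
  HasW (fun τ => ((sb (pth (2 / N) τ) t).1 + (sb (pth (2 / N) τ) t).2.1) /
    hat (t.1 + t.2.1) (pth (2 / N) τ)) (wind t)

/-- **Module U7_CONT**: everything is continuous along the path and real at real points. -/
def St_Cont : Prop :=
  (∃ N₃ : ℝ, 0 < N₃ ∧ ∀ N : ℝ, N₃ ≤ N → ContinuousOn (fun τ => lm (pth (2 / N) τ)) (Set.Icc 0 2) ∧
    ∀ n : ℤ, ContinuousOn (fun τ => hat n (pth (2 / N) τ)) (Set.Icc 0 2)) ∧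
  (∀ (l : ℝ → ℂ) (L : List (ℝ → ℂ × ℂ × ℂ)) (S : Set ℝ), ContinuousOn l S →
    (∀ s ∈ L, ContinuousOn s S) → (∀ τ ∈ S, Ok (l τ) (L.map fun s => s τ)) →
    ContinuousOn (fun τ => orb (l τ) (L.map fun s => s τ)) S ∧
    ContinuousOn (fun τ => orb2 (l τ) (L.map fun s => s τ)) S ∧
    ContinuousOn (fun τ => rho3 (l τ) (L.map fun s => s τ)) S ∧
    ContinuousOn (fun τ => rho2 (l τ) (L.map fun s => s τ)) S) ∧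
  (∀ (l : ℂ) (L : List (ℂ × ℂ × ℂ)), l.im = 0 →
    (∀ s ∈ L, s.1.im = 0 ∧ s.2.1.im = 0 ∧ s.2.2.im = 0) →
    (orb l L).1.im = 0 ∧ (orb l L).2.im = 0 ∧ (orb2 l L).im = 0 ∧ (rho3 l L).im = 0 ∧
      (rho2 l L).im = 0) ∧
  (∀ ℓ : ℂ, ℓ.im = 0 → (lm ℓ).im = 0 ∧ ∀ n : ℤ, (hat n ℓ).im = 0)

/-- **Module U7_GROW**: the growth of the bracket at infinity -/
def St_Grow : Prop := ∀ β : List (ℤ × ℤ × ℤ), ∃ M : ℝ, ∀ u : ℂ, 16 ≤ ‖u‖ →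
  ‖U5.EE (2 - u - u⁻¹) (β.map (wts u))‖ ≤ M * ‖u‖ ^ (max (top β) (top2 β) + 2)

/-- **Module U7_WIND**: the analytic part: the number of half turns. -/
def St_Wind : Prop := ∃ N₄ c : ℝ, 0 < N₄ ∧ 0 < c ∧ ∀ N : ℝ, N₄ ≤ N →
  ∀ β : List (ℤ × ℤ × ℤ), β ≠ [] → (∀ t ∈ β, AdZ N t) → ∀ S : ℝ, 1 ≤ S → S ≤ (c * N) ^ β.length →
  (∀ u : ℂ, 1 ≤ ‖u‖ → 2 - u - u⁻¹ ≠ 0 → ‖U5.EE (2 - u - u⁻¹) (β.map (wts u))‖ ≤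
    S * ‖u‖ ^ (max (top β) (top2 β) + 2) * Real.sqrt ‖2 - u - u⁻¹‖) →
  ∀ t ∈ β, ¬ (t.1 * t.2.1 < 0 ∧ t.1 + t.2.1 < 0)

/-! ### the theorem -/

/-- `β = σ₂^b₁ σ₁^a₁ σ₃^c₁ ⋯ σ₂^b_m σ₁^a_m σ₃^c_m` with `|b_i| ≥ N`, and `|a_i|`, `|c_i|` at least `N` or
zero, not both zero; `σ₁` and `σ₃` occur; `a_i + c_i ≠ 0` for all `i`, or there is no `i` with
`a_i, c_i > 0`, or no `i` with `a_i, c_i < 0`; and if the closed word is `X Y` with `X` a word in `σ₁, σ₂`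
and `Y` a word in `σ₂, σ₃`, then the exponents of the first syllables `σ₂^b` of `X` and `σ₂^b'` of `Y`
satisfy `N ≤ |b + b'|`. -/
def LongWord5 (N : ℤ) (β : List (ℤ × ℤ × ℤ)) : Prop :=
  (∀ t ∈ β, N ≤ |t.2.2| ∧ (t.1 = 0 ∨ N ≤ |t.1|) ∧ (t.2.1 = 0 ∨ N ≤ |t.2.1|) ∧
    ¬ (t.1 = 0 ∧ t.2.1 = 0)) ∧
  (∃ t ∈ β, t.1 ≠ 0) ∧ (∃ t ∈ β, t.2.1 ≠ 0) ∧
  ((∀ t ∈ β, t.1 + t.2.1 ≠ 0) ∨ (∀ t ∈ β, ¬ (0 < t.1 ∧ 0 < t.2.1)) ∨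
    ∀ t ∈ β, ¬ (t.1 < 0 ∧ t.2.1 < 0)) ∧
  ∀ s t P R, β ~r s :: P ++ t :: R → (∀ u ∈ s :: P, u.2.1 = 0) → (∀ u ∈ t :: R, u.1 = 0) →
    N ≤ |s.2.2 + t.2.2|

/-- **closed 4-braids, all sign patterns** -/
def St_FourBraids5 : Prop := ∃ N₀ : ℕ, 0 < N₀ ∧ ∀ N : ℕ, N₀ ≤ N → ∀ β : List (ℤ × ℤ × ℤ),
  LongWord5 N β → ∀ o, (closure β).IsOrientation o →
    (N : ℤ) ^ β.length ≤ (N₀ : ℤ) ^ β.length * SPT.coeffSum ((closure β).normalized o)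

end Pool.Agent.FB.U7
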