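import Pool.Agent.FB.U7.Defs

/-!
# FB/U7/EASM: assembly of the estimates along the path

(helper17)
-/

set_option autoImplicit false

open Matrix Pool.Agent.FB.U5 Pool.Agent.FB.U6

namespace Pool.Agent.FB.U7

private theorem EA_mono {η η' : ℝ} (h : η' ≤ η) {a c : ℤ} {ℓ : ℂ} (hd : DB η a c ℓ) : DB η' a c ℓ := by
  refine ⟨le_trans (mul_le_mul_of_nonneg_right h ?_) hd.1,
    le_trans (mul_le_mul_of_nonneg_right h (Real.exp_pos _).le) hd.2⟩
  positivity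

private theorem EA_symm {η : ℝ} {a c : ℤ} {ℓ : ℂ} (hd : DB η a c ℓ) : DB η c a ℓ := by
  refine ⟨?_, ?_⟩
  · rw [add_comm ‖hat c ℓ‖, add_comm (hat c ℓ)]
    exact hd.1
  · rw [max_comm (c : ℝ), add_comm (hat c ℓ)]
    exact hd.2

private theorem EA_hat0 (n : ℤ) : hat n 0 = n := by
  rw [hat, if_pos rfl]

private theorem EA_hatz {ℓ : ℂ} : hat 0 ℓ = 0 := by
  unfold hat
  split_ifs <;> simp

/-- lower bound of one exponent -/
private theorem EA_low (hB : St_Base) {N : ℝ} (hN : 100 ≤ N) {τ : ℝ} (h0 : 0 ≤ τ) (h2 : τ ≤ 2)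
    {ℓ : ℂ} (hℓ : ℓ = pth (2 / N) τ) (n : ℤ) :
    8 / 33 * min N |(n : ℝ)| * Real.exp (max 0 (n : ℝ) * ℓ.re) ≤ ‖hat n ℓ‖ := by
  obtain ⟨⟨hi0, hir, hr⟩, hpos, hz, -, ⟨hl1, hl2⟩, hn, hall⟩ := hB N hN τ h0 h2 ℓ hℓ
  obtain ⟨hm, -, -, -, -, hlow⟩ := hall n
  have hNp : 0 < N := by linarith
  rcases eq_or_lt_of_le h0 with h | h
  · have hz' := hz h.symm
    rw [hz', EA_hat0]
    have e : ‖((n : ℤ) : ℂ)‖ = |(n : ℝ)| := by
      rw [Complex.norm_intCast]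
    rw [e]
    simp only [Complex.zero_re, mul_zero, Real.exp_zero, mul_one]
    have h3 : min N |(n : ℝ)| ≤ |(n : ℝ)| := min_le_right _ _
    have h4 := abs_nonneg (n : ℝ)
    linarith
  · have hσ := hpos h
    have hlm : ‖lm ℓ‖ ≤ 33 / 20 * ℓ.re := by linarith
    have h5 : ‖hat n ℓ‖ * ‖lm ℓ‖ = ‖Complex.exp (n * ℓ) - 1‖ := by
      rw [← norm_mul, hm]
    have h6 : ‖hat n ℓ‖ * ‖lm ℓ‖ ≤ ‖hat n ℓ‖ * (33 / 20 * ℓ.re) :=
      mul_le_mul_of_nonneg_left hlm (norm_nonneg _)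
    have h7 : ℓ.re * min N |(n : ℝ)| ≤ min 2 (|(n : ℝ)| * ℓ.re) := by
      refine le_min ?_ ?_
      · have h8 : ℓ.re * N ≤ 2 := by
          rw [le_div_iff₀ hNp] at hr
          exact hr
        exact (mul_le_mul_of_nonneg_left (min_le_left _ _) hσ.le).trans h8
      · rw [mul_comm]
        exact mul_le_mul_of_nonneg_right (min_le_right _ _) hσ.le
    have h9 : 2 / 5 * (ℓ.re * min N |(n : ℝ)|) * Real.exp (max 0 (n : ℝ) * ℓ.re) ≤
        ‖hat n ℓ‖ * (33 / 20 * ℓ.re) := by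
      refine le_trans ?_ (le_trans (le_trans hlow h5.symm.le) h6)
      exact mul_le_mul_of_nonneg_right (mul_le_mul_of_nonneg_left h7 (by norm_num))
        (Real.exp_pos _).le
    have h10 : ℓ.re * (8 / 33 * min N |(n : ℝ)| * Real.exp (max 0 (n : ℝ) * ℓ.re)) ≤
        ℓ.re * ‖hat n ℓ‖ := by
      have : 20 / 33 * (2 / 5 * (ℓ.re * min N |(n : ℝ)|) * Real.exp (max 0 (n : ℝ) * ℓ.re)) ≤
          20 / 33 * (‖hat n ℓ‖ * (33 / 20 * ℓ.re)) :=
        mul_le_mul_of_nonneg_left h9 (by norm_num)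
      linarith
    exact le_of_mul_le_mul_left h10 hσ

/-- a block with one syllable -/
private theorem EA_single (hB : St_Base) {N : ℝ} (hN : 100 ≤ N) {τ : ℝ} (h0 : 0 ≤ τ) (h2 : τ ≤ 2)
    {ℓ : ℂ} (hℓ : ℓ = pth (2 / N) τ) {n : ℤ} (hn : N ≤ |(n : ℝ)|) : DB (1 / 5) n 0 ℓ := by
  have hlow := EA_low hB hN h0 h2 hℓ n
  obtain ⟨⟨hi0, hir, hr⟩, hpos, hz, -, ⟨hl1, hl2⟩, hnr, hall⟩ := hB N hN τ h0 h2 ℓ hℓ
  rw [min_eq_left hn] at hlow
  have hσ : 0 ≤ ℓ.re := hi0.trans hir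
  have hE : 1 ≤ Real.exp (max 0 (n : ℝ) * ℓ.re) :=
    Real.one_le_exp (mul_nonneg (le_max_left _ _) hσ)
  have hA : 1 ≤ ‖hat n ℓ‖ := by nlinarith
  have hls : Real.sqrt ‖lm ℓ‖ ≤ 1 := by
    rw [Real.sqrt_le_one]
    have hN2 : 2 / N ≤ 1 / 50 := by
      rw [div_le_div_iff₀ (by linarith) (by norm_num)]
      linarith
    linarith
  refine ⟨?_, ?_⟩
  · rw [EA_hatz, norm_zero, add_zero, add_zero]
    have : Real.sqrt ‖lm ℓ‖ * ‖hat n ℓ‖ ≤ 1 * ‖hat n ℓ‖ :=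
      mul_le_mul_of_nonneg_right hls (norm_nonneg _)
    linarith
  · rw [EA_hatz, add_zero, Int.cast_zero, max_comm (n : ℝ) 0, max_eq_right (le_max_left _ _)]
    nlinarith

theorem thm_EstAsm : St_EstAsm := by
  intro hB hX hP
  obtain ⟨η₁, N₁, hη₁, hN₁, hX⟩ := hX
  obtain ⟨η₂, N₂, hη₂, hN₂, hP⟩ := hP
  refine ⟨min (min η₁ η₂) (1 / 5), 1 / 10, max (max N₁ N₂) 100, lt_min (lt_min hη₁ hη₂) (by norm_num),
    (min_le_right _ _).trans (by norm_num), by norm_num, by norm_num,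
    lt_max_of_lt_right (by norm_num), ?_⟩
  intro N hN t ht τ h0 h2 ℓ hℓ
  have k1 : N₁ ≤ N := (le_max_left _ _).trans ((le_max_left _ _).trans hN)
  have k2 : N₂ ≤ N := (le_max_right _ _).trans ((le_max_left _ _).trans hN)
  have k3 : 100 ≤ N := (le_max_right _ _).trans hN
  have hNp : 0 < N := by linarith
  set η := min (min η₁ η₂) (1 / 5) with hη
  have e1 : η ≤ η₁ := (min_le_left _ _).trans (min_le_left _ _)
  have e2 : η ≤ η₂ := (min_le_left _ _).trans (min_le_right _ _)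
  have e3 : η ≤ 1 / 5 := min_le_right _ _
  have eb := EA_low hB k3 h0 h2 hℓ t.2.2
  have eu := EA_low hB k3 h0 h2 hℓ (t.1 + t.2.1)
  obtain ⟨⟨hi0, hir, hr⟩, hpos, hz, -, ⟨hl1, hl2⟩, hnr, hall⟩ := hB N k3 τ h0 h2 ℓ hℓ
  have hσ : 0 ≤ ℓ.re := hi0.trans hir
  obtain ⟨hb, ha, hc, hac⟩ := ht
  have hne : 0 < τ → lm ℓ ≠ 0 := by
    intro h h3
    have h4 := hpos h
    have h5 : ℓ.re ≤ ‖ℓ‖ := Complex.re_le_norm ℓ
    rw [h3, norm_zero] at hl1
    linarith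
  have hU : U (lm ℓ) (sb ℓ t) = hat (t.1 + t.2.1) ℓ := by
    rcases eq_or_lt_of_le h0 with h | h
    · have h3 := hz h.symm
      rw [h3]
      simp [U, sb, EA_hat0, lm]
    · apply mul_right_cancel₀ (hne h)
      rw [(hall (t.1 + t.2.1)).1]
      have h4 := (hall t.1).1
      have h5 := (hall t.2.1).1
      have h6 : Complex.exp (((t.1 + t.2.1 : ℤ) : ℂ) * ℓ) =
          Complex.exp (t.1 * ℓ) * Complex.exp (t.2.1 * ℓ) := by
        rw [← Complex.exp_add]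
        congr 1
        push_cast
        ring
      rw [h6]
      have h7 : Complex.exp (t.1 * ℓ) = hat t.1 ℓ * lm ℓ + 1 := by
        rw [h4]
        ring
      have h8 : Complex.exp (t.2.1 * ℓ) = hat t.2.1 ℓ * lm ℓ + 1 := by
        rw [h5]
        ring
      rw [h7, h8]
      simp only [U, sb]
      ring
  have hDB : DB η t.1 t.2.1 ℓ := by
    rcases ha with ha | ha
    · rcases hc with hc | hc
      · exact absurd (by rw [ha, hc, add_zero]) hac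
      · rw [ha]
        exact EA_symm (EA_mono e3 (EA_single hB k3 h0 h2 hℓ hc))
    · rcases hc with hc | hc
      · rw [hc]
        exact EA_mono e3 (EA_single hB k3 h0 h2 hℓ ha)
      · rcases le_abs.1 ha with ha' | ha' <;> rcases le_abs.1 hc with hc' | hc'
        · rw [hℓ]
          exact EA_mono e2 (hP N k2 t.1 t.2.1 ha' hc' τ h0 h2).1
        · have h3 := hX N k1 t.1 (-t.2.1) ha' (by push_cast; exact hc') (by omega) τ h0 h2
          rw [neg_neg] at h3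
          rw [hℓ]
          exact EA_mono e1 h3
        · have h3 := hX N k1 t.2.1 (-t.1) hc' (by push_cast; exact ha') (by omega) τ h0 h2
          rw [neg_neg] at h3
          rw [hℓ]
          exact EA_symm (EA_mono e1 h3)
        · have h3 := (hP N k2 (-t.1) (-t.2.1) (by push_cast; exact ha') (by push_cast; exact hc')
            τ h0 h2).2
          rw [neg_neg, neg_neg] at h3
          rw [hℓ]
          exact EA_mono e2 h3
  have hEb : 1 ≤ Real.exp (max 0 (t.2.2 : ℝ) * ℓ.re) :=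
    Real.one_le_exp (mul_nonneg (le_max_left _ _) hσ)
  have hEu : 1 ≤ Real.exp (max 0 ((t.1 : ℝ) + (t.2.1 : ℝ)) * ℓ.re) :=
    Real.one_le_exp (mul_nonneg (le_max_left _ _) hσ)
  have hb5 : 1 / 10 * N * Real.exp (max 0 (t.2.2 : ℝ) * ℓ.re) ≤ ‖(sb ℓ t).2.2‖ := by
    rw [min_eq_left hb] at eb
    refine le_trans ?_ eb
    exact mul_le_mul_of_nonneg_right (by linarith) (by linarith)
  have hu7 : η * Real.exp (max 0 ((t.1 : ℝ) + (t.2.1 : ℝ)) * ℓ.re) ≤ ‖U (lm ℓ) (sb ℓ t)‖ := by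
    rw [hU]
    rw [Int.cast_add] at eu
    refine le_trans ?_ eu
    have h3 : (1 : ℝ) ≤ |(t.1 : ℝ) + (t.2.1 : ℝ)| := by
      have := Int.one_le_abs hac
      exact_mod_cast this
    have h4 : 1 ≤ min N |(t.1 : ℝ) + (t.2.1 : ℝ)| := le_min (by linarith) h3
    exact mul_le_mul_of_nonneg_right (by linarith) (by linarith)
  refine ⟨?_, hne, ⟨?_, hDB.1, ?_⟩, hU, hb5, hDB.2, hu7⟩
  · have h3 : ‖lm ℓ‖ ≤ 33 / 10 * (1 / N) := by
      have : 2 / N = 2 * (1 / N) := by ring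
      rw [this] at hr
      linarith
    have h4 : 1 / 10 * N * ‖lm ℓ‖ ≤ 1 / 10 * N * (33 / 10 * (1 / N)) :=
      mul_le_mul_of_nonneg_left h3 (by linarith)
    refine h4.trans ?_
    field_simp
    norm_num
  · nlinarith
  · have hηp : 0 < η := lt_min (lt_min hη₁ hη₂) (by norm_num)
    nlinarith

end Pool.Agent.FB.U7
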