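import Pool.Agent.FB.U7.Defs

/-!
# FB/U7, module ESTP: blocks with two exponents of the same sign (helper21)
-/

set_option autoImplicit false

open Matrix LaurentPolynomial Pool.RU Pool.Agent.FB.U5 Pool.Agent.FB.U6

namespace Pool.Agent.FB.U7

private theorem ESTP_exp4 : Real.exp (-(3 / 2)) ≤ 1 / 4 := by
  have h1 : 1 + 3 / 4 + (3 / 4 : ℝ) ^ 2 / 2 ≤ Real.exp (3 / 4) :=
    Real.quadratic_le_exp_of_nonneg (by norm_num)
  have h2 : Real.exp (3 / 2) = Real.exp (3 / 4) * Real.exp (3 / 4) := by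
    rw [← Real.exp_add]
    norm_num
  have h3 : 4 ≤ Real.exp (3 / 2) := by
    rw [h2]
    nlinarith
  rw [Real.exp_neg]
  rw [inv_eq_one_div]
  exact one_div_le_one_div_of_le (by norm_num) h3

private theorem ESTP_exp5 : Real.exp (3 / 2) ≤ 5 := by
  have h1 : Real.exp (3 / 2) * Real.exp (3 / 2) = Real.exp 1 * Real.exp 1 * Real.exp 1 := by
    rw [← Real.exp_add, ← Real.exp_add, ← Real.exp_add]
    norm_num
  have h2 : Real.exp 1 ≤ 2.72 := by
    have := Real.exp_one_lt_d9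
    linarith
  have h3 : 0 < Real.exp 1 := Real.exp_pos 1
  have h4 : Real.exp 1 * Real.exp 1 * Real.exp 1 ≤ 25 := by
    have h5 : Real.exp 1 * Real.exp 1 ≤ 2.72 * 2.72 := mul_le_mul h2 h2 h3.le (by norm_num)
    have h6 : Real.exp 1 * Real.exp 1 * Real.exp 1 ≤ 2.72 * 2.72 * 2.72 :=
      mul_le_mul h5 h2 h3.le (by norm_num)
    linarith
  have h5 : 0 < Real.exp (3 / 2) := Real.exp_pos _
  nlinarith

private theorem ESTP_one_sub {u : ℝ} (hu : 0 ≤ u) : 1 / 3 * min 2 u ≤ 1 - Real.exp (-u) := by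
  have h1 : 1 + u ≤ Real.exp u := by
    have := Real.add_one_le_exp u
    linarith
  have h2 : Real.exp (-u) * Real.exp u = 1 := by
    rw [← Real.exp_add]
    simp
  have h3 : 0 < Real.exp (-u) := Real.exp_pos _
  have h4 : Real.exp (-u) * (1 + u) ≤ 1 :=
    (mul_le_mul_of_nonneg_left h1 h3.le).trans h2.le
  rcases le_total 2 u with h | h
  · rw [min_eq_left h]
    nlinarith
  · rw [min_eq_right h]
    nlinarith

/-- the facts on the path which are used -/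
private structure ESTP_F (N : ℝ) (ℓ : ℂ) : Prop where
  hN : 100 ≤ N
  im0 : 0 ≤ ℓ.im
  imre : ℓ.im ≤ ℓ.re
  re2 : ℓ.re ≤ 2 / N
  pos : 0 < ℓ.re
  eq : ℓ.re < 2 / N → ℓ.im = ℓ.re
  lm1 : 9 / 10 * ‖ℓ‖ ≤ ‖lm ℓ‖
  lm2 : ‖lm ℓ‖ ≤ 11 / 10 * ‖ℓ‖
  no : ‖ℓ‖ ≤ 3 / 2 * ℓ.re
  hh : ∀ n : ℤ, hat n ℓ * lm ℓ = Complex.exp (n * ℓ) - 1
  no1 : ∀ n : ℤ, ‖Complex.exp (n * ℓ)‖ = Real.exp (n * ℓ.re)
  no2 : ∀ n : ℤ, ‖Complex.exp (n * ℓ) - 1‖ ≤ |(n : ℝ)| * ‖ℓ‖ * Real.exp (max 0 (n : ℝ) * ℓ.re)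
  no3 : ∀ n : ℤ, ‖Complex.exp (n * ℓ) - 1‖ ≤ 2 * Real.exp (max 0 (n : ℝ) * ℓ.re)

private theorem ESTP_db {a c : ℤ} {ℓ : ℂ} (h1 : ‖lm ℓ‖ ≤ 1)
    (h2 : ‖hat a ℓ‖ + ‖hat c ℓ‖ ≤ 20 * ‖hat a ℓ + hat c ℓ‖) (h3 : 1 ≤ ‖hat a ℓ + hat c ℓ‖)
    (h4 : Real.exp (max 0 (max (a : ℝ) (c : ℝ)) * ℓ.re) ≤ 100 * ‖hat a ℓ + hat c ℓ‖) :
    DB (1 / 100) a c ℓ := by
  refine ⟨?_, by linarith⟩
  have h5 : Real.sqrt ‖lm ℓ‖ ≤ 1 := Real.sqrt_le_one.mpr h1
  have h6 : 0 ≤ ‖hat a ℓ‖ + ‖hat c ℓ‖ := add_nonneg (norm_nonneg _) (norm_nonneg _)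
  have h7 : Real.sqrt ‖lm ℓ‖ * (‖hat a ℓ‖ + ‖hat c ℓ‖) ≤ 1 * (‖hat a ℓ‖ + ‖hat c ℓ‖) :=
    mul_le_mul_of_nonneg_right h5 h6
  linarith

private theorem ESTP_symm {η : ℝ} {a c : ℤ} {ℓ : ℂ} (h : DB η a c ℓ) : DB η c a ℓ := by
  obtain ⟨h1, h2⟩ := h
  refine ⟨?_, ?_⟩
  · rw [add_comm ‖hat c ℓ‖, add_comm (hat c ℓ)]
    exact h1
  · rw [add_comm (hat c ℓ), max_comm (c : ℝ)]
    exact h2

private theorem ESTP_F.lm_pos {N : ℝ} {ℓ : ℂ} (h : ESTP_F N ℓ) : 0 < ‖lm ℓ‖ := by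
  have h1 : ℓ.re ≤ ‖ℓ‖ := Complex.re_le_norm ℓ
  have := h.lm1
  have := h.pos
  linarith

private theorem ESTP_F.lm_le {N : ℝ} {ℓ : ℂ} (h : ESTP_F N ℓ) : ‖lm ℓ‖ ≤ 1 := by
  have h1 : (2 : ℝ) / N ≤ 2 / 100 := div_le_div_of_nonneg_left (by norm_num) (by norm_num) h.hN
  have := h.lm2
  have := h.no
  have := h.re2
  linarith

/-- the sum times `lm` -/
private theorem ESTP_F.sum {N : ℝ} {ℓ : ℂ} (h : ESTP_F N ℓ) (a c : ℤ) :
    ‖hat a ℓ + hat c ℓ‖ * ‖lm ℓ‖ = ‖(Complex.exp (a * ℓ) - 1) + (Complex.exp (c * ℓ) - 1)‖ := by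
  rw [← norm_mul, add_mul, h.hh, h.hh]

private theorem ESTP_F.one {N : ℝ} {ℓ : ℂ} (h : ESTP_F N ℓ) (a : ℤ) :
    ‖hat a ℓ‖ * ‖lm ℓ‖ = ‖Complex.exp (a * ℓ) - 1‖ := by
  rw [← norm_mul, h.hh]

private theorem ESTP_exp_re (n : ℤ) (ℓ : ℂ) :
    (Complex.exp (n * ℓ)).re = Real.exp (n * ℓ.re) * Real.cos (n * ℓ.im) := by
  rw [Complex.exp_re]
  simp

private theorem ESTP_exp_im (n : ℤ) (ℓ : ℂ) :
    (Complex.exp (n * ℓ)).im = Real.exp (n * ℓ.re) * Real.sin (n * ℓ.im) := by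
  rw [Complex.exp_im]
  simp

/-- both negative -/
private theorem ESTP_neg {N : ℝ} {ℓ : ℂ} (h : ESTP_F N ℓ) {A C : ℤ} (hA : N ≤ A) (hC : N ≤ C) :
    DB (1 / 100) (-A) (-C) ℓ := by
  have hN := h.hN
  have hs := h.pos
  have hlm := h.lm_pos
  have hNs : N * ℓ.re ≤ 2 := by
    have := h.re2
    rw [le_div_iff₀ (by linarith)] at this
    linarith
  -- one summand
  have key : ∀ n : ℤ, N ≤ n → ‖Complex.exp ((-n : ℤ) * ℓ) - 1‖ ≤ 3 / 2 * min 2 (n * ℓ.re) ∧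
      1 / 3 * min 2 (n * ℓ.re) ≤ -(Complex.exp ((-n : ℤ) * ℓ) - 1).re ∧
      N * ℓ.re ≤ min 2 (n * ℓ.re) := by
    intro n hn
    have hn0 : (0 : ℝ) < n := by linarith
    have hmax : max 0 (((-n : ℤ) : ℝ)) = 0 := max_eq_left (by push_cast; linarith)
    have habs : |(((-n : ℤ)) : ℝ)| = n := by
      push_cast
      rw [abs_neg, abs_of_pos hn0]
    refine ⟨?_, ?_, ?_⟩
    · have h1 := h.no2 (-n)
      have h2 := h.no3 (-n)
      rw [hmax, zero_mul, Real.exp_zero] at h1 h2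
      rw [habs] at h1
      rcases le_total 2 (n * ℓ.re) with h3 | h3
      · rw [min_eq_left h3]
        linarith
      · rw [min_eq_right h3]
        have h4 : (n : ℝ) * ‖ℓ‖ ≤ n * (3 / 2 * ℓ.re) := mul_le_mul_of_nonneg_left h.no hn0.le
        linarith
    · rw [Complex.sub_re, Complex.one_re, ESTP_exp_re]
      have h1 := ESTP_one_sub (u := n * ℓ.re) (by positivity)
      have h2 : Real.exp (((-n : ℤ) : ℝ) * ℓ.re) = Real.exp (-(n * ℓ.re)) := by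
        push_cast
        rw [neg_mul]
      rw [h2]
      have h3 : Real.exp (-(n * ℓ.re)) * Real.cos (((-n : ℤ) : ℝ) * ℓ.im) ≤
          Real.exp (-(n * ℓ.re)) * 1 :=
        mul_le_mul_of_nonneg_left (Real.cos_le_one _) (Real.exp_pos _).le
      linarith
    · refine le_min hNs ?_
      exact mul_le_mul_of_nonneg_right hn hs.le
  obtain ⟨a1, a2, a3⟩ := key A hA
  obtain ⟨c1, c2, c3⟩ := key C hC
  have hsum := h.sum (-A) (-C)
  have hre : 1 / 3 * (min 2 (A * ℓ.re) + min 2 (C * ℓ.re)) ≤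
      ‖hat (-A) ℓ + hat (-C) ℓ‖ * ‖lm ℓ‖ := by
    rw [hsum]
    have h1 := Complex.abs_re_le_norm
      ((Complex.exp (((-A : ℤ) : ℂ) * ℓ) - 1) + (Complex.exp (((-C : ℤ) : ℂ) * ℓ) - 1))
    rw [Complex.add_re] at h1
    have h2 := neg_le_abs
      ((Complex.exp (((-A : ℤ) : ℂ) * ℓ) - 1).re + (Complex.exp (((-C : ℤ) : ℂ) * ℓ) - 1).re)
    linarith
  have hS : (‖hat (-A) ℓ‖ + ‖hat (-C) ℓ‖) * ‖lm ℓ‖ ≤
      3 / 2 * (min 2 (A * ℓ.re) + min 2 (C * ℓ.re)) := by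
    rw [add_mul, h.one, h.one]
    linarith
  have h1 : 1 ≤ ‖hat (-A) ℓ + hat (-C) ℓ‖ := by
    refine le_of_mul_le_mul_right ?_ hlm
    have h2 := h.lm2
    have h3 := h.no
    have h4 : 100 * ℓ.re ≤ N * ℓ.re := mul_le_mul_of_nonneg_right hN hs.le
    linarith
  refine ESTP_db h.lm_le ?_ h1 ?_
  · refine le_of_mul_le_mul_right ?_ hlm
    nlinarith
  · have h2 : max 0 (max (((-A : ℤ)) : ℝ) (((-C : ℤ)) : ℝ)) = 0 := by
      refine max_eq_left (max_le ?_ ?_)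
      · push_cast
        linarith
      · push_cast
        linarith
    rw [h2, zero_mul, Real.exp_zero]
    linarith

/-- both positive, `C ≤ A` -/
private theorem ESTP_pos {N : ℝ} {ℓ : ℂ} (h : ESTP_F N ℓ) {A C : ℤ} (hA : N ≤ A) (hC : N ≤ C)
    (hCA : C ≤ A) : DB (1 / 100) A C ℓ := by
  have hN := h.hN
  have hs := h.pos
  have hlm := h.lm_pos
  have hCA' : (C : ℝ) ≤ A := by exact_mod_cast hCA
  have hA0 : (0 : ℝ) < A := by linarith
  have hC0 : (0 : ℝ) < C := by linarith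
  have hmax : max 0 (max (A : ℝ) (C : ℝ)) = A := by
    rw [max_eq_left hCA', max_eq_right hA0.le]
  have hsum := h.sum A C
  have hmono : Real.exp (C * ℓ.re) ≤ Real.exp (A * ℓ.re) :=
    Real.exp_le_exp.mpr (mul_le_mul_of_nonneg_right hCA' hs.le)
  rcases le_or_gt (3 / 2) (A * ℓ.re) with hc | hc
  · -- the large case
    have hsmall : Real.exp (-(A * ℓ.re)) ≤ 1 / 4 :=
      (Real.exp_le_exp.mpr (by linarith)).trans ESTP_exp4
    have hprod : (Complex.exp (A * ℓ) - 1) + (Complex.exp (C * ℓ) - 1) =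
        Complex.exp (A * ℓ) * (1 + Complex.exp (((-(A - C) : ℤ) : ℂ) * ℓ) -
          2 * Complex.exp (((-A : ℤ) : ℂ) * ℓ)) := by
      have e1 : Complex.exp (A * ℓ) * Complex.exp (((-(A - C) : ℤ) : ℂ) * ℓ) =
          Complex.exp (C * ℓ) := by
        rw [← Complex.exp_add]
        push_cast
        ring_nf
      have e2 : Complex.exp (A * ℓ) * Complex.exp (((-A : ℤ) : ℂ) * ℓ) = 1 := by
        rw [← Complex.exp_add]
        push_cast
        rw [neg_mul, add_neg_cancel, Complex.exp_zero]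
      linear_combination -e1 + 2 * e2
    have hre : 1 / 4 ≤ ‖1 + Complex.exp (((-(A - C) : ℤ) : ℂ) * ℓ) -
          2 * Complex.exp (((-A : ℤ) : ℂ) * ℓ)‖ := by
      have e1 : 3 / 4 ≤ (1 + Complex.exp (((-(A - C) : ℤ) : ℂ) * ℓ)).re := by
        rw [Complex.add_re, Complex.one_re, ESTP_exp_re]
        have hw : (((-(A - C) : ℤ)) : ℝ) * ℓ.im = -((A - C) * ℓ.im) := by
          push_cast
          ring
        have hw2 : (((-(A - C) : ℤ)) : ℝ) * ℓ.re = -((A - C) * ℓ.re) := by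
          push_cast
          ring
        rw [hw, hw2, Real.cos_neg]
        have hd : (0 : ℝ) ≤ A - C := by linarith
        have hd2 : ((A : ℝ) - C) * ℓ.im ≤ (A - C) * ℓ.re := mul_le_mul_of_nonneg_left h.imre hd
        have hd3 : 0 ≤ ((A : ℝ) - C) * ℓ.im := mul_nonneg hd h.im0
        rcases le_total ((A - C) * ℓ.im) (3 / 2) with h3 | h3
        · have h4 : 0 ≤ Real.cos ((A - C) * ℓ.im) := by
            refine Real.cos_nonneg_of_neg_pi_div_two_le_of_le ?_ ?_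
            · linarith [Real.pi_pos]
            · linarith [Real.pi_gt_three]
          have h5 := mul_nonneg (Real.exp_pos (-((A - C) * ℓ.re))).le h4
          linarith
        · have h4 : Real.exp (-((A - C) * ℓ.re)) ≤ 1 / 4 :=
            (Real.exp_le_exp.mpr (by linarith)).trans ESTP_exp4
          have h5 : -1 ≤ Real.cos ((A - C) * ℓ.im) := Real.neg_one_le_cos _
          have h6 : 0 < Real.exp (-((A - C) * ℓ.re)) := Real.exp_pos _
          nlinarith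
      have e2 : ‖2 * Complex.exp (((-A : ℤ) : ℂ) * ℓ)‖ ≤ 1 / 2 := by
        rw [norm_mul, h.no1]
        have h3 : (((-A : ℤ)) : ℝ) * ℓ.re = -(A * ℓ.re) := by
          push_cast
          ring
        rw [h3]
        norm_num
        linarith
      have e3 := Complex.re_le_norm (1 + Complex.exp (((-(A - C) : ℤ) : ℂ) * ℓ))
      have e4 := norm_sub_norm_le (1 + Complex.exp (((-(A - C) : ℤ) : ℂ) * ℓ))
        (2 * Complex.exp (((-A : ℤ) : ℂ) * ℓ))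
      linarith
    have hbig : 1 / 4 * Real.exp (A * ℓ.re) ≤ ‖hat A ℓ + hat C ℓ‖ * ‖lm ℓ‖ := by
      rw [hsum, hprod, norm_mul, h.no1]
      have := Real.exp_pos (A * ℓ.re)
      nlinarith
    have hD : ‖hat A ℓ + hat C ℓ‖ * ‖lm ℓ‖ ≤ ‖hat A ℓ + hat C ℓ‖ :=
      mul_le_of_le_one_right (norm_nonneg _) h.lm_le
    have h4e : 4 ≤ Real.exp (A * ℓ.re) := by
      have h3 : Real.exp (-(A * ℓ.re)) * Real.exp (A * ℓ.re) = 1 := by
        rw [← Real.exp_add]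
        simp
      have h5 := Real.exp_pos (A * ℓ.re)
      nlinarith
    refine ESTP_db h.lm_le ?_ (by linarith) (by rw [hmax]; linarith)
    refine le_of_mul_le_mul_right ?_ hlm
    rw [add_mul, h.one, h.one]
    have h1 := h.no3 A
    have h2 := h.no3 C
    rw [max_eq_right hA0.le] at h1
    rw [max_eq_right hC0.le] at h2
    linarith
  · -- the small case
    have hlt : ℓ.re < 2 / N := by
      rw [lt_div_iff₀ (by linarith)]
      have : N * ℓ.re ≤ A * ℓ.re := mul_le_mul_of_nonneg_right hA hs.le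
      linarith
    have him := h.eq hlt
    have key : ∀ n : ℤ, N ≤ n → (n : ℝ) ≤ A →
        n * (ℓ.re * ℓ.re) ≤ (Complex.exp (n * ℓ) - 1).re * ℓ.re +
          (Complex.exp (n * ℓ) - 1).im * ℓ.im := by
      intro n hn hnA
      have hn0 : (0 : ℝ) < n := by linarith
      rw [Complex.sub_re, Complex.sub_im, Complex.one_re, Complex.one_im, ESTP_exp_re,
        ESTP_exp_im, him]
      have hv0 : 0 ≤ n * ℓ.re := by positivity
      have hv1 : n * ℓ.re ≤ 3 / 2 :=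
        (mul_le_mul_of_nonneg_right hnA hs.le).trans hc.le
      have h1 : 0 ≤ Real.cos (n * ℓ.re) := by
        refine Real.cos_nonneg_of_neg_pi_div_two_le_of_le ?_ ?_
        · linarith [Real.pi_pos]
        · linarith [Real.pi_gt_three]
      have h2 : 0 ≤ Real.sin (n * ℓ.re) :=
        Real.sin_nonneg_of_nonneg_of_le_pi hv0 (by linarith [Real.pi_gt_three])
      have h3 := Real.cos_le_one (n * ℓ.re)
      have h4 := Real.sin_le_one (n * ℓ.re)
      have h5 := Real.sin_sq_add_cos_sq (n * ℓ.re)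
      have h6 : 1 ≤ Real.cos (n * ℓ.re) + Real.sin (n * ℓ.re) := by nlinarith
      have h7 : n * ℓ.re + 1 ≤ Real.exp (n * ℓ.re) := Real.add_one_le_exp _
      have h8 : Real.exp (n * ℓ.re) * 1 ≤
          Real.exp (n * ℓ.re) * (Real.cos (n * ℓ.re) + Real.sin (n * ℓ.re)) :=
        mul_le_mul_of_nonneg_left h6 (Real.exp_pos _).le
      have h9 : n * ℓ.re ≤
          Real.exp (n * ℓ.re) * (Real.cos (n * ℓ.re) + Real.sin (n * ℓ.re)) - 1 := by linarith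
      have h10 := mul_le_mul_of_nonneg_right h9 hs.le
      nlinarith
    have h1 := key A hA le_rfl
    have h2 := key C hC hCA'
    have hnorm : ‖ℓ‖ * ‖ℓ‖ = 2 * (ℓ.re * ℓ.re) := by
      have := Complex.sq_norm ℓ
      rw [Complex.normSq_apply, him] at this
      nlinarith
    have h3 : (A + C) * (ℓ.re * ℓ.re) ≤
        ‖(Complex.exp (A * ℓ) - 1) + (Complex.exp (C * ℓ) - 1)‖ * ‖ℓ‖ := by
      have h4 := Complex.re_le_norm
        (((Complex.exp (A * ℓ) - 1) + (Complex.exp (C * ℓ) - 1)) * (starRingEnd ℂ) ℓ)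
      rw [norm_mul, Complex.norm_conj, Complex.mul_re, Complex.conj_re, Complex.conj_im,
        Complex.add_re, Complex.add_im] at h4
      nlinarith
    have hl0 : 0 < ‖ℓ‖ := hs.trans_le (Complex.re_le_norm ℓ)
    have h4 : (A + C) / 2 * ‖ℓ‖ ≤ ‖hat A ℓ + hat C ℓ‖ * ‖lm ℓ‖ := by
      rw [hsum]
      refine le_of_mul_le_mul_right ?_ hl0
      have h5 : ((A : ℝ) + C) / 2 * ‖ℓ‖ * ‖ℓ‖ = (A + C) * (ℓ.re * ℓ.re) := by
        rw [mul_assoc, hnorm]
        ring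
      rw [h5]
      exact h3
    have hE : Real.exp (A * ℓ.re) ≤ 5 := (Real.exp_le_exp.mpr hc.le).trans ESTP_exp5
    have h5 : 90 ≤ ‖hat A ℓ + hat C ℓ‖ := by
      refine le_of_mul_le_mul_right ?_ hlm
      have h6 := h.lm2
      have h7 : 100 * ‖ℓ‖ ≤ (A + C) / 2 * ‖ℓ‖ := mul_le_mul_of_nonneg_right (by linarith) hl0.le
      linarith
    refine ESTP_db h.lm_le ?_ (by linarith) (by rw [hmax]; linarith)
    refine le_of_mul_le_mul_right ?_ hlm
    rw [add_mul, h.one, h.one]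
    have h6 := h.no2 A
    have h7 := h.no2 C
    rw [max_eq_right hA0.le, abs_of_pos hA0] at h6
    rw [max_eq_right hC0.le, abs_of_pos hC0] at h7
    have h8 : (A : ℝ) * ‖ℓ‖ * Real.exp (A * ℓ.re) ≤ A * ‖ℓ‖ * 5 :=
      mul_le_mul_of_nonneg_left hE (by positivity)
    have h9 : (C : ℝ) * ‖ℓ‖ * Real.exp (C * ℓ.re) ≤ C * ‖ℓ‖ * 5 :=
      mul_le_mul_of_nonneg_left (hmono.trans hE) (by positivity)
    have h10 : 0 ≤ ‖hat A ℓ + hat C ℓ‖ * ‖lm ℓ‖ := by positivity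
    nlinarith

theorem thm_EstP (h : St_Base) : St_EstP := by
  refine ⟨1 / 100, 100, by norm_num, le_rfl, fun N hN A C hA hC τ h0 h2 => ?_⟩
  obtain ⟨⟨b1, b2, b3⟩, b4, b5, b6, ⟨b7, b8⟩, b9, b10⟩ := h N hN τ h0 h2 _ rfl
  rcases h0.eq_or_lt with h0 | h0
  · -- the origin
    have hl : pth (2 / N) τ = 0 := b5 h0.symm
    rw [hl]
    have hlm : ‖lm 0‖ = 0 := by simp [lm]
    have hhat : ∀ n : ℤ, hat n 0 = n := fun n => if_pos rfl
    have key : ∀ a c : ℤ, 1 ≤ |((a + c : ℤ) : ℝ)| → DB (1 / 100) a c 0 := by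
      intro a c hac
      have h3 : ‖hat a 0 + hat c 0‖ = |((a + c : ℤ) : ℝ)| := by
        rw [hhat, hhat, ← Int.cast_add, Complex.norm_intCast]
      refine ⟨?_, ?_⟩
      · rw [hlm, Real.sqrt_zero, zero_mul, h3]
        linarith
      · rw [h3, Complex.zero_re, mul_zero, Real.exp_zero]
        linarith
    constructor
    · refine key A C ?_
      push_cast
      rw [abs_of_pos (by linarith)]
      linarith
    · refine key (-A) (-C) ?_
      push_cast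
      rw [abs_of_neg (by linarith)]
      linarith
  · have hF : ESTP_F N (pth (2 / N) τ) :=
      ⟨hN, b1, b2, b3, b4 h0, b6, b7, b8, b9, fun n => (b10 n).1, fun n => (b10 n).2.2.1,
        fun n => (b10 n).2.2.2.1, fun n => (b10 n).2.2.2.2.1⟩
    refine ⟨?_, ESTP_neg hF hA hC⟩
    rcases le_total C A with h3 | h3
    · exact ESTP_pos hF hA hC h3
    · exact ESTP_symm (ESTP_pos hF hC hA h3)

end Pool.Agent.FB.U7
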