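import Pool.Agent.FB.U7.Defs

/-!
# FB/U7, module ESTX: blocks with exponents `a = A > 0`, `c = -C < 0`

Statement: see `St_EstX` in `Pool/Agent/FB/U7/Defs.lean`.  Let `σ = ℓ.re`, `v = A σ`, `w = C σ`.  For
`v ≥ 3 / 2` the term `exp (A ℓ)` dominates; for `v < 3 / 2` the argument of `ℓ` is `π / 4`, and the
imaginary minus the real part of `exp (A ℓ) + exp (-C ℓ) - 2` is a sum of two nonnegative functions of
`v` and of `w`.
-/

set_option autoImplicit false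

namespace Pool.Agent.FB.U7

/-! ### two real functions -/

theorem estx_F {v : ℝ} (h0 : 0 ≤ v) (h1 : v ≤ 3 / 2) :
    v ^ 2 / 2 ≤ 1 + Real.exp v * (Real.sin v - Real.cos v) := by
  have hd : ∀ x : ℝ, HasDerivAt
      (fun v : ℝ => 1 + Real.exp v * (Real.sin v - Real.cos v) - v ^ 2 / 2)
      (2 * Real.exp x * Real.sin x - x) x := by
    intro x
    have h1 := (((Real.hasDerivAt_exp x).mul
      ((Real.hasDerivAt_sin x).sub (Real.hasDerivAt_cos x))).const_add 1).sub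
      (((hasDerivAt_id x).pow 2).div_const 2)
    refine h1.congr_deriv ?_
    simp only [id]
    simp
    ring
  have hm : MonotoneOn (fun v : ℝ => 1 + Real.exp v * (Real.sin v - Real.cos v) - v ^ 2 / 2)
      (Set.Icc 0 (3 / 2)) := by
    refine monotoneOn_of_deriv_nonneg (convex_Icc _ _)
      (fun x _ => (hd x).continuousAt.continuousWithinAt)
      (fun x _ => (hd x).differentiableAt.differentiableWithinAt) ?_
    intro x hx
    rw [interior_Icc] at hx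
    rw [(hd x).deriv]
    have h2 : 2 / Real.pi * x ≤ Real.sin x :=
      Real.mul_le_sin hx.1.le (by linarith [hx.2, Real.pi_gt_three])
    have h3 : 1 ≤ Real.exp x := Real.one_le_exp hx.1.le
    have h4 : 1 / 2 ≤ 2 / Real.pi := by
      rw [div_le_div_iff₀ (by norm_num) Real.pi_pos]
      linarith [Real.pi_le_four]
    have h5 : 1 / 2 * x ≤ Real.sin x := le_trans (mul_le_mul_of_nonneg_right h4 hx.1.le) h2
    have h6 : 0 ≤ Real.sin x := le_trans (by linarith [hx.1]) h5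
    nlinarith [mul_le_mul_of_nonneg_right h3 h6]
  have h := hm ⟨le_rfl, by norm_num⟩ ⟨h0, h1⟩ h0
  simp only [Real.exp_zero, Real.sin_zero, Real.cos_zero] at h
  norm_num at h
  linarith

theorem estx_G1 {w : ℝ} (h0 : 0 ≤ w) (h1 : w ≤ 1) :
    w ^ 2 / 5 ≤ 1 - Real.exp (-w) * (Real.sin w + Real.cos w) := by
  have hd : ∀ x : ℝ, HasDerivAt
      (fun w : ℝ => 1 - Real.exp (-w) * (Real.sin w + Real.cos w) - w ^ 2 / 5)
      (2 * Real.exp (-x) * Real.sin x - 2 / 5 * x) x := by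
    intro x
    have h1 := ((((hasDerivAt_neg x).exp).mul
      ((Real.hasDerivAt_sin x).add (Real.hasDerivAt_cos x))).const_sub 1).sub
      (((hasDerivAt_id x).pow 2).div_const 5)
    refine h1.congr_deriv ?_
    simp only [id]
    simp
    ring
  have hm : MonotoneOn (fun w : ℝ => 1 - Real.exp (-w) * (Real.sin w + Real.cos w) - w ^ 2 / 5)
      (Set.Icc 0 1) := by
    refine monotoneOn_of_deriv_nonneg (convex_Icc _ _)
      (fun x _ => (hd x).continuousAt.continuousWithinAt)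
      (fun x _ => (hd x).differentiableAt.differentiableWithinAt) ?_
    intro x hx
    rw [interior_Icc] at hx
    rw [(hd x).deriv]
    have h2 : 2 / Real.pi * x ≤ Real.sin x :=
      Real.mul_le_sin hx.1.le (by linarith [hx.2, Real.pi_gt_three])
    have h3 : 9 / 25 ≤ Real.exp (-x) := by
      have h := Real.exp_neg_one_gt_d9
      have h' : Real.exp (-1) ≤ Real.exp (-x) := Real.exp_le_exp.2 (by linarith [hx.2])
      linarith
    have h4 : 3 / 5 ≤ 2 / Real.pi := by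
      rw [div_le_div_iff₀ (by norm_num) Real.pi_pos]
      linarith [Real.pi_lt_d2]
    have h5 : 3 / 5 * x ≤ Real.sin x := le_trans (mul_le_mul_of_nonneg_right h4 hx.1.le) h2
    have h6 : 0 ≤ Real.sin x := le_trans (by linarith [hx.1]) h5
    nlinarith [mul_le_mul_of_nonneg_right h3 h6, hx.1]
  have h := hm ⟨le_rfl, by norm_num⟩ ⟨h0, h1⟩ h0
  simp only [neg_zero, Real.exp_zero, Real.sin_zero, Real.cos_zero] at h
  norm_num at h
  linarith

theorem estx_G {w : ℝ} (h0 : 0 ≤ w) :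
    (min w 1) ^ 2 / 5 ≤ 1 - Real.exp (-w) * (Real.sin w + Real.cos w) := by
  rcases le_total w 1 with h1 | h1
  · rw [min_eq_left h1]
    exact estx_G1 h0 h1
  · rw [min_eq_right h1]
    have h2 : Real.exp (-w) ≤ 37 / 100 := by
      have h := Real.exp_neg_one_lt_d9
      have h' : Real.exp (-w) ≤ Real.exp (-1) := Real.exp_le_exp.2 (by linarith)
      linarith
    have h3 : Real.sin w + Real.cos w ≤ 3 / 2 := by
      nlinarith [Real.sin_sq_add_cos_sq w, sq_nonneg (Real.sin w - Real.cos w)]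
    have h4 : 0 < Real.exp (-w) := Real.exp_pos _
    nlinarith [mul_le_mul_of_nonneg_left h3 h4.le]

/-! ### the lower bound -/

theorem estx_re_im (ℓ : ℂ) (h : ℓ.im = ℓ.re) (n : ℝ) :
    (Complex.exp (n * ℓ)).re = Real.exp (n * ℓ.re) * Real.cos (n * ℓ.re) ∧
      (Complex.exp (n * ℓ)).im = Real.exp (n * ℓ.re) * Real.sin (n * ℓ.re) := by
  rw [Complex.exp_re, Complex.exp_im]
  simp [h]

theorem estx_low (ℓ : ℂ) (h : ℓ.im = ℓ.re) (a c : ℝ) (ha : 0 ≤ a * ℓ.re) (hc : 0 ≤ c * ℓ.re)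
    (ha' : a * ℓ.re ≤ 3 / 2) :
    ((a * ℓ.re) ^ 2 + (min (c * ℓ.re) 1) ^ 2) / 10 ≤
      ‖Complex.exp (a * ℓ) - 1 + (Complex.exp ((-c : ℝ) * ℓ) - 1)‖ := by
  have h1 := estx_F ha ha'
  have h2 := estx_G hc
  obtain ⟨h3, h4⟩ := estx_re_im ℓ h a
  obtain ⟨h5, h6⟩ := estx_re_im ℓ h (-c)
  set z := Complex.exp (a * ℓ) - 1 + (Complex.exp ((-c : ℝ) * ℓ) - 1) with hz
  have h7 : z.re = Real.exp (a * ℓ.re) * Real.cos (a * ℓ.re) - 1 +
      (Real.exp (-c * ℓ.re) * Real.cos (-c * ℓ.re) - 1) := by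
    rw [hz, Complex.add_re, Complex.sub_re, Complex.sub_re, h3, h5, Complex.one_re]
  have h8 : z.im = Real.exp (a * ℓ.re) * Real.sin (a * ℓ.re) +
      Real.exp (-c * ℓ.re) * Real.sin (-c * ℓ.re) := by
    rw [hz, Complex.add_im, Complex.sub_im, Complex.sub_im, h4, h6, Complex.one_im]
    ring
  have h9 : -c * ℓ.re = -(c * ℓ.re) := by ring
  rw [h9, Real.cos_neg] at h7
  rw [h9, Real.sin_neg] at h8
  have h10 := Complex.abs_re_le_norm z
  have h11 := Complex.abs_im_le_norm z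
  have h12 : z.im - z.re ≤ 2 * ‖z‖ := by
    have := le_abs_self z.im
    have := neg_abs_le z.re
    linarith
  rw [h7, h8] at h12
  nlinarith [sq_nonneg (a * ℓ.re)]

theorem estx_lin (z : ℂ) (h : ‖z‖ ≤ 1) : ‖Complex.exp z - 1 - z‖ ≤ ‖z‖ ^ 2 :=
  Complex.norm_exp_sub_one_sub_id_le h

/-! ### the assembly -/

theorem estx_red (η M : ℝ) (a c : ℤ) (ℓ X Y : ℂ) (hl : 0 < ‖lm ℓ‖) (ha : hat a ℓ * lm ℓ = X)
    (hc : hat c ℓ * lm ℓ = Y) (hM : max 0 (max (a : ℝ) (c : ℝ)) = M)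
    (h1 : η * (‖lm ℓ‖ + Real.sqrt ‖lm ℓ‖ * (‖X‖ + ‖Y‖)) ≤ ‖X + Y‖)
    (h2 : η * Real.exp (M * ℓ.re) * ‖lm ℓ‖ ≤ ‖X + Y‖) : DB η a c ℓ := by
  subst ha hc hM
  rw [← add_mul, norm_mul] at h1 h2
  rw [norm_mul, norm_mul] at h1
  refine ⟨?_, le_of_mul_le_mul_right h2 hl⟩
  refine le_of_mul_le_mul_right ?_ hl
  refine le_trans (le_of_eq ?_) h1
  ring

theorem estx_one (l e x y d : ℝ) (hl : l ≤ 1) (he : 4 ≤ e) (hx : x ≤ 2 * e)
    (hy : y ≤ 2) (hx0 : 0 ≤ x) (hy0 : 0 ≤ y) (hd : e - 3 ≤ d) :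
    1 / 1000 * (l + Real.sqrt l * (x + y)) ≤ d ∧ 1 / 1000 * e * l ≤ d := by
  have h1 : Real.sqrt l ≤ 1 := Real.sqrt_le_one.2 hl
  have h2 : Real.sqrt l * (x + y) ≤ 1 * (x + y) :=
    mul_le_mul_of_nonneg_right h1 (add_nonneg hx0 hy0)
  constructor
  · nlinarith
  · nlinarith

theorem estx_two (l e x y d v m : ℝ) (hl0 : 0 ≤ l) (he : e ≤ 5) (hx : x ≤ 15 / 2 * v)
    (hy : y ≤ 2 * m) (hd : (v ^ 2 + m ^ 2) / 10 ≤ d) (hd' : v ^ 2 + m ^ 2 < l / 8 → l / 2 ≤ d) :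
    1 / 1000 * (l + Real.sqrt l * (x + y)) ≤ d ∧ 1 / 1000 * e * l ≤ d := by
  have hs := Real.sqrt_nonneg l
  have hq := Real.sq_sqrt hl0
  have h1 : Real.sqrt l * (x + y) ≤ Real.sqrt l * (15 / 2 * v + 2 * m) :=
    mul_le_mul_of_nonneg_left (by linarith) hs
  have h2 : Real.sqrt l * (15 / 2 * v + 2 * m) ≤ 19 / 4 * l + 15 / 4 * v ^ 2 + m ^ 2 := by
    nlinarith [sq_nonneg (Real.sqrt l - v), sq_nonneg (Real.sqrt l - m)]
  have h3 : e * l ≤ 5 * l := mul_le_mul_of_nonneg_right he hl0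
  rcases lt_or_ge (v ^ 2 + m ^ 2) (l / 8) with h | h
  · have := hd' h
    constructor
    · nlinarith [sq_nonneg v, sq_nonneg m]
    · nlinarith
  · constructor
    · nlinarith [sq_nonneg v, sq_nonneg m]
    · nlinarith

theorem estx_small (ℓ : ℂ) (a c : ℝ) (hne : 1 ≤ |a - c|) (ha : 0 ≤ a) (hc : 0 ≤ c)
    (h1 : ‖ℓ‖ ≤ 3 / 2 * ℓ.re) (h2 : 9 / 10 * ‖ℓ‖ ≤ ‖lm ℓ‖) (h2' : ‖lm ℓ‖ ≤ 11 / 10 * ‖ℓ‖)
    (h3 : ‖lm ℓ‖ ≤ 1)
    (h4 : (a * ℓ.re) ^ 2 + (min (c * ℓ.re) 1) ^ 2 < ‖lm ℓ‖ / 8) :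
    ‖lm ℓ‖ / 2 ≤ ‖Complex.exp (a * ℓ) - 1 + (Complex.exp ((-c : ℝ) * ℓ) - 1)‖ := by
  have hr : 0 ≤ ℓ.re := by linarith [norm_nonneg ℓ]
  have hm : min (c * ℓ.re) 1 = c * ℓ.re := by
    rcases le_total (c * ℓ.re) 1 with h | h
    · exact min_eq_left h
    · rw [min_eq_right h] at h4
      nlinarith [sq_nonneg (a * ℓ.re)]
  rw [hm] at h4
  have e1 : ‖(a : ℂ) * ℓ‖ ≤ 3 / 2 * (a * ℓ.re) := by
    rw [norm_mul, Complex.norm_real, Real.norm_eq_abs, abs_of_nonneg ha]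
    nlinarith
  have e2 : ‖((-c : ℝ) : ℂ) * ℓ‖ ≤ 3 / 2 * (c * ℓ.re) := by
    rw [norm_mul, Complex.norm_real, Real.norm_eq_abs, abs_neg, abs_of_nonneg hc]
    nlinarith
  have hv : 0 ≤ a * ℓ.re := mul_nonneg ha hr
  have hw : 0 ≤ c * ℓ.re := mul_nonneg hc hr
  have e3 : a * ℓ.re ≤ 1 / 2 := by
    by_contra hh
    push Not at hh
    nlinarith [sq_nonneg (c * ℓ.re)]
  have e4 : c * ℓ.re ≤ 1 / 2 := by
    by_contra hh
    push Not at hh
    nlinarith [sq_nonneg (a * ℓ.re)]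
  have f1 := estx_lin ((a : ℂ) * ℓ) (by linarith)
  have f2 := estx_lin (((-c : ℝ) : ℂ) * ℓ) (by linarith)
  have g1 : ‖(a : ℂ) * ℓ‖ ^ 2 ≤ (3 / 2 * (a * ℓ.re)) ^ 2 :=
    pow_le_pow_left₀ (norm_nonneg _) e1 2
  have g2 : ‖((-c : ℝ) : ℂ) * ℓ‖ ^ 2 ≤ (3 / 2 * (c * ℓ.re)) ^ 2 :=
    pow_le_pow_left₀ (norm_nonneg _) e2 2
  have g3 : ‖ℓ‖ ≤ ‖((a - c : ℝ) : ℂ) * ℓ‖ := by
    rw [norm_mul, Complex.norm_real, Real.norm_eq_abs]
    nlinarith [norm_nonneg ℓ]
  have g4 : ((a - c : ℝ) : ℂ) * ℓ = (Complex.exp (a * ℓ) - 1 + (Complex.exp ((-c : ℝ) * ℓ) - 1)) -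
      (Complex.exp (a * ℓ) - 1 - a * ℓ) -
      (Complex.exp ((-c : ℝ) * ℓ) - 1 - ((-c : ℝ) : ℂ) * ℓ) := by
    push_cast
    ring
  have g5 : ‖((a - c : ℝ) : ℂ) * ℓ‖ ≤
      ‖Complex.exp (a * ℓ) - 1 + (Complex.exp ((-c : ℝ) * ℓ) - 1)‖ +
      ‖Complex.exp (a * ℓ) - 1 - a * ℓ‖ +
      ‖Complex.exp ((-c : ℝ) * ℓ) - 1 - ((-c : ℝ) : ℂ) * ℓ‖ := by
    rw [g4]
    exact le_trans (norm_sub_le _ _) (add_le_add_left (norm_sub_le _ _) _)
  nlinarith

/-- **Module U7_ESTX** -/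
theorem thm_EstX (h : St_Base) : St_EstX := by
  refine ⟨1 / 1000, 100, by norm_num, le_rfl, ?_⟩
  intro N hN A C hA hC hAC τ h0 h2
  obtain ⟨⟨him0, him1, hre⟩, hpos, hzero, hdiag, ⟨hlm1, hlm2⟩, hnorm, hn⟩ := h N hN τ h0 h2 _ rfl
  have hA0 : (100 : ℝ) ≤ A := le_trans hN hA
  have hC0 : (100 : ℝ) ≤ C := le_trans hN hC
  have hM : max 0 (max (A : ℝ) ((-C : ℤ) : ℝ)) = A := by
    push_cast
    have g1 : max (A : ℝ) (-(C : ℝ)) = A := max_eq_left (by linarith)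
    rw [g1]
    exact max_eq_right (by linarith)
  have hne : 1 ≤ |(A : ℝ) - C| := by
    have h3 : 1 ≤ |A - C| := Int.one_le_abs (sub_ne_zero.2 hAC)
    exact_mod_cast h3
  rcases eq_or_lt_of_le h0 with h3 | h3
  · have hz := hzero h3.symm
    unfold DB
    rw [hM, hz]
    have e1 : lm 0 = 0 := by simp [lm]
    have e2 : hat A 0 + hat (-C) 0 = ((A - C : ℝ) : ℂ) := by
      simp only [hat, if_true]
      push_cast
      ring
    rw [e1, e2, Complex.norm_real, Real.norm_eq_abs]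
    simp only [norm_zero, Real.sqrt_zero, zero_mul, add_zero, Complex.zero_re, mul_zero,
      Real.exp_zero]
    constructor <;> linarith
  · have hσ := hpos h3
    set ℓ := pth (2 / N) τ with hℓ
    have hℓ0 : 0 < ‖ℓ‖ := lt_of_lt_of_le hσ (le_trans (le_abs_self _) (Complex.abs_re_le_norm ℓ))
    have hlpos : 0 < ‖lm ℓ‖ := by linarith
    have hN0 : 0 < N := by linarith
    have hR : 2 / N ≤ 1 / 50 := by
      rw [div_le_div_iff₀ hN0 (by norm_num)]
      linarith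
    have hl1 : ‖lm ℓ‖ ≤ 1 := by linarith
    obtain ⟨a1, -, a3, a4, a5, -⟩ := hn A
    obtain ⟨c1, -, c3, c4, c5, -⟩ := hn (-C)
    have hmA : max 0 (A : ℝ) = A := max_eq_right (by linarith)
    have hmC : max 0 ((-C : ℤ) : ℝ) = 0 := by
      push_cast
      exact max_eq_left (by linarith)
    rw [hmA] at a4 a5
    rw [hmC] at c4 c5
    simp only [zero_mul, Real.exp_zero, mul_one] at c4 c5
    have hv : 0 ≤ (A : ℝ) * ℓ.re := mul_nonneg (by linarith) hσ.le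
    have hw : 0 ≤ (C : ℝ) * ℓ.re := mul_nonneg (by linarith) hσ.le
    have key : 1 / 1000 * (‖lm ℓ‖ + Real.sqrt ‖lm ℓ‖ *
        (‖Complex.exp (A * ℓ) - 1‖ + ‖Complex.exp ((-C : ℤ) * ℓ) - 1‖)) ≤
          ‖Complex.exp (A * ℓ) - 1 + (Complex.exp ((-C : ℤ) * ℓ) - 1)‖ ∧
        1 / 1000 * Real.exp (A * ℓ.re) * ‖lm ℓ‖ ≤
          ‖Complex.exp (A * ℓ) - 1 + (Complex.exp ((-C : ℤ) * ℓ) - 1)‖ := by
      rcases le_or_gt (3 / 2) ((A : ℝ) * ℓ.re) with h4 | h4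
      · have he : 4 ≤ Real.exp (A * ℓ.re) := by
          have g1 : Real.exp (1 + 1 / 2) ≤ Real.exp (A * ℓ.re) := Real.exp_le_exp.2 (by linarith)
          rw [Real.exp_add] at g1
          have g2 := Real.exp_one_gt_d9
          have g3 := Real.add_one_le_exp (1 / 2 : ℝ)
          nlinarith
        refine estx_one _ _ _ _ _ hl1 he a5 c5 (norm_nonneg _) (norm_nonneg _) ?_
        have g4 : Complex.exp (A * ℓ) = (Complex.exp (A * ℓ) - 1 +
            (Complex.exp ((-C : ℤ) * ℓ) - 1)) - (Complex.exp ((-C : ℤ) * ℓ) - 1) + 1 := by ring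
        have g5 : ‖Complex.exp (A * ℓ)‖ ≤ ‖Complex.exp (A * ℓ) - 1 +
            (Complex.exp ((-C : ℤ) * ℓ) - 1)‖ + ‖Complex.exp ((-C : ℤ) * ℓ) - 1‖ + 1 := by
          conv_lhs => rw [g4]
          refine le_trans (norm_add_le _ _) ?_
          rw [norm_one]
          exact add_le_add_left (norm_sub_le _ _) _
        rw [a3] at g5
        linarith
      · have hd : ℓ.im = ℓ.re := by
          refine hdiag ?_
          rw [lt_div_iff₀ hN0]
          nlinarith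
        have he : Real.exp (A * ℓ.re) ≤ 5 := by
          have g1 : Real.exp (A * ℓ.re) ≤ Real.exp (1 + 1 / 2) := Real.exp_le_exp.2 (by linarith)
          rw [Real.exp_add] at g1
          have g2 := Real.exp_one_lt_d9
          have g3 : Real.exp (1 / 2) ^ 2 = Real.exp 1 := by
            rw [← Real.exp_nat_mul]
            norm_num
          have g4 : Real.exp (1 / 2) ≤ 17 / 10 := by
            by_contra hh
            push Not at hh
            nlinarith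
          nlinarith [Real.exp_pos (1 / 2 : ℝ)]
        have hcast : ((-C : ℤ) : ℂ) = ((-(C : ℝ) : ℝ) : ℂ) := by push_cast; rfl
        have hcastA : ((A : ℤ) : ℂ) = (((A : ℝ)) : ℂ) := by push_cast; rfl
        have habsC : |((-C : ℤ) : ℝ)| = C := by
          push_cast
          rw [abs_neg, abs_of_nonneg (by linarith)]
        rw [habsC] at c4
        rw [abs_of_nonneg (by linarith : (0 : ℝ) ≤ A)] at a4
        refine estx_two _ _ _ _ _ ((A : ℝ) * ℓ.re) (min ((C : ℝ) * ℓ.re) 1) hlpos.le he ?_ ?_ ?_ ?_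
        · refine le_trans a4 ?_
          have g1 : (A : ℝ) * ‖ℓ‖ ≤ 3 / 2 * (A * ℓ.re) := by nlinarith
          calc (A : ℝ) * ‖ℓ‖ * Real.exp (A * ℓ.re) ≤ 3 / 2 * (A * ℓ.re) * 5 :=
                mul_le_mul g1 he (Real.exp_pos _).le (by linarith)
            _ = 15 / 2 * (A * ℓ.re) := by ring
        · rcases le_total ((C : ℝ) * ℓ.re) 1 with h5 | h5
          · rw [min_eq_left h5]
            nlinarith
          · rw [min_eq_right h5]
            linarith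
        · have := estx_low ℓ hd A C hv hw h4.le
          rw [hcast, hcastA]
          exact this
        · intro h5
          have := estx_small ℓ A C hne (by linarith) (by linarith) hnorm hlm1 hlm2 hl1 h5
          rw [hcast, hcastA]
          exact this
    exact estx_red _ _ _ _ ℓ _ _ hlpos a1 c1 hM key.1 key.2

end Pool.Agent.FB.U7
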