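import Pool.Agent.FB.U6.Defs

/-!
# FB/U7, module GROW: the growth of the bracket at infinity, without any condition on the signs of the
exponents (helper57, after the module SUM of FB/U6)
-/

set_option autoImplicit false

open Matrix LaurentPolynomial Pool.RU Pool.Agent.FB.U5 Pool.Agent.FB.U6

namespace Pool.Agent.FB.U7

/-! ### products of matrices with bounded entries -/

private theorem grow_mul {n : ℕ} {A B : Matrix (Fin n) (Fin n) ℂ} {a b : ℝ}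
    (hA : ∀ i j, ‖A i j‖ ≤ a) (hB : ∀ i j, ‖B i j‖ ≤ b) (ha : 0 ≤ a) (i j : Fin n) :
    ‖(A * B) i j‖ ≤ n * (a * b) := by
  rw [Matrix.mul_apply]
  refine (norm_sum_le _ _).trans ?_
  refine (Finset.sum_le_card_nsmul _ _ (a * b) fun k _ => ?_).trans_eq ?_
  · rw [norm_mul]
    exact mul_le_mul (hA i k) (hB k j) (norm_nonneg _) ha
  · rw [Finset.card_univ, Fintype.card_fin, nsmul_eq_mul]

/-- the sum of the exponents of growth of the blocks -/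
private def grow_sum (ex : ℤ × ℤ × ℤ → ℤ) (β : List (ℤ × ℤ × ℤ)) : ℤ := (β.map ex).sum

private theorem grow_sum_cons (ex : ℤ × ℤ × ℤ → ℤ) (t : ℤ × ℤ × ℤ) (β : List (ℤ × ℤ × ℤ)) :
    grow_sum ex (t :: β) = ex t + grow_sum ex β := by
  unfold grow_sum
  rw [List.map_cons, List.sum_cons]

private theorem grow_sum_nonneg (ex : ℤ × ℤ × ℤ → ℤ) (hex : ∀ t, 0 ≤ ex t)
    (β : List (ℤ × ℤ × ℤ)) : 0 ≤ grow_sum ex β := by
  induction β with
  | nil => exact le_refl _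
  | cons t β ih =>
    rw [grow_sum_cons]
    exact add_nonneg (hex t) ih

private theorem grow_prod {n : ℕ} (hn : (n : ℝ) ≤ 3) (ex : ℤ × ℤ × ℤ → ℤ)
    (T : ℂ × ℂ × ℂ → Matrix (Fin n) (Fin n) ℂ) (u : ℂ) (hu : 1 ≤ ‖u‖) (β : List (ℤ × ℤ × ℤ))
    (h : ∀ t ∈ β, ∀ i j, ‖T (wts u t) i j‖ ≤ 24 * ‖u‖ ^ ex t) (i j : Fin n) :
    ‖(((β.map (wts u)).map T).prod) i j‖ ≤ 72 ^ β.length * ‖u‖ ^ grow_sum ex β := by
  have hu0 : ‖u‖ ≠ 0 := (lt_of_lt_of_le one_pos hu).ne'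
  induction β generalizing i j with
  | nil =>
    rw [List.map_nil, List.map_nil, List.prod_nil, Matrix.one_apply]
    have h1 : grow_sum ex [] = 0 := rfl
    rw [h1, zpow_zero, List.length_nil, pow_zero, mul_one]
    split_ifs
    · rw [norm_one]
    · rw [norm_zero]
      exact zero_le_one
  | cons t β ih =>
    rw [List.map_cons, List.map_cons, List.prod_cons, grow_sum_cons, zpow_add₀ hu0,
      List.length_cons, pow_succ]
    have h0 : (0 : ℝ) ≤ 24 * ‖u‖ ^ ex t := by positivity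
    refine (grow_mul (h t List.mem_cons_self) (fun i j => ih
      (fun s hs => h s (List.mem_cons_of_mem _ hs)) i j) h0 i j).trans ?_
    have h1 : (n : ℝ) * (24 * ‖u‖ ^ ex t * (72 ^ β.length * ‖u‖ ^ grow_sum ex β)) ≤
        3 * (24 * ‖u‖ ^ ex t * (72 ^ β.length * ‖u‖ ^ grow_sum ex β)) :=
      mul_le_mul_of_nonneg_right hn (by positivity)
    refine h1.trans (le_of_eq ?_)
    ring

/-! ### the entries of a block -/

private theorem grow_ent {Q z c δ : ℂ} (hQ : 1 ≤ ‖Q‖) (hc : ‖c‖ ≤ ‖Q‖ + 2) (hδ : ‖δ‖ ≤ 1) :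
    ‖δ + (z - 1) / Q * c‖ ≤ 4 * (1 + ‖z‖) := by
  have hQ0 : 0 < ‖Q‖ := lt_of_lt_of_le one_pos hQ
  have h1 : ‖(z - 1) / Q * c‖ ≤ (1 + ‖z‖) * 3 := by
    rw [norm_mul, norm_div]
    have h2 : ‖z - 1‖ ≤ 1 + ‖z‖ := by
      have := norm_sub_le z 1
      rw [norm_one] at this
      linarith
    have h3 : ‖c‖ ≤ 3 * ‖Q‖ := by linarith
    calc ‖z - 1‖ / ‖Q‖ * ‖c‖ ≤ (1 + ‖z‖) / ‖Q‖ * (3 * ‖Q‖) := by gcongr
      _ = (1 + ‖z‖) * 3 := by field_simp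
  have h2 := norm_add_le δ ((z - 1) / Q * c)
  have h3 := norm_nonneg z
  linarith

private theorem grow_T3 (Q : ℂ) (hQ : 1 ≤ ‖Q‖) (t : ℂ × ℂ × ℂ) (i j : Fin 3) :
    ‖U5.T3 Q t i j‖ ≤ 4 * (1 + ‖t.2.2‖) * (1 + ‖t.1‖ + ‖t.2.1‖) := by
  unfold U5.T3
  rw [Matrix.mul_diagonal, Matrix.add_apply, Matrix.smul_apply, smul_eq_mul, norm_mul]
  have hx := norm_nonneg t.1
  have hy := norm_nonneg t.2.1
  refine mul_le_mul (grow_ent hQ ?_ ?_) ?_ (norm_nonneg _) (by positivity)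
  · have h1 : ‖Q - 2‖ ≤ ‖Q‖ + 2 := by
      have := norm_sub_le Q 2
      rw [Complex.norm_ofNat] at this
      exact this
    fin_cases i <;> fin_cases j <;>
      simp only [Matrix.of_apply, Matrix.cons_val', Matrix.cons_val_zero, Matrix.cons_val_one,
        Matrix.cons_val, Fin.zero_eta, Fin.mk_one, Fin.reduceFinMk, Fin.isValue, norm_one] <;>
      first
        | exact h1
        | linarith
  · rw [Matrix.one_apply]
    split_ifs
    · rw [norm_one]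
    · rw [norm_zero]
      exact zero_le_one
  · fin_cases j <;>
      simp only [Matrix.cons_val_zero, Matrix.cons_val_one,
        Matrix.cons_val, Fin.zero_eta, Fin.mk_one, Fin.reduceFinMk, Fin.isValue, norm_one] <;>
      linarith

private theorem grow_T2 (Q : ℂ) (hQ : 1 ≤ ‖Q‖) (t : ℂ × ℂ × ℂ) (W : ℝ) (hW : 1 ≤ W)
    (ht : ‖t.1 * t.2.1‖ ≤ W) (i j : Fin 2) :
    ‖U5.T2 Q t i j‖ ≤ 4 * (1 + ‖t.2.2‖) * W := by
  unfold U5.T2
  rw [Matrix.mul_diagonal, Matrix.add_apply, Matrix.smul_apply, smul_eq_mul, norm_mul]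
  refine mul_le_mul (grow_ent hQ ?_ ?_) ?_ (norm_nonneg _) (by positivity)
  · have h1 : ‖Q - 1‖ ≤ ‖Q‖ + 2 := by
      have := norm_sub_le Q 1
      rw [norm_one] at this
      linarith
    fin_cases i <;> fin_cases j <;>
      simp only [Matrix.of_apply, Matrix.cons_val', Matrix.cons_val_zero, Matrix.cons_val_one,
        Fin.zero_eta, Fin.mk_one, Fin.isValue, norm_one] <;>
      first
        | exact h1
        | linarith
  · rw [Matrix.one_apply]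
    split_ifs
    · rw [norm_one]
    · rw [norm_zero]
      exact zero_le_one
  · fin_cases j <;>
      simp only [Matrix.cons_val_zero, Matrix.cons_val_one,
        Fin.zero_eta, Fin.mk_one, Fin.isValue, norm_one] <;>
      first
        | exact ht
        | linarith

/-- one syllable -/
private theorem grow_b (u : ℂ) (hu : 1 ≤ ‖u‖) (b : ℤ) : 1 + ‖u ^ b‖ ≤ 2 * ‖u‖ ^ (max 0 b) := by
  have e2 : ‖u‖ ^ b ≤ ‖u‖ ^ (max 0 b) := zpow_le_zpow_right₀ hu (le_max_right _ _)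
  have e3 : 1 ≤ ‖u‖ ^ (max 0 b) := by
    have := zpow_le_zpow_right₀ hu (le_max_left 0 b)
    rwa [zpow_zero] at this
  rw [norm_zpow]
  linarith

/-- two syllables whose exponents are at most `E` -/
private theorem grow_ac (u : ℂ) (hu : 1 ≤ ‖u‖) (a c E : ℤ) (h0 : 0 ≤ E) (ha : a ≤ E) (hc : c ≤ E) :
    1 + ‖u ^ a‖ + ‖u ^ c‖ ≤ 3 * ‖u‖ ^ E := by
  have e2 : ‖u‖ ^ a ≤ ‖u‖ ^ E := zpow_le_zpow_right₀ hu ha
  have e2' : ‖u‖ ^ c ≤ ‖u‖ ^ E := zpow_le_zpow_right₀ hu hc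
  have e3 : 1 ≤ ‖u‖ ^ E := by
    have := zpow_le_zpow_right₀ hu h0
    rwa [zpow_zero] at this
  rw [norm_zpow, norm_zpow]
  linarith

/-- a block -/
private theorem grow_block (u : ℂ) (hu : 1 ≤ ‖u‖) (b E : ℤ) (W : ℝ) (hW0 : 0 ≤ W)
    (hW : W ≤ 3 * ‖u‖ ^ E) : 4 * (1 + ‖u ^ b‖) * W ≤ 24 * ‖u‖ ^ (max 0 b + E) := by
  have hu0 : ‖u‖ ≠ 0 := (lt_of_lt_of_le one_pos hu).ne'
  have h1 := grow_b u hu b
  have h3 : (1 + ‖u ^ b‖) * W ≤ 2 * ‖u‖ ^ (max 0 b) * (3 * ‖u‖ ^ E) :=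
    mul_le_mul h1 hW hW0 (by positivity)
  rw [zpow_add₀ hu0]
  linarith

/-- `Q` is not small -/
private theorem grow_Q (u : ℂ) (hu : 16 ≤ ‖u‖) : 1 ≤ ‖2 - u - u⁻¹‖ := by
  have hinv : ‖u⁻¹‖ ≤ 1 := by
    rw [norm_inv]
    exact inv_le_one_of_one_le₀ (by linarith)
  have h1 : u = 2 - u⁻¹ - (2 - u - u⁻¹) := by ring
  have h2 : ‖u‖ ≤ ‖(2 : ℂ) - u⁻¹‖ + ‖2 - u - u⁻¹‖ := by
    conv_lhs => rw [h1]
    exact norm_sub_le _ _
  have h3 := norm_sub_le (2 : ℂ) u⁻¹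
  rw [Complex.norm_ofNat] at h3
  linarith

/-- the growth of the bracket, for exponents `ex3` and `ex2` of growth of the blocks -/
private theorem grow_grow (u : ℂ) (hu : 16 ≤ ‖u‖) (ex3 ex2 : ℤ × ℤ × ℤ → ℤ) (hex : ∀ t, 0 ≤ ex3 t)
    (β : List (ℤ × ℤ × ℤ))
    (h3' : 1 ≤ ‖2 - u - u⁻¹‖ → ∀ t ∈ β, ∀ i j,
      ‖U5.T3 (2 - u - u⁻¹) (wts u t) i j‖ ≤ 24 * ‖u‖ ^ ex3 t)
    (h2' : 1 ≤ ‖2 - u - u⁻¹‖ → ∀ t ∈ β, ∀ i j,
      ‖U5.T2 (2 - u - u⁻¹) (wts u t) i j‖ ≤ 24 * ‖u‖ ^ ex2 t) :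
    ‖U5.EE (2 - u - u⁻¹) (β.map (wts u))‖ ≤
      22 * 72 ^ β.length * ‖u‖ ^ (max (grow_sum ex3 β) (grow_sum ex2 β) + 2) := by
  have hu1 : 1 ≤ ‖u‖ := by linarith
  have hu0 : 0 < ‖u‖ := by linarith
  have hQ1 : 1 ≤ ‖2 - u - u⁻¹‖ := grow_Q u hu
  set Q : ℂ := 2 - u - u⁻¹ with hQdef
  set R : ℝ := ‖u‖ with hR
  set S : ℤ := max (grow_sum ex3 β) (grow_sum ex2 β) with hS
  have hinv : ‖u⁻¹‖ ≤ 1 := by
    rw [norm_inv]
    exact inv_le_one_of_one_le₀ hu1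
  have hQ2 : ‖Q‖ ≤ 2 * R := by
    have h2 := norm_sub_le (2 - u) u⁻¹
    have h3 := norm_sub_le (2 : ℂ) u
    rw [Complex.norm_ofNat] at h3
    linarith
  have hS3 : R ^ grow_sum ex3 β ≤ R ^ S := zpow_le_zpow_right₀ hu1 (le_max_left _ _)
  have hS2 : R ^ grow_sum ex2 β ≤ R ^ S := zpow_le_zpow_right₀ hu1 (le_max_right _ _)
  have h3 : ∀ i j, ‖(((β.map (wts u)).map (U5.T3 Q)).prod) i j‖ ≤ 72 ^ β.length * R ^ S :=
    fun i j => (grow_prod (by norm_num) ex3 (U5.T3 Q) u hu1 β (h3' hQ1) i j).trans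
      (mul_le_mul_of_nonneg_left hS3 (by positivity))
  have h2 : ∀ i j, ‖(((β.map (wts u)).map (U5.T2 Q)).prod) i j‖ ≤ 72 ^ β.length * R ^ S :=
    fun i j => (grow_prod (by norm_num) ex2 (U5.T2 Q) u hu1 β (h2' hQ1) i j).trans
      (mul_le_mul_of_nonneg_left hS2 (by positivity))
  set B : ℝ := 72 ^ β.length * R ^ S with hB
  have hB1 : 1 ≤ B := by
    have e1 : (1 : ℝ) ≤ 72 ^ β.length := one_le_pow₀ (by norm_num)
    have hS0 : 0 ≤ S := (grow_sum_nonneg ex3 hex β).trans (le_max_left _ _)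
    have e2 : 1 ≤ R ^ S := by
      have := zpow_le_zpow_right₀ hu1 hS0
      rwa [zpow_zero] at this
    rw [hB]
    nlinarith
  have t3 : ‖(((β.map (wts u)).map (U5.T3 Q)).prod).trace‖ ≤ 3 * B := by
    rw [Matrix.trace_fin_three]
    refine (norm_add₃_le).trans ?_
    have := h3 0 0
    have := h3 1 1
    have := h3 2 2
    linarith
  have t2 : ‖(((β.map (wts u)).map (U5.T2 Q)).prod).trace‖ ≤ 2 * B := by
    rw [Matrix.trace_fin_two]
    refine (norm_add_le _ _).trans ?_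
    have := h2 0 0
    have := h2 1 1
    linarith
  have g1 : ‖Q ^ 2 - 3 * Q + 1‖ ≤ 4 * R ^ 2 + 6 * R + 1 := by
    refine (norm_add_le _ _).trans ?_
    rw [norm_one]
    have g2 := norm_sub_le (Q ^ 2) (3 * Q)
    rw [norm_pow, norm_mul, Complex.norm_ofNat] at g2
    have g3 : ‖Q‖ ^ 2 ≤ (2 * R) ^ 2 := by gcongr
    nlinarith
  have g4 : ‖(1 - Q) * (((β.map (wts u)).map (U5.T3 Q)).prod).trace‖ ≤ (1 + 2 * R) * (3 * B) := by
    rw [norm_mul]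
    have g5 := norm_sub_le (1 : ℂ) Q
    rw [norm_one] at g5
    exact mul_le_mul (by linarith) t3 (norm_nonneg _) (by positivity)
  have hfin : ‖U5.EE Q (β.map (wts u))‖ ≤
      (4 * R ^ 2 + 6 * R + 1) + (1 + 2 * R) * (3 * B) + 2 * B := by
    unfold U5.EE
    refine (norm_add_le _ _).trans (add_le_add ((norm_sub_le _ _).trans (add_le_add g1 g4)) t2)
  have hR1 : R ≤ R ^ 2 := by nlinarith
  have hRR : 1 ≤ R ^ 2 := by nlinarith
  rw [zpow_add₀ hu0.ne']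
  have e2 : R ^ (2 : ℤ) = R ^ 2 := by norm_cast
  rw [e2]
  have hgoal : (4 * R ^ 2 + 6 * R + 1) + (1 + 2 * R) * (3 * B) + 2 * B ≤ 22 * B * R ^ 2 := by
    have a1 : R ^ 2 ≤ B * R ^ 2 := by nlinarith
    have a2 : R * B ≤ R ^ 2 * B := by nlinarith
    have a3 : B ≤ R ^ 2 * B := by nlinarith
    nlinarith
  refine hfin.trans (hgoal.trans (le_of_eq ?_))
  rw [hB]
  ring

/-- **Module U7_GROW**: the growth of the bracket at infinity, for all words -/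
theorem thm_Grow : ∀ β : List (ℤ × ℤ × ℤ), ∃ M : ℝ, ∀ u : ℂ, 16 ≤ ‖u‖ →
    ‖U5.EE (2 - u - u⁻¹) (β.map (wts u))‖ ≤ M * ‖u‖ ^ (max (top β) (top2 β) + 2) := by
  intro β
  refine ⟨22 * 72 ^ β.length, fun u hu => ?_⟩
  have hu1 : 1 ≤ ‖u‖ := by linarith
  have hu0 : u ≠ 0 := by
    rintro rfl
    rw [norm_zero] at hu1
    linarith
  refine grow_grow u hu (fun t => max 0 t.2.2 + max 0 (max t.1 t.2.1))
    (fun t => max 0 t.2.2 + max 0 (t.1 + t.2.1))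
    (fun t => add_nonneg (le_max_left _ _) (le_max_left _ _)) β ?_ ?_
  · intro hQ t _ i j
    exact (grow_T3 _ hQ (wts u t) i j).trans
      (grow_block u hu1 t.2.2 _ _ (by positivity)
        (grow_ac u hu1 _ _ _ (le_max_left _ _) ((le_max_left _ _).trans (le_max_right _ _))
          ((le_max_right _ _).trans (le_max_right _ _))))
  · intro hQ t _ i j
    refine (grow_T2 _ hQ (wts u t) (3 * ‖u‖ ^ (max 0 (t.1 + t.2.1))) ?_ ?_ i j).trans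
      (grow_block u hu1 t.2.2 _ _ (by positivity) le_rfl)
    · have h1 : 1 ≤ ‖u‖ ^ (max 0 (t.1 + t.2.1)) := by
        have := zpow_le_zpow_right₀ hu1 (le_max_left 0 (t.1 + t.2.1))
        rwa [zpow_zero] at this
      linarith
    · show ‖u ^ t.1 * u ^ t.2.1‖ ≤ 3 * ‖u‖ ^ (max 0 (t.1 + t.2.1))
      rw [← zpow_add₀ hu0, norm_zpow]
      have h1 : ‖u‖ ^ (t.1 + t.2.1) ≤ ‖u‖ ^ (max 0 (t.1 + t.2.1)) :=
        zpow_le_zpow_right₀ hu1 (le_max_right _ _)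
      have h2 : 0 ≤ ‖u‖ ^ (max 0 (t.1 + t.2.1)) := by positivity
      linarith

end Pool.Agent.FB.U7
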