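import Pool.Agent.FB.U7.Defs

/-!
# FB/U7, module HASW: continuous arguments along a path
-/

set_option autoImplicit false

namespace Pool.Agent.FB.U7

private theorem hasw_one : HasW (fun _ => 1) 0 :=
  ⟨continuousOn_const, fun _ => 0, continuousOn_const, rfl, rfl, fun t _ =>
    ⟨one_ne_zero, by simp⟩⟩

private theorem hasw_mul (f g : ℝ → ℂ) (w w' : ℝ) (hf : HasW f w) (hg : HasW g w') :
    HasW (fun t => f t * g t) (w + w') := by
  obtain ⟨hfc, θ, hθ, h0, h2, h⟩ := hf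
  obtain ⟨hgc, θ', hθ', h0', h2', h'⟩ := hg
  refine ⟨hfc.mul hgc, fun t => θ t + θ' t, hθ.add hθ', ?_, ?_, fun t ht => ?_⟩
  · show θ 0 + θ' 0 = 0
    rw [h0, h0', add_zero]
  · show θ 2 + θ' 2 = w + w'
    rw [h2, h2']
  · obtain ⟨h3, h4⟩ := h t ht
    obtain ⟨h5, h6⟩ := h' t ht
    refine ⟨mul_ne_zero h3 h5, ?_⟩
    show f t * g t = (‖f t * g t‖ : ℂ) * Complex.exp (((θ t + θ' t : ℝ) : ℂ) * Complex.I)
    rw [norm_mul, Complex.ofReal_mul, Complex.ofReal_add, add_mul, Complex.exp_add]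
    calc f t * g t = ((‖f t‖ : ℂ) * Complex.exp ((θ t : ℂ) * Complex.I)) *
          ((‖g t‖ : ℂ) * Complex.exp ((θ' t : ℂ) * Complex.I)) := by rw [← h4, ← h6]
      _ = _ := by ring

private theorem hasw_div (f g : ℝ → ℂ) (w w' : ℝ) (hf : HasW f w) (hg : HasW g w') :
    HasW (fun t => f t / g t) (w - w') := by
  obtain ⟨hfc, θ, hθ, h0, h2, h⟩ := hf
  obtain ⟨hgc, θ', hθ', h0', h2', h'⟩ := hg
  refine ⟨hfc.div hgc (fun t ht => (h' t ht).1), fun t => θ t - θ' t, hθ.sub hθ', ?_, ?_,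
    fun t ht => ?_⟩
  · show θ 0 - θ' 0 = 0
    rw [h0, h0', sub_zero]
  · show θ 2 - θ' 2 = w - w'
    rw [h2, h2']
  · obtain ⟨h3, h4⟩ := h t ht
    obtain ⟨h5, h6⟩ := h' t ht
    refine ⟨div_ne_zero h3 h5, ?_⟩
    show f t / g t = (‖f t / g t‖ : ℂ) * Complex.exp (((θ t - θ' t : ℝ) : ℂ) * Complex.I)
    rw [norm_div, Complex.ofReal_div, Complex.ofReal_sub, sub_mul, Complex.exp_sub,
      div_mul_div_comm, ← h4, ← h6]

private theorem hasw_near (f : ℝ → ℂ) (hf : ContinuousOn f (Set.Icc 0 2))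
    (h : ∀ t ∈ Set.Icc (0 : ℝ) 2, 0 < (f t).re) (h0 : (f 0).im = 0) (h2 : (f 2).im = 0) :
    HasW f 0 := by
  have e0 : (0 : ℝ) ∈ Set.Icc (0 : ℝ) 2 := ⟨le_rfl, by norm_num⟩
  have e2 : (2 : ℝ) ∈ Set.Icc (0 : ℝ) 2 := ⟨by norm_num, le_rfl⟩
  refine ⟨hf, fun t => Complex.arg (f t), ?_, ?_, ?_, fun t ht => ?_⟩
  · intro t ht
    exact (Complex.continuousAt_arg (Or.inl (h t ht))).comp_continuousWithinAt (hf t ht)
  · exact Complex.arg_eq_zero_iff.2 ⟨(h 0 e0).le, h0⟩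
  · exact Complex.arg_eq_zero_iff.2 ⟨(h 2 e2).le, h2⟩
  · refine ⟨fun hc => ?_, (Complex.norm_mul_exp_arg_mul_I (f t)).symm⟩
    have h1 := h t ht
    rw [hc, Complex.zero_re] at h1
    exact lt_irrefl _ h1

private theorem hasw_concl (f : ℝ → ℂ) (w : ℝ) (hf : HasW f w)
    (h : ∀ t ∈ Set.Ioc (0 : ℝ) 2, 0 < (f t).re) : |w| < Real.pi / 2 := by
  obtain ⟨hfc, θ, hθ, h0, h2, h1⟩ := hf
  have hcos : ∀ t ∈ Set.Icc (0 : ℝ) 2, Real.cos (θ t) ≠ 0 := by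
    intro t ht
    rcases eq_or_lt_of_le ht.1 with h3 | h3
    · rw [← h3, h0, Real.cos_zero]
      exact one_ne_zero
    · intro hc
      have h4 := h t ⟨h3, ht.2⟩
      rw [(h1 t ht).2, Complex.re_ofReal_mul, Complex.exp_ofReal_mul_I_re, hc, mul_zero] at h4
      exact lt_irrefl _ h4
  by_contra hcon
  rw [not_lt, le_abs] at hcon
  have hpi := Real.pi_pos
  rcases hcon with hcon | hcon
  · obtain ⟨t, ht, hte⟩ := intermediate_value_Icc (by norm_num : (0 : ℝ) ≤ 2) hθ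
      (show Real.pi / 2 ∈ Set.Icc (θ 0) (θ 2) from ⟨by rw [h0]; linarith, by rw [h2]; exact hcon⟩)
    apply hcos t ht
    rw [hte, Real.cos_pi_div_two]
  · obtain ⟨t, ht, hte⟩ := intermediate_value_Icc' (by norm_num : (0 : ℝ) ≤ 2) hθ
      (show -(Real.pi / 2) ∈ Set.Icc (θ 2) (θ 0) from
        ⟨by rw [h2]; linarith, by rw [h0]; linarith⟩)
    apply hcos t ht
    rw [hte, Real.cos_neg, Real.cos_pi_div_two]

/-- **Module U7_HASW** -/
theorem thm_HasW : St_HasW where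
  one := hasw_one
  mul := hasw_mul
  div := hasw_div
  congr := by
    rintro f g w ⟨hfc, θ, hθ, h0, h2, h1⟩ hfg
    refine ⟨hfc.congr fun t ht => (hfg t ht).symm, θ, hθ, h0, h2, fun t ht => ?_⟩
    rw [← hfg t ht]
    exact h1 t ht
  near := hasw_near
  concl := hasw_concl

end Pool.Agent.FB.U7
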