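import Mathlib
import Pool.Agent.FB.U7.Defs

/-!
# FB/U7, module LOC: the local estimates (helper11)
-/

set_option autoImplicit false

open Matrix

namespace Pool.Agent.FB.U7

/-- the size of a vector is at most `r` -/
private def LNm (o r : ℝ) (p : ℂ × ℂ) : Prop := o * ‖p.1‖ ≤ r ∧ o * ‖p.2‖ ≤ r ∧ ‖p.1 + p.2‖ ≤ r

private theorem LNm_mono {o r r' : ℝ} {p : ℂ × ℂ} (h : LNm o r p) (hr : r ≤ r') : LNm o r' p :=
  ⟨h.1.trans hr, h.2.1.trans hr, h.2.2.trans hr⟩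

private theorem LNm_nonneg {o r : ℝ} {p : ℂ × ℂ} (h : LNm o r p) : 0 ≤ r :=
  (norm_nonneg _).trans h.2.2

/-- the vector `(1 + l A) d₁ + (1 + l C) d₂` -/
private theorem L_w {o r : ℝ} {l A C : ℂ} {d : ℂ × ℂ} (ho : o ^ 2 = ‖l‖) (ho0 : 0 ≤ o)
    (h : LNm o r d) : ‖(1 + l * A) * d.1 + (1 + l * C) * d.2‖ ≤ r * (1 + o * (‖A‖ + ‖C‖)) := by
  obtain ⟨h1, h2, h3⟩ := h
  have e : (1 + l * A) * d.1 + (1 + l * C) * d.2 = (d.1 + d.2) + (l * A * d.1 + l * C * d.2) := by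
    ring
  have e1 : ‖l * A * d.1‖ = (o * ‖A‖) * (o * ‖d.1‖) := by
    rw [norm_mul, norm_mul, ← ho]
    ring
  have e2 : ‖l * C * d.2‖ = (o * ‖C‖) * (o * ‖d.2‖) := by
    rw [norm_mul, norm_mul, ← ho]
    ring
  have e3 : (o * ‖A‖) * (o * ‖d.1‖) ≤ (o * ‖A‖) * r := by gcongr
  have e4 : (o * ‖C‖) * (o * ‖d.2‖) ≤ (o * ‖C‖) * r := by gcongr
  rw [e]
  calc ‖(d.1 + d.2) + (l * A * d.1 + l * C * d.2)‖
      ≤ ‖d.1 + d.2‖ + (‖l * A * d.1‖ + ‖l * C * d.2‖) :=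
        (norm_add_le _ _).trans (by gcongr; exact norm_add_le _ _)
    _ ≤ r + ((o * ‖A‖) * r + (o * ‖C‖) * r) := by
        rw [e1, e2]
        gcongr
    _ = _ := by ring

/-- one component -/
private theorem L_x {o r : ℝ} {l A : ℂ} {z : ℂ} (ho : o ^ 2 = ‖l‖) (ho0 : 0 ≤ o) (ho1 : o ≤ 1)
    (h : o * ‖z‖ ≤ r) : o * ‖(1 + l * A) * z‖ ≤ r * (1 + o * ‖A‖) := by
  have hr : 0 ≤ r := (by positivity : 0 ≤ o * ‖z‖).trans h
  have e1 : ‖1 + l * A‖ ≤ 1 + o * ‖A‖ := by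
    calc ‖1 + l * A‖ ≤ ‖(1 : ℂ)‖ + ‖l * A‖ := norm_add_le _ _
      _ = 1 + o ^ 2 * ‖A‖ := by rw [norm_one, norm_mul, ho]
      _ ≤ 1 + o * ‖A‖ := by
        have : o ^ 2 ≤ o := by nlinarith
        gcongr
  calc o * ‖(1 + l * A) * z‖ = ‖1 + l * A‖ * (o * ‖z‖) := by
        rw [norm_mul]
        ring
    _ ≤ (1 + o * ‖A‖) * r := by gcongr
    _ = _ := by ring

/-- the constants -/
private structure LC (η M : ℝ) (l : ℂ) : Prop where
  η0 : 0 < η
  η1 : η ≤ 1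
  hM : 100 ≤ M * η ^ 2
  hlM : M * ‖l‖ ≤ 1

private theorem LC.Mp {η M : ℝ} {l : ℂ} (h : LC η M l) : 100 ≤ M := by
  have h1 := h.η0
  have h2 := h.η1
  have h3 := h.hM
  have h4 : η ^ 2 ≤ 1 := by nlinarith
  have h5 : 0 < η ^ 2 := by positivity
  by_contra hcon
  push Not at hcon
  rcases le_or_gt M 0 with h6 | h6
  · nlinarith
  · nlinarith

private theorem LC.hl {η M : ℝ} {l : ℂ} (h : LC η M l) : ‖l‖ ≤ 1 / M := by
  rw [le_div_iff₀ (by linarith [h.Mp])]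
  linarith [h.hlM]

/-- `1 / M` is small -/
private theorem LC.small {η M : ℝ} {l : ℂ} (h : LC η M l) : 100 * (1 / M) ≤ η ^ 2 := by
  have h1 := h.Mp
  rw [← mul_div_assoc, mul_one, div_le_iff₀ (by linarith)]
  linarith [h.hM]

/-- **one block** -/
private theorem L_block {η M : ℝ} {l : ℂ} {s p : ℂ × ℂ × ℂ} (hc : LC η M l) (hs : Ad η M l s)
    {q : ℂ × ℂ} (hp : LNm (Real.sqrt ‖l‖) (3 / η * (1 / M)) q) :
    s.2.2 ≠ 0 ∧ nu l s q ≠ 0 ∧ ‖nu l s q / (s.1 + s.2.1) - 1‖ ≤ 1 / 4 ∧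
      LNm (Real.sqrt ‖l‖) (3 / η * (1 / M)) (st l s q) ∧
      ∀ (r : ℝ) (d : ℂ × ℂ), LNm (Real.sqrt ‖l‖) r d →
        ‖((1 + l * s.1) * d.1 + (1 + l * s.2.1) * d.2) / nu l s q‖ ≤ 4 / (3 * η) * r ∧
        LNm (Real.sqrt ‖l‖) (1 / 16 * r) (Dn l s q 0 0 * d.1 + Dn l s q 0 1 * d.2,
          Dn l s q 1 0 * d.1 + Dn l s q 1 1 * d.2) := by
  obtain ⟨o, hod⟩ : ∃ o : ℝ, o = Real.sqrt ‖l‖ := ⟨_, rfl⟩
  have ho0 : 0 ≤ o := by rw [hod]; exact Real.sqrt_nonneg _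
  have ho : o ^ 2 = ‖l‖ := by rw [hod]; exact Real.sq_sqrt (norm_nonneg _)
  obtain ⟨h, hh⟩ : ∃ h : ℝ, h = 1 / M := ⟨_, rfl⟩
  have hM := hc.Mp
  have hη0 := hc.η0
  have hη1 := hc.η1
  have hsm := hc.small
  have hll := hc.hl
  rw [← hh] at hsm hll hp
  rw [← hod] at hp
  have hh0 : 0 < h := by rw [hh]; positivity
  have hη2 : η ^ 2 ≤ η := by nlinarith
  have hh1 : h ≤ 1 / 100 := by nlinarith
  have ho1 : o ≤ 1 := by
    by_contra hcon
    push Not at hcon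
    nlinarith
  obtain ⟨A, hA⟩ : ∃ A : ℂ, A = s.1 := ⟨_, rfl⟩
  obtain ⟨C, hC⟩ : ∃ C : ℂ, C = s.2.1 := ⟨_, rfl⟩
  obtain ⟨B, hB⟩ : ∃ B : ℂ, B = s.2.2 := ⟨_, rfl⟩
  have sB : M ≤ ‖B‖ := by rw [hB]; exact hs.B
  have sD : η * (1 + o * (‖A‖ + ‖C‖)) ≤ ‖A + C‖ := by rw [hA, hC, hod]; exact hs.D
  have hB0 : B ≠ 0 := by
    intro h0
    rw [h0, norm_zero] at sB
    linarith
  have hBi : ‖1 / B‖ ≤ h := by
    rw [norm_div, norm_one, hh]
    exact one_div_le_one_div_of_le (by linarith) sB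
  -- the size `W = 1 + o (|A| + |C|)`
  obtain ⟨W, hW⟩ : ∃ W : ℝ, W = 1 + o * (‖A‖ + ‖C‖) := ⟨_, rfl⟩
  have hW1 : 1 ≤ W := by
    rw [hW]
    have : 0 ≤ o * (‖A‖ + ‖C‖) := by positivity
    linarith
  rw [← hW] at sD
  obtain ⟨n, hn⟩ : ∃ n : ℂ, n = nu l s q := ⟨_, rfl⟩
  have hn' : n = (A + C) + (-(1 / B) - l + ((1 + l * A) * q.1 + (1 + l * C) * q.2)) := by
    rw [hn, hA, hC, hB]
    unfold nu
    ring
  have hw := L_w (A := A) (C := C) ho ho0 hp
  rw [← hW] at hw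
  have hnD : ‖n - (A + C)‖ ≤ 1 / 4 * ‖A + C‖ := by
    have e1 : n - (A + C) = (-(1 / B) - l) + ((1 + l * A) * q.1 + (1 + l * C) * q.2) := by
      rw [hn']
      ring
    rw [e1]
    have e2 : ‖-(1 / B) - l‖ ≤ h + h := by
      refine (norm_sub_le _ _).trans ?_
      rw [norm_neg]
      exact add_le_add hBi hll
    have e3 : ‖(-(1 / B) - l) + ((1 + l * A) * q.1 + (1 + l * C) * q.2)‖ ≤
        (h + h) + 3 / η * h * W := (norm_add_le _ _).trans (add_le_add e2 hw)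
    refine e3.trans ?_
    have e4 : (h + h) + 3 / η * h * W ≤ 5 / η * h * W := by
      have e5 : h + h ≤ 2 / η * h * W := by
        have e6 : 1 ≤ 1 / η := by
          rw [le_div_iff₀ hη0]
          linarith
        have e7 : h + h = 2 * 1 * h * 1 := by ring
        have e8 : (2 / η * h * W : ℝ) = 2 * (1 / η) * h * W := by ring
        rw [e7, e8]
        gcongr
      have e9 : (5 / η * h * W : ℝ) = 2 / η * h * W + 3 / η * h * W := by ring
      linarith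
    refine e4.trans ?_
    have e6 : 5 / η * h * W ≤ 1 / 4 * (η * W) := by
      have e7 : 5 / η * h ≤ 1 / 4 * η := by
        rw [div_mul_eq_mul_div, div_le_iff₀ hη0]
        nlinarith
      calc 5 / η * h * W ≤ 1 / 4 * η * W := by gcongr
        _ = _ := by ring
    linarith
  have hDp : 0 < ‖A + C‖ := by
    have : 0 < η * W := by positivity
    linarith
  have hD0 : A + C ≠ 0 := norm_pos_iff.1 hDp
  have hnl : 3 / 4 * ‖A + C‖ ≤ ‖n‖ := by
    have := norm_sub_norm_le (A + C) n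
    rw [norm_sub_rev] at this
    linarith
  have hnl2 : 3 / 4 * (η * W) ≤ ‖n‖ := by linarith
  have hnp : 0 < ‖n‖ := by
    have : 0 < η * W := by positivity
    linarith
  have hn0 : n ≠ 0 := norm_pos_iff.1 hnp
  -- `W / |n|`
  have hWn : W / ‖n‖ ≤ 4 / (3 * η) := by
    rw [div_le_div_iff₀ hnp (by positivity)]
    linarith
  have hratio : ‖n / (A + C) - 1‖ ≤ 1 / 4 := by
    have e1 : n / (A + C) - 1 = (n - (A + C)) / (A + C) := by
      field_simp
    rw [e1, norm_div, div_le_iff₀ hDp]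
    exact hnD
  have hηi : 1 ≤ 1 / η := by
    rw [le_div_iff₀ hη0]
    linarith
  -- the new state
  obtain ⟨s1, hs1⟩ : ∃ z : ℂ, z = (st l s q).1 := ⟨_, rfl⟩
  obtain ⟨s2, hs2⟩ : ∃ z : ℂ, z = (st l s q).2 := ⟨_, rfl⟩
  have es1 : s1 = -(A + (1 + l * A) * q.1) / (B * n) := by
    rw [hs1, hn, hA, hB]
    rfl
  have es2 : s2 = -(C + (1 + l * C) * q.2) / (B * n) := by
    rw [hs2, hn, hC, hB]
    rfl
  have esum : 1 / B + (s1 + s2) = -((1 / B + l) / (B * n)) := by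
    have e1 : A + (1 + l * A) * q.1 + (C + (1 + l * C) * q.2) = n + 1 / B + l := by
      rw [hn']
      ring
    rw [es1, es2, ← add_div]
    have e2 : -(A + (1 + l * A) * q.1) + -(C + (1 + l * C) * q.2) = -(n + 1 / B + l) := by
      rw [← e1]
      ring
    rw [e2]
    field_simp
    ring
  have comp : ∀ (E : ℂ) (z : ℂ), o * ‖E‖ ≤ W - 1 → o * ‖z‖ ≤ 3 / η * h →
      o * ‖-(E + (1 + l * E) * z) / (B * n)‖ ≤ 2 / η * h := by
    intro E z hE hz
    have e1 := L_x (A := E) ho ho0 ho1 hz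
    have e2 : o * ‖E + (1 + l * E) * z‖ ≤ (W - 1) + 3 / η * h * W := by
      calc o * ‖E + (1 + l * E) * z‖ ≤ o * (‖E‖ + ‖(1 + l * E) * z‖) := by
            gcongr
            exact norm_add_le _ _
        _ = o * ‖E‖ + o * ‖(1 + l * E) * z‖ := by ring
        _ ≤ (W - 1) + 3 / η * h * (1 + o * ‖E‖) := by gcongr
        _ ≤ _ := by
          have : 1 + o * ‖E‖ ≤ W := by linarith
          gcongr
    have e3 : (3 / η * h : ℝ) ≤ 1 / 2 := by
      rw [div_mul_eq_mul_div, div_le_iff₀ hη0]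
      nlinarith
    have e4 : (W - 1) + 3 / η * h * W ≤ 3 / 2 * W := by nlinarith
    rw [norm_div, norm_neg, norm_mul, ← mul_div_assoc]
    have hBp : 0 < ‖B‖ := by linarith
    rw [div_le_iff₀ (by positivity)]
    have e5 : 3 / 2 * W ≤ 2 / η * ‖n‖ := by
      rw [div_mul_eq_mul_div 2 η ‖n‖, le_div_iff₀ hη0]
      linarith
    have e6 : 1 ≤ h * ‖B‖ := by
      rw [hh, one_div, inv_mul_eq_div, le_div_iff₀ (by linarith)]
      linarith
    calc o * ‖E + (1 + l * E) * z‖ ≤ 3 / 2 * W := e2.trans e4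
      _ ≤ 2 / η * ‖n‖ := e5
      _ = 2 / η * ‖n‖ * 1 := by ring
      _ ≤ 2 / η * ‖n‖ * (h * ‖B‖) := by gcongr
      _ = _ := by ring
  have oA : o * ‖A‖ ≤ W - 1 := by
    rw [hW]
    have : 0 ≤ o * ‖C‖ := by positivity
    nlinarith
  have oC : o * ‖C‖ ≤ W - 1 := by
    rw [hW]
    have : 0 ≤ o * ‖A‖ := by positivity
    nlinarith
  have c1 : o * ‖s1‖ ≤ 2 / η * h := by
    rw [es1]
    exact comp A q.1 oA hp.1
  have c2 : o * ‖s2‖ ≤ 2 / η * h := by
    rw [es2]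
    exact comp C q.2 oC hp.2.1
  have c3 : ‖1 / B + (s1 + s2)‖ ≤ 3 / η * h * h := by
    rw [esum, norm_neg, norm_div, norm_mul]
    have hBp : 0 < ‖B‖ := by linarith
    rw [div_le_iff₀ (by positivity)]
    have e1 : ‖1 / B + l‖ ≤ 2 * h := (norm_add_le _ _).trans (by linarith)
    have e6 : 1 ≤ h * ‖B‖ := by
      rw [hh, one_div, inv_mul_eq_div, le_div_iff₀ (by linarith)]
      linarith
    have e7 : 2 ≤ 3 / η * ‖n‖ := by
      rw [div_mul_eq_mul_div, le_div_iff₀ hη0]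
      nlinarith
    calc ‖1 / B + l‖ ≤ 2 * h := e1
      _ ≤ (3 / η * ‖n‖) * h := by gcongr
      _ = (3 / η * ‖n‖) * h * 1 := by ring
      _ ≤ (3 / η * ‖n‖) * h * (h * ‖B‖) := by gcongr
      _ = _ := by ring
  have c4 : ‖s1 + s2‖ ≤ 3 / η * h := by
    have e1 : s1 + s2 = (1 / B + (s1 + s2)) - 1 / B := by ring
    rw [e1]
    have e2 : (3 / η * h * h : ℝ) ≤ 1 / 2 * h := by
      have : (3 / η * h : ℝ) ≤ 1 / 2 := by
        rw [div_mul_eq_mul_div, div_le_iff₀ hη0]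
        nlinarith
      gcongr
    have e3 : 2 * h ≤ 3 / η * h := by
      have : (2 : ℝ) ≤ 3 / η := by
        rw [le_div_iff₀ hη0]
        linarith
      gcongr
    calc ‖(1 / B + (s1 + s2)) - 1 / B‖ ≤ ‖1 / B + (s1 + s2)‖ + ‖1 / B‖ := norm_sub_le _ _
      _ ≤ 3 / η * h * h + h := add_le_add c3 hBi
      _ ≤ _ := by linarith
  have hst : LNm o (3 / η * h) (st l s q) := by
    have e1 : (2 / η * h : ℝ) ≤ 3 / η * h := by
      gcongr
      norm_num
    refine ⟨?_, ?_, ?_⟩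
    · rw [← hs1]
      exact c1.trans e1
    · rw [← hs2]
      exact c2.trans e1
    · rw [← hs1, ← hs2]
      exact c4
  rw [← hod, ← hh, ← hn, ← hA, ← hC, ← hB]
  refine ⟨hB0, hn0, hratio, hst, ?_⟩
  intro r d hd
  have hr : 0 ≤ r := LNm_nonneg hd
  have hwd := L_w (A := A) (C := C) ho ho0 hd
  rw [← hW] at hwd
  obtain ⟨w, hwdef⟩ : ∃ w : ℂ, w = (1 + l * A) * d.1 + (1 + l * C) * d.2 := ⟨_, rfl⟩
  rw [← hwdef] at hwd ⊢
  have w1 : ‖w / n‖ ≤ 4 / (3 * η) * r := by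
    rw [norm_div, div_le_iff₀ hnp]
    have : r * W ≤ 4 / (3 * η) * r * ‖n‖ := by
      have e1 : W ≤ 4 / (3 * η) * ‖n‖ := by
        rw [div_le_iff₀ hnp] at hWn
        exact hWn
      calc r * W ≤ r * (4 / (3 * η) * ‖n‖) := by gcongr
        _ = _ := by ring
    linarith
  refine ⟨w1, ?_⟩
  have d1 : Dn l s q 0 0 * d.1 + Dn l s q 0 1 * d.2 =
      -(1 / B * ((1 + l * A) * d.1 / n) + w / n * s1) := by
    rw [hwdef, hs1, hn, hA, hC, hB]
    simp only [Dn, Matrix.of_apply, Matrix.cons_val', Matrix.cons_val_zero, Matrix.cons_val_one,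
      Matrix.cons_val_fin_one]
    ring
  have d2 : Dn l s q 1 0 * d.1 + Dn l s q 1 1 * d.2 =
      -(1 / B * ((1 + l * C) * d.2 / n) + w / n * s2) := by
    rw [hwdef, hs2, hn, hA, hC, hB]
    simp only [Dn, Matrix.of_apply, Matrix.cons_val', Matrix.cons_val_zero, Matrix.cons_val_one,
      Matrix.cons_val_fin_one]
    ring
  have ww : ∀ (E z : ℂ), o * ‖E‖ ≤ W - 1 → o * ‖z‖ ≤ r →
      o * ‖(1 + l * E) * z / n‖ ≤ 4 / (3 * η) * r := by
    intro E z hE hz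
    have e1 := L_x (A := E) ho ho0 ho1 hz
    rw [norm_div, ← mul_div_assoc, div_le_iff₀ hnp]
    have e2 : W ≤ 4 / (3 * η) * ‖n‖ := by
      rw [div_le_iff₀ hnp] at hWn
      exact hWn
    calc o * ‖(1 + l * E) * z‖ ≤ r * (1 + o * ‖E‖) := e1
      _ ≤ r * W := by
        have : 1 + o * ‖E‖ ≤ W := by linarith
        gcongr
      _ ≤ r * (4 / (3 * η) * ‖n‖) := by gcongr
      _ = _ := by ring
  have k1 : 4 / (3 * η) * (3 / η * h) ≤ 1 / 25 := by
    have e1 : 4 / (3 * η) * (3 / η * h) = 4 * h / η ^ 2 := by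
      field_simp
    rw [e1, div_le_iff₀ (by positivity)]
    linarith
  have cc : ∀ (E z t : ℂ), o * ‖E‖ ≤ W - 1 → o * ‖z‖ ≤ r → o * ‖t‖ ≤ 2 / η * h →
      o * ‖-(1 / B * ((1 + l * E) * z / n) + w / n * t)‖ ≤ 1 / 16 * r := by
    intro E z t hE hz ht
    rw [norm_neg]
    calc o * ‖1 / B * ((1 + l * E) * z / n) + w / n * t‖
        ≤ o * (‖1 / B * ((1 + l * E) * z / n)‖ + ‖w / n * t‖) := by
          gcongr
          exact norm_add_le _ _
      _ = ‖1 / B‖ * (o * ‖(1 + l * E) * z / n‖) + ‖w / n‖ * (o * ‖t‖) := by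
          rw [norm_mul, norm_mul]
          ring
      _ ≤ h * (4 / (3 * η) * r) + (4 / (3 * η) * r) * (2 / η * h) := by
          have := ww E z hE hz
          gcongr
      _ = (4 / (3 * η)) * ((1 + 2 / η) * h) * r := by ring
      _ ≤ (4 / (3 * η)) * ((3 / η) * h) * r := by
          have e1 : 1 + 2 / η ≤ 3 / η := by
            have : 3 / η = 1 / η + 2 / η := by ring
            linarith
          gcongr
      _ ≤ 1 / 25 * r := by gcongr
      _ ≤ _ := by linarith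
  refine ⟨?_, ?_, ?_⟩
  · show o * ‖Dn l s q 0 0 * d.1 + Dn l s q 0 1 * d.2‖ ≤ _
    rw [d1]
    exact cc A d.1 s1 oA hd.1 c1
  · show o * ‖Dn l s q 1 0 * d.1 + Dn l s q 1 1 * d.2‖ ≤ _
    rw [d2]
    exact cc C d.2 s2 oC hd.2.1 c2
  · show ‖(Dn l s q 0 0 * d.1 + Dn l s q 0 1 * d.2) + (Dn l s q 1 0 * d.1 + Dn l s q 1 1 * d.2)‖ ≤ _
    have e1 : (Dn l s q 0 0 * d.1 + Dn l s q 0 1 * d.2) +
        (Dn l s q 1 0 * d.1 + Dn l s q 1 1 * d.2) = -(w / n * (1 / B + (s1 + s2))) := by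
      rw [d1, d2, hwdef]
      ring
    rw [e1, norm_neg, norm_mul]
    calc ‖w / n‖ * ‖1 / B + (s1 + s2)‖ ≤ (4 / (3 * η) * r) * (3 / η * h * h) := by gcongr
      _ = (4 / (3 * η) * (3 / η * h)) * h * r := by ring
      _ ≤ 1 / 25 * 1 * r := by gcongr; linarith
      _ ≤ _ := by linarith

/-- the matrix `DD` applied to a vector -/
private noncomputable def Lap (m : Matrix (Fin 2) (Fin 2) ℂ) (d : ℂ × ℂ) : ℂ × ℂ :=
  (m 0 0 * d.1 + m 0 1 * d.2, m 1 0 * d.1 + m 1 1 * d.2)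

private theorem Lap_mul (m m' : Matrix (Fin 2) (Fin 2) ℂ) (d : ℂ × ℂ) :
    Lap (m * m') d = Lap m (Lap m' d) := by
  unfold Lap
  rw [Prod.mk.injEq]
  simp only [Matrix.mul_apply, Fin.sum_univ_two]
  constructor <;> ring

/-- **lists, `T3`** -/
private theorem L_list {η M : ℝ} {l : ℂ} (hc : LC η M l) : ∀ L : List (ℂ × ℂ × ℂ),
    (∀ s ∈ L, Ad η M l s) →
    LNm (Real.sqrt ‖l‖) (3 / η * (1 / M)) (orb l L) ∧
      (∀ (r : ℝ) (d : ℂ × ℂ), LNm (Real.sqrt ‖l‖) r d →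
        LNm (Real.sqrt ‖l‖) ((1 / 16) ^ L.length * r) (Lap (DD l L) d) ∧
        ‖(row l L).1 * d.1 + (row l L).2 * d.2‖ ≤
          4 / (3 * η) * r * (16 / 15 * (1 - (1 / 16) ^ L.length)))
  | [], _ => by
    have hη0 := hc.η0
    have hM := hc.Mp
    refine ⟨?_, ?_⟩
    · have : (0 : ℝ) ≤ 3 / η * (1 / M) := by positivity
      refine ⟨?_, ?_, ?_⟩ <;> simpa [orb] using this
    · intro r d hd
      refine ⟨?_, ?_⟩
      · simpa [DD, Lap] using hd
      · simp [row]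
  | s :: L, h => by
    obtain ⟨h1, h2⟩ := L_list hc L fun t ht => h t (List.mem_cons_of_mem _ ht)
    have hη0 := hc.η0
    obtain ⟨b1, b2, b3, b4, b5⟩ := L_block (p := s) hc (h s List.mem_cons_self) h1
    refine ⟨b4, ?_⟩
    intro r d hd
    obtain ⟨e1, e2⟩ := h2 r d hd
    obtain ⟨e3, e4⟩ := b5 _ _ e1
    have hr : 0 ≤ r := LNm_nonneg hd
    refine ⟨?_, ?_⟩
    · have e5 : DD l (s :: L) = Dn l s (orb l L) * DD l L := rfl
      rw [e5, Lap_mul, List.length_cons, pow_succ']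
      have e6 : (1 / 16 : ℝ) * (1 / 16) ^ L.length * r = 1 / 16 * ((1 / 16) ^ L.length * r) := by ring
      rw [e6]
      exact e4
    · have e5 : (row l (s :: L)).1 * d.1 + (row l (s :: L)).2 * d.2 =
          ((row l L).1 * d.1 + (row l L).2 * d.2) +
          ((1 + l * s.1) * (Lap (DD l L) d).1 + (1 + l * s.2.1) * (Lap (DD l L) d).2) /
            nu l s (orb l L) := by
        simp only [row, Lap]
        ring
      rw [e5, List.length_cons, pow_succ']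
      have e6 : ‖((1 + l * s.1) * (Lap (DD l L) d).1 + (1 + l * s.2.1) * (Lap (DD l L) d).2) /
            nu l s (orb l L)‖ ≤ 4 / (3 * η) * ((1 / 16) ^ L.length * r) := e3
      refine (norm_add_le _ _).trans ((add_le_add e2 e6).trans (le_of_eq ?_))
      ring

/-- **one block, `T2`** -/
private theorem L_block2 {η M : ℝ} {l : ℂ} {s : ℂ × ℂ × ℂ} (hc : LC η M l) (hs : Ad η M l s)
    {g : ℂ} (hg : ‖g‖ ≤ 2 * (1 / M)) :
    nu2 l s g ≠ 0 ∧ ‖nu2 l s g / U l s - 1‖ ≤ 1 / 4 ∧ ‖st2 l s g‖ ≤ 2 * (1 / M) ∧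
      ‖(1 + l * U l s) / nu2 l s g‖ ≤ 8 / (3 * η) ∧ ‖dn2 l s g‖ ≤ 1 / 16 := by
  obtain ⟨h, hh⟩ : ∃ h : ℝ, h = 1 / M := ⟨_, rfl⟩
  have hM := hc.Mp
  have hη0 := hc.η0
  have hη1 := hc.η1
  have hsm := hc.small
  have hll := hc.hl
  rw [← hh] at hsm hll hg
  have hh0 : 0 < h := by rw [hh]; positivity
  have hη2 : η ^ 2 ≤ η := by nlinarith
  have hh1 : h ≤ 1 / 100 := by nlinarith
  obtain ⟨V, hV⟩ : ∃ V : ℂ, V = U l s := ⟨_, rfl⟩
  obtain ⟨B, hB⟩ : ∃ B : ℂ, B = s.2.2 := ⟨_, rfl⟩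
  have sB : M ≤ ‖B‖ := by rw [hB]; exact hs.B
  have sU : η ≤ ‖V‖ := by rw [hV]; exact hs.U
  have hB0 : B ≠ 0 := by
    intro h0
    rw [h0, norm_zero] at sB
    linarith
  have hBp : 0 < ‖B‖ := by linarith
  have hBi : ‖1 / B‖ ≤ h := by
    rw [norm_div, norm_one, hh]
    exact one_div_le_one_div_of_le (by linarith) sB
  have hVp : 0 < ‖V‖ := by linarith
  have hV0 : V ≠ 0 := norm_pos_iff.1 hVp
  obtain ⟨n, hn⟩ : ∃ n : ℂ, n = nu2 l s g := ⟨_, rfl⟩
  have hn' : n = V + (-(1 / B) - l + (1 + l * V) * g) := by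
    rw [hn, hV, hB]
    unfold nu2
    ring
  have hx : ‖1 + l * V‖ ≤ 2 / η * ‖V‖ := by
    have e1 : ‖1 + l * V‖ ≤ 1 + ‖V‖ := by
      calc ‖1 + l * V‖ ≤ ‖(1 : ℂ)‖ + ‖l * V‖ := norm_add_le _ _
        _ = 1 + ‖l‖ * ‖V‖ := by rw [norm_one, norm_mul]
        _ ≤ 1 + 1 * ‖V‖ := by
          gcongr
          linarith
        _ = _ := by ring
    have e2 : 1 + ‖V‖ ≤ 2 / η * ‖V‖ := by
      rw [div_mul_eq_mul_div, le_div_iff₀ hη0]
      nlinarith
    linarith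
  have hnD : ‖n - V‖ ≤ 1 / 4 * ‖V‖ := by
    have e1 : n - V = (-(1 / B) - l) + (1 + l * V) * g := by
      rw [hn']
      ring
    rw [e1]
    have e2 : ‖-(1 / B) - l‖ ≤ h + h := by
      refine (norm_sub_le _ _).trans ?_
      rw [norm_neg]
      exact add_le_add hBi hll
    have e3 : ‖(1 + l * V) * g‖ ≤ 2 / η * ‖V‖ * (2 * h) := by
      rw [norm_mul]
      gcongr
    have e4 : h + h ≤ 1 / 50 * ‖V‖ := by nlinarith
    have e5 : 2 / η * ‖V‖ * (2 * h) ≤ 1 / 25 * ‖V‖ := by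
      have e6 : 2 / η * (2 * h) ≤ 1 / 25 := by
        rw [div_mul_eq_mul_div, div_le_iff₀ hη0]
        nlinarith
      calc 2 / η * ‖V‖ * (2 * h) = 2 / η * (2 * h) * ‖V‖ := by ring
        _ ≤ _ := by gcongr
    refine (norm_add_le _ _).trans ?_
    linarith
  have hnl : 3 / 4 * ‖V‖ ≤ ‖n‖ := by
    have := norm_sub_norm_le V n
    rw [norm_sub_rev] at this
    linarith
  have hnp : 0 < ‖n‖ := by linarith
  have hn0 : n ≠ 0 := norm_pos_iff.1 hnp
  have hratio : ‖n / V - 1‖ ≤ 1 / 4 := by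
    have e1 : n / V - 1 = (n - V) / V := by
      field_simp
    rw [e1, norm_div, div_le_iff₀ hVp]
    exact hnD
  have hxn : ‖(1 + l * V) / n‖ ≤ 8 / (3 * η) := by
    rw [norm_div, div_le_iff₀ hnp]
    refine hx.trans ?_
    have e1 : 2 / η * ‖V‖ ≤ 2 / η * (4 / 3 * ‖n‖) := by
      gcongr
      linarith
    refine e1.trans (le_of_eq ?_)
    field_simp
    ring
  obtain ⟨t, ht⟩ : ∃ z : ℂ, z = st2 l s g := ⟨_, rfl⟩
  have et : t = -(V + (1 + l * V) * g) / (B * n) := by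
    rw [ht, hn, hV, hB]
    rfl
  have esum : 1 / B + t = -((1 / B + l) / (B * n)) := by
    have e1 : V + (1 + l * V) * g = n + 1 / B + l := by
      rw [hn']
      ring
    rw [et, e1]
    field_simp
    ring
  have c3 : ‖1 / B + t‖ ≤ 3 / η * h * h := by
    rw [esum, norm_neg, norm_div, norm_mul]
    rw [div_le_iff₀ (by positivity)]
    have e1 : ‖1 / B + l‖ ≤ 2 * h := (norm_add_le _ _).trans (by linarith)
    have e6 : 1 ≤ h * ‖B‖ := by
      rw [hh, one_div, inv_mul_eq_div, le_div_iff₀ (by linarith)]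
      linarith
    have e7 : 2 ≤ 3 / η * ‖n‖ := by
      rw [div_mul_eq_mul_div, le_div_iff₀ hη0]
      linarith
    calc ‖1 / B + l‖ ≤ 2 * h := e1
      _ ≤ (3 / η * ‖n‖) * h := by gcongr
      _ = (3 / η * ‖n‖) * h * 1 := by ring
      _ ≤ (3 / η * ‖n‖) * h * (h * ‖B‖) := by gcongr
      _ = _ := by ring
  have c4 : ‖t‖ ≤ 2 * h := by
    have e1 : t = (1 / B + t) - 1 / B := by ring
    rw [e1]
    have e2 : (3 / η * h * h : ℝ) ≤ 1 / 2 * h := by
      have : (3 / η * h : ℝ) ≤ 1 / 2 := by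
        rw [div_mul_eq_mul_div, div_le_iff₀ hη0]
        nlinarith
      gcongr
    calc ‖(1 / B + t) - 1 / B‖ ≤ ‖1 / B + t‖ + ‖1 / B‖ := norm_sub_le _ _
      _ ≤ 3 / η * h * h + h := add_le_add c3 hBi
      _ ≤ _ := by linarith
  rw [← hn, ← hV, ← hh, ← ht]
  refine ⟨hn0, hratio, c4, hxn, ?_⟩
  have e1 : dn2 l s g = -((1 + l * V) / n * (1 / B + t)) := by
    rw [hn, hV, hB, ht]
    unfold dn2
    ring
  rw [e1, norm_neg, norm_mul]
  calc ‖(1 + l * V) / n‖ * ‖1 / B + t‖ ≤ 8 / (3 * η) * (3 / η * h * h) := by gcongr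
    _ = (8 * h / η ^ 2) * h := by
        field_simp
    _ ≤ (8 / 100) * (1 / 100) := by
        have : 8 * h / η ^ 2 ≤ 8 / 100 := by
          rw [div_le_iff₀ (by positivity)]
          linarith
        gcongr
    _ ≤ _ := by norm_num

/-- **lists, `T2`** -/
private theorem L_list2 {η M : ℝ} {l : ℂ} (hc : LC η M l) : ∀ L : List (ℂ × ℂ × ℂ),
    (∀ s ∈ L, Ad η M l s) →
    ‖orb2 l L‖ ≤ 2 * (1 / M) ∧ ‖dd2 l L‖ ≤ (1 / 16) ^ L.length ∧
      ‖row2 l L‖ ≤ 8 / (3 * η) * (16 / 15 * (1 - (1 / 16) ^ L.length))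
  | [], _ => by
    have hM := hc.Mp
    refine ⟨?_, ?_, ?_⟩
    · have : (0 : ℝ) ≤ 2 * (1 / M) := by positivity
      simpa [orb2] using this
    · simp [dd2]
    · simp [row2]
  | s :: L, h => by
    obtain ⟨h1, h2, h3⟩ := L_list2 hc L fun t ht => h t (List.mem_cons_of_mem _ ht)
    have hη0 := hc.η0
    obtain ⟨b1, b2, b3, b4, b5⟩ := L_block2 hc (h s List.mem_cons_self) h1
    refine ⟨b3, ?_, ?_⟩
    · have e1 : dd2 l (s :: L) = dn2 l s (orb2 l L) * dd2 l L := rfl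
      rw [e1, norm_mul, List.length_cons, pow_succ']
      gcongr
    · have e1 : row2 l (s :: L) = row2 l L + (1 + l * U l s) / nu2 l s (orb2 l L) * dd2 l L := by
        simp only [row2]
        ring
      rw [e1, List.length_cons, pow_succ']
      have e2 : ‖(1 + l * U l s) / nu2 l s (orb2 l L) * dd2 l L‖ ≤
          8 / (3 * η) * (1 / 16) ^ L.length := by
        rw [norm_mul]
        gcongr
      refine (norm_add_le _ _).trans ((add_le_add h3 e2).trans (le_of_eq ?_))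
      ring

theorem thm_Loc : St_Loc := by
  intro η hη0 hη1
  refine ⟨100 / η ^ 2, ?_, ?_⟩
  · rw [le_div_iff₀ (by positivity)]
    nlinarith
  intro M hM l hl L hL
  have hc : LC η M l := ⟨hη0, hη1, by
    rw [div_le_iff₀ (by positivity)] at hM
    exact hM, hl⟩
  have hMp := hc.Mp
  have hsm := hc.small
  have hok : ∀ L' : List (ℂ × ℂ × ℂ), (∀ s ∈ L', Ad η M l s) → Ok l L' := by
    intro L'
    induction L' with
    | nil => intro _; trivial
    | cons s L' ih =>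
      intro h
      have h' : ∀ t ∈ L', Ad η M l t := fun t ht => h t (List.mem_cons_of_mem _ ht)
      obtain ⟨b1, b2, -⟩ := L_block (p := s) hc (h s List.mem_cons_self) (L_list hc L' h').1
      obtain ⟨b3, -⟩ := L_block2 hc (h s List.mem_cons_self) (L_list2 hc L' h').1
      exact ⟨b1, b2, b3, ih h'⟩
  refine ⟨hok L hL, ?_, ?_, ?_⟩
  · intro s L' hsuf
    have hmem : ∀ t ∈ s :: L', Ad η M l t := fun t ht => hL t (hsuf.subset ht)
    have h' : ∀ t ∈ L', Ad η M l t := fun t ht => hmem t (List.mem_cons_of_mem _ ht)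
    exact ⟨(L_block (p := s) hc (hmem s List.mem_cons_self) (L_list hc L' h').1).2.2.1,
      (L_block2 hc (hmem s List.mem_cons_self) (L_list2 hc L' h').1).2.1⟩
  · intro hne hl0
    obtain ⟨h1, h2⟩ := L_list hc L hL
    have hm : 1 ≤ L.length := List.length_pos_iff.2 hne
    have hp : (1 / 16 : ℝ) ^ L.length ≤ 1 / 16 := by
      have := pow_le_pow_of_le_one (show (0 : ℝ) ≤ 1 / 16 by norm_num) (by norm_num) hm
      rw [pow_one] at this
      exact this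
    have hp0 : (0 : ℝ) < (1 / 16 : ℝ) ^ L.length := by positivity
    -- the row
    have r1 := (h2 _ _ h1).2
    have r2 : 4 / (3 * η) * (3 / η * (1 / M)) * (16 / 15 * (1 - (1 / 16) ^ L.length)) ≤ 1 / 20 := by
      have e1 : 4 / (3 * η) * (3 / η * (1 / M)) ≤ 1 / 25 := by
        have e2 : 4 / (3 * η) * (3 / η * (1 / M)) = 4 * (1 / M) / η ^ 2 := by
          field_simp
        rw [e2, div_le_iff₀ (by positivity)]
        linarith
      have e3 : (16 / 15 * (1 - (1 / 16) ^ L.length) : ℝ) ≤ 16 / 15 := by linarith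
      have e4 : (0 : ℝ) ≤ 16 / 15 * (1 - (1 / 16) ^ L.length) := by
        have : (0 : ℝ) ≤ 1 - (1 / 16) ^ L.length := by linarith
        positivity
      calc 4 / (3 * η) * (3 / η * (1 / M)) * (16 / 15 * (1 - (1 / 16) ^ L.length))
          ≤ 1 / 25 * (16 / 15) := by gcongr
        _ ≤ _ := by norm_num
    -- the trace
    obtain ⟨o, ho⟩ : ∃ o : ℝ, o = Real.sqrt ‖l‖ := ⟨_, rfl⟩
    have hop : 0 < o := by
      rw [ho]
      exact Real.sqrt_pos.2 (norm_pos_iff.2 hl0)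
    have ho1 : o ≤ 1 := by
      rw [ho, Real.sqrt_le_one]
      have := hc.hl
      have : 1 / M ≤ 1 := by
        rw [div_le_one (by linarith)]
        linarith
      linarith
    have t1 := (h2 o (1, -1) (by
      rw [← ho]
      refine ⟨?_, ?_, ?_⟩
      · simp
      · simp
      · simp [hop.le])).1.1
    have t2 := (h2 1 (0, 1) (by
      rw [← ho]
      refine ⟨?_, ?_, ?_⟩
      · simp
      · simpa using ho1
      · simp)).1.2.2
    rw [← ho] at t1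
    have t3 : ‖DD l L 0 0 - DD l L 0 1‖ ≤ (1 / 16) ^ L.length := by
      have e1 : (Lap (DD l L) (1, -1)).1 = DD l L 0 0 - DD l L 0 1 := by
        simp only [Lap]
        ring
      rw [e1] at t1
      have e2 : o * ‖DD l L 0 0 - DD l L 0 1‖ ≤ o * (1 / 16) ^ L.length := by linarith
      exact le_of_mul_le_mul_left e2 hop
    have t4 : ‖DD l L 0 1 + DD l L 1 1‖ ≤ (1 / 16) ^ L.length := by
      have e1 : (Lap (DD l L) (0, 1)).1 + (Lap (DD l L) (0, 1)).2 = DD l L 0 1 + DD l L 1 1 := by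
        simp only [Lap]
        ring
      rw [e1, mul_one] at t2
      exact t2
    have t5 : ‖(DD l L).trace‖ ≤ 1 / 8 := by
      have e1 : (DD l L).trace = (DD l L 0 0 - DD l L 0 1) + (DD l L 0 1 + DD l L 1 1) := by
        rw [Matrix.trace_fin_two]
        ring
      rw [e1]
      refine (norm_add_le _ _).trans ?_
      linarith
    unfold rho3
    refine (norm_add_le _ _).trans ?_
    linarith
  · intro hne
    obtain ⟨h1, h2, h3⟩ := L_list2 hc L hL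
    have hm : 1 ≤ L.length := List.length_pos_iff.2 hne
    have hp : (1 / 16 : ℝ) ^ L.length ≤ 1 / 16 := by
      have := pow_le_pow_of_le_one (show (0 : ℝ) ≤ 1 / 16 by norm_num) (by norm_num) hm
      rw [pow_one] at this
      exact this
    have hp0 : (0 : ℝ) < (1 / 16 : ℝ) ^ L.length := by positivity
    unfold rho2
    refine (norm_add_le _ _).trans ?_
    rw [norm_mul]
    have e3 : (16 / 15 * (1 - (1 / 16) ^ L.length) : ℝ) ≤ 16 / 15 := by linarith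
    have e4 : ‖row2 l L‖ ≤ 8 / (3 * η) * (16 / 15) := h3.trans (by gcongr)
    have e5 : ‖row2 l L‖ * ‖orb2 l L‖ ≤ 8 / (3 * η) * (16 / 15) * (2 * (1 / M)) := by gcongr
    have e6 : 8 / (3 * η) * (16 / 15) * (2 * (1 / M)) ≤ 1 / 10 := by
      have e7 : 8 / (3 * η) * (16 / 15) * (2 * (1 / M)) = (256 / 45 * (1 / M)) / η := by
        field_simp
        ring
      rw [e7, div_le_iff₀ hη0]
      nlinarith
    linarith

end Pool.Agent.FB.U7
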