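import Pool.Agent.FB.U7.Defs

/-!
# FB/U7, module SIM: the scaled blocks are conjugate to the blocks of `U5`
-/

set_option autoImplicit false

open Matrix

namespace Pool.Agent.FB.U7

/-- the change of basis for `T3` -/
private noncomputable def sim_S3 (l : ℂ) : Matrix (Fin 3) (Fin 3) ℂ := !![1, l, 0; 1, 0, l; 1, 0, 0]

/-- the change of basis for `T2` -/
private noncomputable def sim_S2 (l : ℂ) : Matrix (Fin 2) (Fin 2) ℂ := !![1, l; 1, 0]

private lemma sim_comm3 (l : ℂ) (hl : l ≠ 0) (s : ℂ × ℂ × ℂ) :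
    U5.T3 (-l ^ 2) (wt l s) * sim_S3 l = sim_S3 l * M3 l s := by
  obtain ⟨a, c, b⟩ := s
  obtain ⟨w, rfl⟩ : ∃ w, b = l * w := ⟨b / l, by field_simp⟩
  have h : (1 + l * (l * w) - 1) / (-l ^ 2) = -w := by field_simp; ring
  unfold U5.T3 wt sim_S3 M3
  simp only [h]
  ext i j
  fin_cases i <;> fin_cases j <;> simp [Matrix.mul_apply, Fin.sum_univ_three] <;> ring

private lemma sim_comm2 (l : ℂ) (hl : l ≠ 0) (s : ℂ × ℂ × ℂ) :
    U5.T2 (-l ^ 2) (wt l s) * sim_S2 l = sim_S2 l * M2 l s := by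
  obtain ⟨a, c, b⟩ := s
  obtain ⟨w, rfl⟩ : ∃ w, b = l * w := ⟨b / l, by field_simp⟩
  have h : (1 + l * (l * w) - 1) / (-l ^ 2) = -w := by field_simp; ring
  unfold U5.T2 wt sim_S2 M2 U
  simp only [h]
  ext i j
  fin_cases i <;> fin_cases j <;> simp [Matrix.mul_apply, Fin.sum_univ_two] <;> ring

/-- conjugate lists have the same trace -/
private lemma sim_trace {n : ℕ} (S S' : Matrix (Fin n) (Fin n) ℂ) (hS : S' * S = 1)
    (F G : ℂ × ℂ × ℂ → Matrix (Fin n) (Fin n) ℂ) (h : ∀ s, F s * S = S * G s)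
    (L : List (ℂ × ℂ × ℂ)) : (L.map G).prod.trace = (L.map F).prod.trace := by
  have h1 : ∀ L : List (ℂ × ℂ × ℂ), (L.map F).prod * S = S * (L.map G).prod := by
    intro L
    induction L with
    | nil => simp
    | cons s L ih =>
      rw [List.map_cons, List.map_cons, List.prod_cons, List.prod_cons, Matrix.mul_assoc, ih,
        ← Matrix.mul_assoc, h, Matrix.mul_assoc]
  have h2 : (L.map G).prod = S' * ((L.map F).prod * S) := by
    rw [h1, ← Matrix.mul_assoc, hS, Matrix.one_mul]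
  have h3 : S * S' = 1 := mul_eq_one_comm.1 hS
  rw [h2, Matrix.trace_mul_comm, Matrix.mul_assoc, h3, Matrix.mul_one]

/-- **Module U7_SIM** -/
theorem thm_Sim : St_Sim := by
  intro l L hl
  constructor
  · have h := sim_trace (sim_S3 l) !![0, 0, 1; l⁻¹, 0, -l⁻¹; 0, l⁻¹, -l⁻¹] (by
      unfold sim_S3
      ext i j
      fin_cases i <;> fin_cases j <;> simp [Matrix.mul_apply, Fin.sum_univ_succ, hl])
      (fun s => U5.T3 (-l ^ 2) (wt l s)) (M3 l) (sim_comm3 l hl) L
    rw [h, List.map_map]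
    rfl
  · have h := sim_trace (sim_S2 l) !![0, 1; l⁻¹, -l⁻¹] (by
      unfold sim_S2
      ext i j
      fin_cases i <;> fin_cases j <;> simp [Matrix.mul_apply, Fin.sum_univ_succ, hl])
      (fun s => U5.T2 (-l ^ 2) (wt l s)) (M2 l) (sim_comm2 l hl) L
    rw [h, List.map_map]
    rfl

end Pool.Agent.FB.U7
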