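import Pool.Agent.FB.U7.WIND
import Pool.Agent.FB.U7.ALG
import Pool.Agent.FB.U7.SIM
import Pool.Agent.FB.U7.LOC
import Pool.Agent.FB.U7.BASE
import Pool.Agent.FB.U7.ESTX
import Pool.Agent.FB.U7.ESTP
import Pool.Agent.FB.U7.EASM
import Pool.Agent.FB.U7.HASW
import Pool.Agent.FB.U7.ARG
import Pool.Agent.FB.U7.ARGX
import Pool.Agent.FB.U7.ARGP
import Pool.Agent.FB.U7.CONT
import Pool.Agent.FB.U7.GROW
import Pool.Agent.FB.U6.FIN

/-!
# FB/U7, FIN: closed 4-braids with long syllables, all sign patterns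
-/

set_option autoImplicit false

open Matrix Pool.RU

namespace Pool.Agent.FB.U7

open Pool.Agent.FB.U5 (sc top wts)
open Pool.Agent.FB.U6 (top2)

theorem thm_Est : St_Est := thm_EstAsm thm_Base (thm_EstX thm_Base) (thm_EstP thm_Base)

theorem thm_Arg' : St_Arg :=
  thm_Arg thm_Base thm_HasW (thm_ArgX thm_Base thm_HasW) (thm_ArgP thm_Base thm_HasW)

theorem thm_Wind' : St_Wind :=
  thm_Wind thm_Alg thm_Sim thm_Loc thm_Est thm_HasW thm_Arg' thm_Cont

/-- from the exponent `2 m - 1` to the exponent `m` -/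
theorem exp_down {N N₀ S : ℤ} {m : ℕ} (hm : 1 ≤ m) (hN₀ : 0 < N₀) (hN : N₀ ≤ N) (hS : 0 ≤ S)
    (h : N ^ (2 * m - 1) ≤ N₀ ^ (2 * m - 1) * S) : N ^ m ≤ N₀ ^ m * S := by
  have e : 2 * m - 1 = m + (m - 1) := by omega
  rw [e, pow_add, pow_add] at h
  have h1 : N₀ ^ (m - 1) ≤ N ^ (m - 1) := pow_le_pow_left₀ hN₀.le hN _
  have hp : 0 < N ^ (m - 1) := by
    have : 0 < N := by linarith
    positivity
  have h2 : N ^ m * N ^ (m - 1) ≤ (N₀ ^ m * S) * N ^ (m - 1) := by
    calc N ^ m * N ^ (m - 1) ≤ N₀ ^ m * N₀ ^ (m - 1) * S := h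
      _ = (N₀ ^ m * S) * N₀ ^ (m - 1) := by ring
      _ ≤ (N₀ ^ m * S) * N ^ (m - 1) := by gcongr
  exact le_of_mul_le_mul_right h2 hp

/-- **closed 4-braids with long syllables, all sign patterns** -/
theorem thm_FourBraids5 : St_FourBraids5 := by
  obtain ⟨N₁, hN₁, h1⟩ := U6.thm_FourBraids4
  obtain ⟨N₄, c, hN₄, hc, hW⟩ := thm_Wind'
  obtain ⟨N₂, hN₂⟩ := exists_nat_ge (N₄ + 1 / c)
  have hci : 0 < 1 / c := by positivity
  refine ⟨N₁ + N₂, by omega, ?_⟩
  intro N hN β hβ o ho
  obtain ⟨S, hS⟩ : ∃ S : ℤ, S = SPT.coeffSum ((closure β).normalized o) := ⟨_, rfl⟩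
  have hS0 : 0 ≤ S := by
    rw [hS]
    exact U5.coeffSum_nonneg _
  rw [← hS]
  obtain ⟨m, hm⟩ : ∃ m : ℕ, m = β.length := ⟨_, rfl⟩
  have hne : β ≠ [] := by
    obtain ⟨t, ht, -⟩ := hβ.2.1
    exact List.ne_nil_of_mem ht
  have hm1 : 1 ≤ m := by
    rw [hm]
    exact List.length_pos_iff.2 hne
  rw [← hm]
  have hNr : (N₂ : ℝ) ≤ N := by
    have : N₂ ≤ N := by omega
    exact_mod_cast this
  have hN2N : (0 : ℝ) < N := by linarith
  -- the proved classes
  have old : ((∀ t ∈ β, ¬ (0 < t.1 ∧ 0 < t.2.1)) ∨ (∀ t ∈ β, ¬ (t.1 < 0 ∧ t.2.1 < 0)) ∨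
      ∀ t ∈ β, 0 ≤ t.1 * t.2.1) → (N : ℤ) ^ m ≤ ((N₁ + N₂ : ℕ) : ℤ) ^ m * S := by
    intro h
    have h2 := h1 N (by omega) β ⟨hβ.1, hβ.2.1, hβ.2.2.1, h, hβ.2.2.2.2⟩ o ho
    rw [← hS, ← hm] at h2
    have h3 := exp_down (N₀ := (N₁ : ℤ)) hm1 (by exact_mod_cast hN₁)
      (by exact_mod_cast (by omega : N₁ ≤ N)) hS0 h2
    refine h3.trans ?_
    apply mul_le_mul_of_nonneg_right _ hS0
    apply pow_le_pow_left₀ (by positivity)
    push_cast
    have : (0 : ℤ) ≤ N₂ := by positivity
    linarith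
  rcases hβ.2.2.2.1 with h | h | h
  · -- no block `σ₁^a σ₃^-a`
    by_cases hbig : (N : ℤ) ^ m ≤ ((N₁ + N₂ : ℕ) : ℤ) ^ m * S
    · exact hbig
    · apply old
      right
      right
      push Not at hbig
      -- the size of `S`
      have hSr : (S : ℝ) ≤ (c * N) ^ m := by
        have e1 : (((N₁ + N₂ : ℕ) : ℝ)) ^ m * S ≤ (N : ℝ) ^ m := by
          have := hbig.le
          exact_mod_cast this
        have e2 : (1 / c) ^ m ≤ (((N₁ + N₂ : ℕ) : ℝ)) ^ m := by
          apply pow_le_pow_left₀ hci.le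
          push_cast
          have : (0 : ℝ) ≤ N₁ := by positivity
          linarith
        have hSr0 : (0 : ℝ) ≤ S := by exact_mod_cast hS0
        have e3 : (1 / c) ^ m * S ≤ (N : ℝ) ^ m :=
          (mul_le_mul_of_nonneg_right e2 hSr0).trans e1
        rw [one_div, inv_pow, inv_mul_le_iff₀ (by positivity)] at e3
        rw [mul_pow]
        exact e3
      have h1c : 1 ≤ c * N := by
        have : 1 / c ≤ N := by linarith
        rw [div_le_iff₀ hc] at this
        linarith
      have key : ∀ ε : ℤ, (ε = 1 ∨ ε = -1) → ∀ t ∈ β.map (sc ε),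
          ¬ (t.1 * t.2.1 < 0 ∧ t.1 + t.2.1 < 0) := by
        intro ε hε
        have ab : ∀ a : ℤ, |ε * a| = |a| := by
          intro a
          rcases hε with rfl | rfl <;> simp
        refine hW N (by linarith) (β.map (sc ε)) (by simpa using hne) ?_ (max 1 (S : ℝ))
          (le_max_left _ _) ?_ ?_
        · intro t ht
          obtain ⟨s, hs, rfl⟩ := List.mem_map.1 ht
          obtain ⟨a1, a2, a3, -⟩ := hβ.1 s hs
          have cast : ∀ a : ℤ, (N : ℤ) ≤ |a| → (N : ℝ) ≤ |((ε * a : ℤ) : ℝ)| := by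
            intro a ha
            rw [← ab a] at ha
            exact_mod_cast ha
          refine ⟨cast _ a1, ?_, ?_, ?_⟩
          · rcases a2 with a2 | a2
            · left
              show ε * s.1 = 0
              rw [a2, mul_zero]
            · exact Or.inr (cast _ a2)
          · rcases a3 with a3 | a3
            · left
              show ε * s.2.1 = 0
              rw [a3, mul_zero]
            · exact Or.inr (cast _ a3)
          · show ε * s.1 + ε * s.2.1 ≠ 0
            rw [← mul_add]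
            have := h s hs
            rcases hε with rfl | rfl
            · simpa using this
            · intro h0
              apply this
              linarith
        · rw [List.length_map, ← hm]
          exact max_le (one_le_pow₀ h1c) hSr
        · intro u hu hQ
          obtain ⟨M, hM⟩ := thm_Grow (β.map (sc ε))
          have h3 := U6.thm_SumGen β o ho ε hε M
            (max (top (β.map (sc ε))) (top2 (β.map (sc ε))) + 2) hM u hu hQ
          rw [← hS] at h3
          refine h3.trans ?_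
          have : (S : ℝ) ≤ max 1 (S : ℝ) := le_max_right _ _
          gcongr
      intro t ht
      by_contra hcon
      push Not at hcon
      have k1 := key 1 (Or.inl rfl) (sc 1 t) (List.mem_map_of_mem ht)
      have k2 := key (-1) (Or.inr rfl) (sc (-1) t) (List.mem_map_of_mem ht)
      have e1 : (sc 1 t).1 = t.1 ∧ (sc 1 t).2.1 = t.2.1 := by simp [sc]
      have e2 : (sc (-1) t).1 = -t.1 ∧ (sc (-1) t).2.1 = -t.2.1 := by simp [sc]
      rw [e1.1, e1.2] at k1
      rw [e2.1, e2.2] at k2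
      have h4 := h t ht
      rcases lt_or_gt_of_ne h4 with h5 | h5
      · exact k1 ⟨hcon, h5⟩
      · exact k2 ⟨by linarith, by linarith⟩
  · exact old (Or.inl h)
  · exact old (Or.inr (Or.inl h))

end Pool.Agent.FB.U7
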