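import Pool.Agent.FB.U7.Defs

/-!
# FB/U7/WIND: the number of half turns of `T3 / T2` along the path

(helper17)
-/

set_option autoImplicit false

open Matrix Pool.Agent.FB.U5 Pool.Agent.FB.U6

namespace Pool.Agent.FB.U7

/-- the blocks along the path -/
private noncomputable def W_L (N : ℝ) (β : List (ℤ × ℤ × ℤ)) (τ : ℝ) : List (ℂ × ℂ × ℂ) :=
  β.map (sb (pth (2 / N) τ))

private theorem W_L_cons (N : ℝ) (t : ℤ × ℤ × ℤ) (β : List (ℤ × ℤ × ℤ)) (τ : ℝ) :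
    W_L N (t :: β) τ = sb (pth (2 / N) τ) t :: W_L N β τ := rfl

private theorem W_L_ne (N : ℝ) {β : List (ℤ × ℤ × ℤ)} (hne : β ≠ []) (τ : ℝ) : W_L N β τ ≠ [] := by
  intro h
  exact hne (List.map_eq_nil_iff.1 h)

private theorem W_map (N : ℝ) (β : List (ℤ × ℤ × ℤ)) (τ : ℝ) :
    ((β.map fun t τ' => sb (pth (2 / N) τ') t).map fun s => s τ) = W_L N β τ := by
  rw [List.map_map]
  rfl

private theorem W_near1 {z : ℂ} (h : ‖z - 1‖ ≤ 1 / 4) : 0 < z.re := by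
  have h1 : |(z - 1).re| ≤ 1 / 4 := (Complex.abs_re_le_norm _).trans h
  rw [Complex.sub_re, Complex.one_re] at h1
  have := (abs_le.1 h1).1
  linarith

private theorem W_im_div {z w : ℂ} (hz : z.im = 0) (hw : w.im = 0) : (z / w).im = 0 := by
  have h1 : z = (z.re : ℂ) := by
    apply Complex.ext <;> simp [hz]
  have h2 : w = (w.re : ℂ) := by
    apply Complex.ext <;> simp [hw]
  rw [h1, h2, ← Complex.ofReal_div, Complex.ofReal_im]

private theorem W_im_add {z w : ℂ} (hz : z.im = 0) (hw : w.im = 0) : (z + w).im = 0 := by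
  rw [Complex.add_im, hz, hw, add_zero]

private theorem W_im_sub {z w : ℂ} (hz : z.im = 0) (hw : w.im = 0) : (z - w).im = 0 := by
  rw [Complex.sub_im, hz, hw, sub_zero]

private theorem W_im_mul {z w : ℂ} (hz : z.im = 0) (hw : w.im = 0) : (z * w).im = 0 := by
  rw [Complex.mul_im, hz, hw, mul_zero, zero_mul, add_zero]

private theorem W_im_one : (1 : ℂ).im = 0 := Complex.one_im

private theorem W_pth0 (R : ℝ) : (pth R 0).im = 0 := by
  simp [pth]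

private theorem W_pth2 (R : ℝ) : (pth R 2).im = 0 := by
  simp [pth]

/-- everything that is known from the other modules -/
private structure W_Ctx (η M N : ℝ) : Prop where
  η_pos : 0 < η
  M_pos : 0 < M
  N_pos : 100 ≤ N
  loc : ∀ l : ℂ, M * ‖l‖ ≤ 1 → ∀ L : List (ℂ × ℂ × ℂ), (∀ s ∈ L, Ad η M l s) →
    Ok l L ∧
    (∀ s L', s :: L' <:+ L → ‖nu l s (orb l L') / (s.1 + s.2.1) - 1‖ ≤ 1 / 4 ∧
      ‖nu2 l s (orb2 l L') / U l s - 1‖ ≤ 1 / 4) ∧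
    (L ≠ [] → l ≠ 0 → ‖rho3 l L‖ ≤ 1 / 4) ∧ (L ≠ [] → ‖rho2 l L‖ ≤ 1 / 4)
  est : ∀ t : ℤ × ℤ × ℤ, AdZ N t → ∀ τ : ℝ, 0 ≤ τ → τ ≤ 2 → ∀ ℓ : ℂ, ℓ = pth (2 / N) τ →
    M * ‖lm ℓ‖ ≤ 1 ∧ (0 < τ → lm ℓ ≠ 0) ∧ Ad η M (lm ℓ) (sb ℓ t) ∧
    U (lm ℓ) (sb ℓ t) = hat (t.1 + t.2.1) ℓ ∧
    M * Real.exp (max 0 (t.2.2 : ℝ) * ℓ.re) ≤ ‖(sb ℓ t).2.2‖ ∧
    η * Real.exp (max 0 (max (t.1 : ℝ) (t.2.1 : ℝ)) * ℓ.re) ≤ ‖(sb ℓ t).1 + (sb ℓ t).2.1‖ ∧
    η * Real.exp (max 0 ((t.1 : ℝ) + (t.2.1 : ℝ)) * ℓ.re) ≤ ‖U (lm ℓ) (sb ℓ t)‖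
  arg : ∀ t : ℤ × ℤ × ℤ, AdZ N t →
    HasW (fun τ => ((sb (pth (2 / N) τ) t).1 + (sb (pth (2 / N) τ) t).2.1) /
      hat (t.1 + t.2.1) (pth (2 / N) τ)) (wind t)
  clm : ContinuousOn (fun τ => lm (pth (2 / N) τ)) (Set.Icc 0 2)
  chat : ∀ n : ℤ, ContinuousOn (fun τ => hat n (pth (2 / N) τ)) (Set.Icc 0 2)
  cont : ∀ (l : ℝ → ℂ) (L : List (ℝ → ℂ × ℂ × ℂ)) (S : Set ℝ), ContinuousOn l S →
    (∀ s ∈ L, ContinuousOn s S) → (∀ τ ∈ S, Ok (l τ) (L.map fun s => s τ)) →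
    ContinuousOn (fun τ => orb (l τ) (L.map fun s => s τ)) S ∧
    ContinuousOn (fun τ => orb2 (l τ) (L.map fun s => s τ)) S ∧
    ContinuousOn (fun τ => rho3 (l τ) (L.map fun s => s τ)) S ∧
    ContinuousOn (fun τ => rho2 (l τ) (L.map fun s => s τ)) S
  re : ∀ (l : ℂ) (L : List (ℂ × ℂ × ℂ)), l.im = 0 →
    (∀ s ∈ L, s.1.im = 0 ∧ s.2.1.im = 0 ∧ s.2.2.im = 0) →
    (orb l L).1.im = 0 ∧ (orb l L).2.im = 0 ∧ (orb2 l L).im = 0 ∧ (rho3 l L).im = 0 ∧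
      (rho2 l L).im = 0
  re' : ∀ ℓ : ℂ, ℓ.im = 0 → (lm ℓ).im = 0 ∧ ∀ n : ℤ, (hat n ℓ).im = 0
  W : St_HasW

section

variable {η M N : ℝ} (X : W_Ctx η M N)

include X

private theorem W_ad {β : List (ℤ × ℤ × ℤ)} (hβ : ∀ t ∈ β, AdZ N t) {τ : ℝ} (h0 : 0 ≤ τ)
    (h2 : τ ≤ 2) : ∀ s ∈ W_L N β τ, Ad η M (lm (pth (2 / N) τ)) s := by
  intro s hs
  obtain ⟨t, ht, rfl⟩ := List.mem_map.1 hs
  exact (X.est t (hβ t ht) τ h0 h2 _ rfl).2.2.1

private theorem W_ml {β : List (ℤ × ℤ × ℤ)} (hne : β ≠ []) (hβ : ∀ t ∈ β, AdZ N t) {τ : ℝ}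
    (h0 : 0 ≤ τ) (h2 : τ ≤ 2) :
    M * ‖lm (pth (2 / N) τ)‖ ≤ 1 ∧ (0 < τ → lm (pth (2 / N) τ) ≠ 0) := by
  obtain ⟨t, ht⟩ := List.exists_mem_of_ne_nil β hne
  have h := X.est t (hβ t ht) τ h0 h2 _ rfl
  exact ⟨h.1, h.2.1⟩

private theorem W_loc {β : List (ℤ × ℤ × ℤ)} (hne : β ≠ []) (hβ : ∀ t ∈ β, AdZ N t) {τ : ℝ}
    (h0 : 0 ≤ τ) (h2 : τ ≤ 2) :
    Ok (lm (pth (2 / N) τ)) (W_L N β τ) ∧
    (∀ s L', s :: L' <:+ W_L N β τ →
      ‖nu (lm (pth (2 / N) τ)) s (orb (lm (pth (2 / N) τ)) L') / (s.1 + s.2.1) - 1‖ ≤ 1 / 4 ∧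
      ‖nu2 (lm (pth (2 / N) τ)) s (orb2 (lm (pth (2 / N) τ)) L') / U (lm (pth (2 / N) τ)) s - 1‖
        ≤ 1 / 4) ∧
    (W_L N β τ ≠ [] → lm (pth (2 / N) τ) ≠ 0 → ‖rho3 (lm (pth (2 / N) τ)) (W_L N β τ)‖ ≤ 1 / 4) ∧
    (W_L N β τ ≠ [] → ‖rho2 (lm (pth (2 / N) τ)) (W_L N β τ)‖ ≤ 1 / 4) :=
  X.loc _ (W_ml X hne hβ h0 h2).1 _ (W_ad X hβ h0 h2)

private theorem W_ok {β : List (ℤ × ℤ × ℤ)} (hβ : ∀ t ∈ β, AdZ N t) {τ : ℝ}
    (h0 : 0 ≤ τ) (h2 : τ ≤ 2) : Ok (lm (pth (2 / N) τ)) (W_L N β τ) := by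
  by_cases hne : β = []
  · rw [hne]
    trivial
  · exact (W_loc X hne hβ h0 h2).1

private theorem W_csb (t : ℤ × ℤ × ℤ) :
    ContinuousOn (fun τ => sb (pth (2 / N) τ) t) (Set.Icc 0 2) :=
  (X.chat t.1).prodMk ((X.chat t.2.1).prodMk (X.chat t.2.2))

private theorem W_cont {β : List (ℤ × ℤ × ℤ)} (hβ : ∀ t ∈ β, AdZ N t) :
    ContinuousOn (fun τ => orb (lm (pth (2 / N) τ)) (W_L N β τ)) (Set.Icc 0 2) ∧
    ContinuousOn (fun τ => orb2 (lm (pth (2 / N) τ)) (W_L N β τ)) (Set.Icc 0 2) ∧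
    ContinuousOn (fun τ => rho3 (lm (pth (2 / N) τ)) (W_L N β τ)) (Set.Icc 0 2) ∧
    ContinuousOn (fun τ => rho2 (lm (pth (2 / N) τ)) (W_L N β τ)) (Set.Icc 0 2) := by
  have h := X.cont (fun τ => lm (pth (2 / N) τ)) (β.map fun t τ' => sb (pth (2 / N) τ') t)
    (Set.Icc 0 2) X.clm ?_ ?_
  · simpa only [W_map] using h
  · intro s hs
    obtain ⟨t, -, rfl⟩ := List.mem_map.1 hs
    exact W_csb X t
  · intro τ hτ
    rw [W_map]
    exact W_ok X hβ hτ.1 hτ.2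

private theorem W_re {β : List (ℤ × ℤ × ℤ)} {τ : ℝ} (h : (pth (2 / N) τ).im = 0) :
    (lm (pth (2 / N) τ)).im = 0 ∧ ∀ s ∈ W_L N β τ, s.1.im = 0 ∧ s.2.1.im = 0 ∧ s.2.2.im = 0 := by
  have h1 := X.re' _ h
  refine ⟨h1.1, fun s hs => ?_⟩
  obtain ⟨t, -, rfl⟩ := List.mem_map.1 hs
  exact ⟨h1.2 _, h1.2 _, h1.2 _⟩

private theorem W_AC {t : ℤ × ℤ × ℤ} (ht : AdZ N t) {τ : ℝ} (h0 : 0 ≤ τ) (h2 : τ ≤ 2) :
    (sb (pth (2 / N) τ) t).1 + (sb (pth (2 / N) τ) t).2.1 ≠ 0 ∧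
      U (lm (pth (2 / N) τ)) (sb (pth (2 / N) τ) t) ≠ 0 ∧ (sb (pth (2 / N) τ) t).2.2 ≠ 0 := by
  obtain ⟨-, -, had, -, hb, hd, hu⟩ := X.est t ht τ h0 h2 _ rfl
  refine ⟨norm_pos_iff.1 (lt_of_lt_of_le ?_ hd), norm_pos_iff.1 (lt_of_lt_of_le ?_ hu),
    norm_pos_iff.1 (lt_of_lt_of_le ?_ hb)⟩
  · exact mul_pos X.η_pos (Real.exp_pos _)
  · exact mul_pos X.η_pos (Real.exp_pos _)
  · exact mul_pos X.M_pos (Real.exp_pos _)

/-- one block -/
private theorem W_blk {t : ℤ × ℤ × ℤ} {β : List (ℤ × ℤ × ℤ)} (hβ : ∀ u ∈ t :: β, AdZ N u) :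
    HasW (fun τ => nu (lm (pth (2 / N) τ)) (sb (pth (2 / N) τ) t)
        (orb (lm (pth (2 / N) τ)) (W_L N β τ)) /
      nu2 (lm (pth (2 / N) τ)) (sb (pth (2 / N) τ) t)
        (orb2 (lm (pth (2 / N) τ)) (W_L N β τ))) (wind t) := by
  have ht : AdZ N t := hβ t (by simp)
  have hβ' : ∀ u ∈ β, AdZ N u := fun u hu => hβ u (by simp [hu])
  have hc := W_cont X hβ'
  have hs := W_csb X t
  have hsA : ContinuousOn (fun τ => (sb (pth (2 / N) τ) t).1) (Set.Icc 0 2) := X.chat t.1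
  have hsC : ContinuousOn (fun τ => (sb (pth (2 / N) τ) t).2.1) (Set.Icc 0 2) := X.chat t.2.1
  have hsB : ContinuousOn (fun τ => (sb (pth (2 / N) τ) t).2.2) (Set.Icc 0 2) := X.chat t.2.2
  have hl := X.clm
  have hU : ContinuousOn (fun τ => U (lm (pth (2 / N) τ)) (sb (pth (2 / N) τ) t)) (Set.Icc 0 2) := by
    unfold U
    exact (hsA.add hsC).add ((hl.mul hsA).mul hsC)
  have hloc : ∀ τ ∈ Set.Icc (0 : ℝ) 2,
      ‖nu (lm (pth (2 / N) τ)) (sb (pth (2 / N) τ) t) (orb (lm (pth (2 / N) τ)) (W_L N β τ)) /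
        ((sb (pth (2 / N) τ) t).1 + (sb (pth (2 / N) τ) t).2.1) - 1‖ ≤ 1 / 4 ∧
      ‖nu2 (lm (pth (2 / N) τ)) (sb (pth (2 / N) τ) t) (orb2 (lm (pth (2 / N) τ)) (W_L N β τ)) /
        U (lm (pth (2 / N) τ)) (sb (pth (2 / N) τ) t) - 1‖ ≤ 1 / 4 := by
    intro τ hτ
    exact (W_loc X (List.cons_ne_nil t β) hβ hτ.1 hτ.2).2.1 _ _ (by rw [W_L_cons])
  have hnu : ContinuousOn (fun τ => nu (lm (pth (2 / N) τ)) (sb (pth (2 / N) τ) t)
      (orb (lm (pth (2 / N) τ)) (W_L N β τ))) (Set.Icc 0 2) := by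
    unfold nu
    have h1 : ContinuousOn (fun τ => (orb (lm (pth (2 / N) τ)) (W_L N β τ)).1) (Set.Icc 0 2) :=
      hc.1.fst
    have h2 : ContinuousOn (fun τ => (orb (lm (pth (2 / N) τ)) (W_L N β τ)).2) (Set.Icc 0 2) :=
      hc.1.snd
    have h3 : ContinuousOn (fun τ => 1 / (sb (pth (2 / N) τ) t).2.2) (Set.Icc 0 2) :=
      continuousOn_const.div hsB fun τ hτ => (W_AC X ht hτ.1 hτ.2).2.2
    exact ((((hsA.add hsC).sub h3).sub hl).add ((continuousOn_const.add (hl.mul hsA)).mul h1)).add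
      ((continuousOn_const.add (hl.mul hsC)).mul h2)
  have hnu2 : ContinuousOn (fun τ => nu2 (lm (pth (2 / N) τ)) (sb (pth (2 / N) τ) t)
      (orb2 (lm (pth (2 / N) τ)) (W_L N β τ))) (Set.Icc 0 2) := by
    unfold nu2
    have h3 : ContinuousOn (fun τ => 1 / (sb (pth (2 / N) τ) t).2.2) (Set.Icc 0 2) :=
      continuousOn_const.div hsB fun τ hτ => (W_AC X ht hτ.1 hτ.2).2.2
    exact ((hU.sub h3).sub hl).add ((continuousOn_const.add (hl.mul hU)).mul hc.2.1)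
  have hre : ∀ τ : ℝ, (pth (2 / N) τ).im = 0 →
      (nu (lm (pth (2 / N) τ)) (sb (pth (2 / N) τ) t) (orb (lm (pth (2 / N) τ)) (W_L N β τ)) /
        ((sb (pth (2 / N) τ) t).1 + (sb (pth (2 / N) τ) t).2.1)).im = 0 ∧
      (nu2 (lm (pth (2 / N) τ)) (sb (pth (2 / N) τ) t) (orb2 (lm (pth (2 / N) τ)) (W_L N β τ)) /
        U (lm (pth (2 / N) τ)) (sb (pth (2 / N) τ) t)).im = 0 := by
    intro τ him
    have h1 := X.re' _ him
    have h2 := W_re X (β := β) him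
    have h3 := X.re _ _ h2.1 h2.2
    have hA : (sb (pth (2 / N) τ) t).1.im = 0 := h1.2 _
    have hC : (sb (pth (2 / N) τ) t).2.1.im = 0 := h1.2 _
    have hB : (sb (pth (2 / N) τ) t).2.2.im = 0 := h1.2 _
    have hB' := W_im_div W_im_one hB
    have hUi : (U (lm (pth (2 / N) τ)) (sb (pth (2 / N) τ) t)).im = 0 :=
      W_im_add (W_im_add hA hC) (W_im_mul (W_im_mul h1.1 hA) hC)
    refine ⟨W_im_div ?_ (W_im_add hA hC), W_im_div ?_ hUi⟩
    · exact W_im_add (W_im_add (W_im_sub (W_im_sub (W_im_add hA hC) hB') h1.1)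
        (W_im_mul (W_im_add W_im_one (W_im_mul h1.1 hA)) h3.1))
        (W_im_mul (W_im_add W_im_one (W_im_mul h1.1 hC)) h3.2.1)
    · exact W_im_add (W_im_sub (W_im_sub hUi hB') h1.1)
        (W_im_mul (W_im_add W_im_one (W_im_mul h1.1 hUi)) h3.2.2.1)
  have hn1 := X.W.near (fun τ => nu (lm (pth (2 / N) τ)) (sb (pth (2 / N) τ) t)
      (orb (lm (pth (2 / N) τ)) (W_L N β τ)) /
        ((sb (pth (2 / N) τ) t).1 + (sb (pth (2 / N) τ) t).2.1))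
      (hnu.div (hsA.add hsC) fun τ hτ => (W_AC X ht hτ.1 hτ.2).1)
      (fun τ hτ => W_near1 (hloc τ hτ).1) (hre 0 (W_pth0 _)).1 (hre 2 (W_pth2 _)).1
  have hn2 := X.W.near (fun τ => nu2 (lm (pth (2 / N) τ)) (sb (pth (2 / N) τ) t)
      (orb2 (lm (pth (2 / N) τ)) (W_L N β τ)) / U (lm (pth (2 / N) τ)) (sb (pth (2 / N) τ) t))
      (hnu2.div hU fun τ hτ => (W_AC X ht hτ.1 hτ.2).2.1)
      (fun τ hτ => W_near1 (hloc τ hτ).2) (hre 0 (W_pth0 _)).2 (hre 2 (W_pth2 _)).2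
  have hp := X.W.div _ _ _ _ (X.W.mul _ _ _ _ (X.arg t ht) hn1) hn2
  rw [add_zero, sub_zero] at hp
  refine X.W.congr _ _ _ hp fun τ hτ => ?_
  obtain ⟨hAC, hU0, -⟩ := W_AC X ht hτ.1 hτ.2
  have hU' := (X.est t ht τ hτ.1 hτ.2 _ rfl).2.2.2.1
  rw [← hU']
  have hn2' : nu2 (lm (pth (2 / N) τ)) (sb (pth (2 / N) τ) t)
      (orb2 (lm (pth (2 / N) τ)) (W_L N β τ)) ≠ 0 := by
    have := (W_ok X hβ hτ.1 hτ.2)
    rw [W_L_cons] at this
    exact this.2.2.1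
  field_simp

/-- the list -/
private theorem W_list : ∀ β : List (ℤ × ℤ × ℤ), (∀ u ∈ β, AdZ N u) →
    HasW (fun τ => lam (lm (pth (2 / N) τ)) (W_L N β τ) / lam2 (lm (pth (2 / N) τ)) (W_L N β τ))
      ((β.map wind).sum) := by
  intro β
  induction β with
  | nil =>
    intro _
    refine X.W.congr _ _ _ X.W.one fun τ _ => ?_
    simp only [W_L, List.map_nil, lam, lam2, div_one]
  | cons t β ih =>
    intro hβ
    have hβ' : ∀ u ∈ β, AdZ N u := fun u hu => hβ u (by simp [hu])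
    have h := X.W.mul _ _ _ _ (W_blk X hβ) (ih hβ')
    rw [List.map_cons, List.sum_cons]
    refine X.W.congr _ _ _ h fun τ hτ => ?_
    have hB := (W_AC X (hβ t (by simp)) hτ.1 hτ.2).2.2
    simp only [W_L_cons, lam, lam2]
    rw [mul_comm (sb (pth (2 / N) τ) t).2.2, mul_comm (sb (pth (2 / N) τ) t).2.2]
    rw [← neg_mul, ← neg_mul, mul_assoc, mul_assoc, neg_mul, neg_mul, neg_div_neg_eq]
    rw [mul_div_mul_comm, mul_div_mul_left _ _ hB]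

/-- the errors of the traces -/
private theorem W_rho {β : List (ℤ × ℤ × ℤ)} (hne : β ≠ []) (hβ : ∀ u ∈ β, AdZ N u) :
    ∀ τ ∈ Set.Icc (0 : ℝ) 2, ‖rho3 (lm (pth (2 / N) τ)) (W_L N β τ)‖ ≤ 1 / 4 ∧
      ‖rho2 (lm (pth (2 / N) τ)) (W_L N β τ)‖ ≤ 1 / 4 := by
  intro τ hτ
  have hc := W_cont X hβ
  refine ⟨?_, (W_loc X hne hβ hτ.1 hτ.2).2.2.2 (W_L_ne N hne τ)⟩
  have h1 : ∀ τ' ∈ Set.Ioc (0 : ℝ) 2,
      ‖rho3 (lm (pth (2 / N) τ')) (W_L N β τ')‖ ≤ 1 / 4 := fun τ' hτ' =>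
    (W_loc X hne hβ hτ'.1.le hτ'.2).2.2.1 (W_L_ne N hne τ')
      ((W_ml X hne hβ hτ'.1.le hτ'.2).2 hτ'.1)
  have hcl : τ ∈ _root_.closure (Set.Ioc (0 : ℝ) 2) := by
    rw [closure_Ioc (by norm_num : (0 : ℝ) ≠ 2)]
    exact hτ
  have hcw : ContinuousWithinAt (fun τ => ‖rho3 (lm (pth (2 / N) τ)) (W_L N β τ)‖)
      (Set.Ioc (0 : ℝ) 2) τ :=
    (hc.2.2.1.norm τ hτ).mono Set.Ioc_subset_Icc_self
  exact hcw.closure_le hcl continuousWithinAt_const h1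

private theorem W_rhoW {β : List (ℤ × ℤ × ℤ)} (hne : β ≠ []) (hβ : ∀ u ∈ β, AdZ N u) :
    HasW (fun τ => (1 + rho3 (lm (pth (2 / N) τ)) (W_L N β τ)) /
      (1 + rho2 (lm (pth (2 / N) τ)) (W_L N β τ))) 0 := by
  have hc := W_cont X hβ
  have hr := W_rho X hne hβ
  have him : ∀ τ : ℝ, (pth (2 / N) τ).im = 0 →
      (1 + rho3 (lm (pth (2 / N) τ)) (W_L N β τ)).im = 0 ∧
      (1 + rho2 (lm (pth (2 / N) τ)) (W_L N β τ)).im = 0 := by
    intro τ h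
    have h2 := W_re X (β := β) h
    have h3 := X.re _ _ h2.1 h2.2
    exact ⟨W_im_add W_im_one h3.2.2.2.1, W_im_add W_im_one h3.2.2.2.2⟩
  have h1 := X.W.near (fun τ => 1 + rho3 (lm (pth (2 / N) τ)) (W_L N β τ))
    (continuousOn_const.add hc.2.2.1)
    (fun τ hτ => W_near1 (by rw [add_sub_cancel_left]; exact (hr τ hτ).1))
    (him 0 (W_pth0 _)).1 (him 2 (W_pth2 _)).1
  have h2 := X.W.near (fun τ => 1 + rho2 (lm (pth (2 / N) τ)) (W_L N β τ))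
    (continuousOn_const.add hc.2.2.2)
    (fun τ hτ => W_near1 (by rw [add_sub_cancel_left]; exact (hr τ hτ).2))
    (him 0 (W_pth0 _)).2 (him 2 (W_pth2 _)).2
  have h3 := X.W.div _ _ _ _ h1 h2
  rwa [sub_zero] at h3

/-- the growth of the two factors -/
private theorem W_grow {τ : ℝ} (h0 : 0 ≤ τ) (h2 : τ ≤ 2) :
    ∀ β : List (ℤ × ℤ × ℤ), (∀ u ∈ β, AdZ N u) →
    (3 / 4 * (M * η)) ^ β.length * Real.exp ((top β : ℝ) * (pth (2 / N) τ).re) ≤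
        ‖lam (lm (pth (2 / N) τ)) (W_L N β τ)‖ ∧
      (3 / 4 * (M * η)) ^ β.length * Real.exp ((top2 β : ℝ) * (pth (2 / N) τ).re) ≤
        ‖lam2 (lm (pth (2 / N) τ)) (W_L N β τ)‖ := by
  intro β
  induction β with
  | nil =>
    intro _
    simp [W_L, lam, lam2, top, top2]
  | cons t β ih =>
    intro hβ
    have hβ' : ∀ u ∈ β, AdZ N u := fun u hu => hβ u (by simp [hu])
    obtain ⟨ih1, ih2⟩ := ih hβ'
    have ht := hβ t (by simp)
    obtain ⟨-, -, -, -, hb, hd, hu⟩ := X.est t ht τ h0 h2 _ rfl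
    obtain ⟨hAC, hU, -⟩ := W_AC X ht h0 h2
    have hl := (W_loc X (List.cons_ne_nil t β) hβ h0 h2).2.1 (sb (pth (2 / N) τ) t) (W_L N β τ)
      (by rw [W_L_cons])
    have hq : ∀ z w : ℂ, w ≠ 0 → ‖z / w - 1‖ ≤ 1 / 4 → 3 / 4 * ‖w‖ ≤ ‖z‖ := by
      intro z w hw h
      have h1 : ‖(1 : ℂ)‖ - ‖z / w - 1‖ ≤ ‖z / w‖ := by
        have := norm_sub_norm_le (1 : ℂ) (1 - z / w)
        rw [sub_sub_cancel] at this
        rw [norm_sub_rev (z / w) 1]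
        exact this
      rw [norm_one, norm_div] at h1
      have h2 : 3 / 4 ≤ ‖z‖ / ‖w‖ := by linarith
      rwa [le_div_iff₀ (norm_pos_iff.2 hw)] at h2
    have hn1 := hq _ _ hAC hl.1
    have hn2 := hq _ _ hU hl.2
    set σ := (pth (2 / N) τ).re with hσ
    set l := lm (pth (2 / N) τ) with hldef
    have e1 : Real.exp ((top (t :: β) : ℝ) * σ) =
        Real.exp (max 0 (t.2.2 : ℝ) * σ) * Real.exp (max 0 (max (t.1 : ℝ) (t.2.1 : ℝ)) * σ) *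
          Real.exp ((top β : ℝ) * σ) := by
      rw [← Real.exp_add, ← Real.exp_add]
      congr 1
      have : top (t :: β) = max 0 t.2.2 + max 0 (max t.1 t.2.1) + top β := by
        simp [top]
      rw [this]
      push_cast
      ring
    have e2 : Real.exp ((top2 (t :: β) : ℝ) * σ) =
        Real.exp (max 0 (t.2.2 : ℝ) * σ) * Real.exp (max 0 ((t.1 : ℝ) + (t.2.1 : ℝ)) * σ) *
          Real.exp ((top2 β : ℝ) * σ) := by
      rw [← Real.exp_add, ← Real.exp_add]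
      congr 1
      have : top2 (t :: β) = max 0 t.2.2 + max 0 (t.1 + t.2.1) + top2 β := by
        simp [top2]
      rw [this]
      push_cast
      ring
    have hc0 : 0 ≤ 3 / 4 * (M * η) := by
      have := mul_pos X.M_pos X.η_pos
      linarith
    have hM := X.M_pos
    have hη := X.η_pos
    constructor
    · rw [e1, W_L_cons, lam, norm_mul, norm_neg, norm_mul, List.length_cons, pow_succ]
      have k1 : (M * Real.exp (max 0 (t.2.2 : ℝ) * σ)) *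
          (3 / 4 * (η * Real.exp (max 0 (max (t.1 : ℝ) (t.2.1 : ℝ)) * σ))) ≤
          ‖(sb (pth (2 / N) τ) t).2.2‖ * ‖nu l (sb (pth (2 / N) τ) t) (orb l (W_L N β τ))‖ := by
        refine mul_le_mul hb ?_ (by positivity) (norm_nonneg _)
        exact (mul_le_mul_of_nonneg_left hd (by norm_num)).trans hn1
      have k2 := mul_le_mul k1 ih1 (mul_nonneg (pow_nonneg hc0 _) (Real.exp_pos _).le)
        (mul_nonneg (norm_nonneg _) (norm_nonneg _))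
      refine le_trans (le_of_eq ?_) k2
      ring
    · rw [e2, W_L_cons, lam2, norm_mul, norm_neg, norm_mul, List.length_cons, pow_succ]
      have k1 : (M * Real.exp (max 0 (t.2.2 : ℝ) * σ)) *
          (3 / 4 * (η * Real.exp (max 0 ((t.1 : ℝ) + (t.2.1 : ℝ)) * σ))) ≤
          ‖(sb (pth (2 / N) τ) t).2.2‖ * ‖nu2 l (sb (pth (2 / N) τ) t) (orb2 l (W_L N β τ))‖ := by
        refine mul_le_mul hb ?_ (by positivity) (norm_nonneg _)
        exact (mul_le_mul_of_nonneg_left hu (by norm_num)).trans hn2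
      have k2 := mul_le_mul k1 ih2 (mul_nonneg (pow_nonneg hc0 _) (Real.exp_pos _).le)
        (mul_nonneg (norm_nonneg _) (norm_nonneg _))
      refine le_trans (le_of_eq ?_) k2
      ring

end

/-! ### the quotient of the traces -/

private theorem W_inv_re {z : ℂ} (h : 0 < z.re) : 0 < (z⁻¹).re := by
  rw [Complex.inv_re]
  have : 0 < Complex.normSq z := Complex.normSq_pos.2 (by rintro rfl; simp at h)
  exact div_pos h this

private theorem W_quot {a b Q R : ℂ} (hab : b = (1 - Q) * a + R) (ha : a ≠ 0) (hb : b ≠ 0)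
    (hQ : ‖Q‖ ≤ 1 / 10) (hR : ‖R‖ ≤ 1 / 10 * max ‖a‖ ‖b‖) : 0 < (a / b).re := by
  rcases le_total ‖b‖ ‖a‖ with h | h
  · rw [max_eq_left h] at hR
    have h1 : ‖b / a - 1‖ ≤ 1 / 4 := by
      have e : b / a - 1 = -Q + R / a := by
        rw [hab]
        field_simp
        ring
      rw [e]
      refine (norm_add_le _ _).trans ?_
      rw [norm_neg, norm_div]
      have := (div_le_iff₀ (norm_pos_iff.2 ha)).2 hR
      linarith
    have h2 := W_inv_re (W_near1 h1)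
    rwa [inv_div] at h2
  · rw [max_eq_right h] at hR
    have h1 : ‖a / b - 1‖ ≤ 1 / 4 := by
      have e : a / b - 1 = Q * (a / b) - R / b := by
        field_simp
        rw [hab]
        ring
      rw [e]
      refine (norm_sub_le _ _).trans ?_
      rw [norm_mul, norm_div, norm_div]
      have h3 := (div_le_iff₀ (norm_pos_iff.2 hb)).2 hR
      have h4 : ‖a‖ / ‖b‖ ≤ 1 := (div_le_one (norm_pos_iff.2 hb)).2 h
      have h5 : ‖Q‖ * (‖a‖ / ‖b‖) ≤ 1 / 10 * 1 :=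
        mul_le_mul hQ h4 (div_nonneg (norm_nonneg _) (norm_nonneg _)) (by norm_num)
      linarith
    exact W_near1 h1

private theorem W_hat {ℓ : ℂ} (hl : lm ℓ ≠ 0) (n : ℤ) :
    1 + lm ℓ * hat n ℓ = Complex.exp ℓ ^ n := by
  have h0 : ℓ ≠ 0 := by
    rintro rfl
    apply hl
    simp [lm]
  rw [hat, if_neg h0, mul_div_cancel₀ _ hl, Complex.exp_int_mul]
  ring

private theorem W_wt {ℓ : ℂ} (hl : lm ℓ ≠ 0) (t : ℤ × ℤ × ℤ) :
    wt (lm ℓ) (sb ℓ t) = wts (Complex.exp ℓ) t := by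
  simp only [wt, sb, wts, W_hat hl]

private theorem W_Q (ℓ : ℂ) : -(lm ℓ) ^ 2 = 2 - Complex.exp ℓ - (Complex.exp ℓ)⁻¹ := by
  have h1 : Complex.exp ℓ = Complex.exp (ℓ / 2) * Complex.exp (ℓ / 2) := by
    rw [← Complex.exp_add]
    congr 1
    ring
  have h2 : (Complex.exp ℓ)⁻¹ = Complex.exp (-ℓ / 2) * Complex.exp (-ℓ / 2) := by
    rw [← Complex.exp_neg, ← Complex.exp_add]
    congr 1
    ring
  have h3 : Complex.exp (ℓ / 2) * Complex.exp (-ℓ / 2) = 1 := by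
    rw [← Complex.exp_add, ← Complex.exp_zero]
    congr 1
    ring
  rw [h2, h1, lm]
  linear_combination 2 * h3

section

variable {η M N : ℝ} (X : W_Ctx η M N)

include X

/-- the quotient of the traces is in the right half plane -/
private theorem W_pos (hAlg : St_Alg) (hSim : St_Sim) (hM : 100 ≤ M) {β : List (ℤ × ℤ × ℤ)}
    (hne : β ≠ []) (hβ : ∀ t ∈ β, AdZ N t) {S : ℝ} (hS1 : 1 ≤ S)
    (hS : 100 * S ≤ (3 / 4 * (M * η)) ^ β.length)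
    (hE : ∀ u : ℂ, 1 ≤ ‖u‖ → 2 - u - u⁻¹ ≠ 0 → ‖U5.EE (2 - u - u⁻¹) (β.map (wts u))‖ ≤
      S * ‖u‖ ^ (max (top β) (top2 β) + 2) * Real.sqrt ‖2 - u - u⁻¹‖)
    {τ : ℝ} (h0 : 0 < τ) (h2 : τ ≤ 2) (hσ0 : 0 ≤ (pth (2 / N) τ).re)
    (hσ2 : (pth (2 / N) τ).re ≤ 2 / N) :
    0 < (lam (lm (pth (2 / N) τ)) (W_L N β τ) / lam2 (lm (pth (2 / N) τ)) (W_L N β τ) *
      ((1 + rho3 (lm (pth (2 / N) τ)) (W_L N β τ)) /
        (1 + rho2 (lm (pth (2 / N) τ)) (W_L N β τ)))).re := by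
  have hok := W_ok X hβ h0.le h2
  have hml := W_ml X hne hβ h0.le h2
  have hg := W_grow X h0.le h2 β hβ
  have hr := W_rho X hne hβ τ ⟨h0.le, h2⟩
  have ha := hAlg _ _ hok
  have hs := hSim (lm (pth (2 / N) τ)) (W_L N β τ) (hml.2 h0)
  set ℓ := pth (2 / N) τ with hℓ
  have hwt : (W_L N β τ).map (wt (lm ℓ)) = β.map (wts (Complex.exp ℓ)) := by
    rw [W_L, List.map_map]
    exact List.map_congr_left fun t _ => W_wt (hml.2 h0) t
  rw [hwt, ha.1, ha.2] at hs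
  set l := lm ℓ with hl
  set T3 := lam l (W_L N β τ) * (1 + rho3 l (W_L N β τ)) with hT3
  set T2 := lam2 l (W_L N β τ) * (1 + rho2 l (W_L N β τ)) with hT2
  have hq1 : ‖Complex.exp ℓ‖ = Real.exp ℓ.re := Complex.norm_exp ℓ
  have hN := X.N_pos
  have hη := X.η_pos
  have hln : ‖l‖ ≤ 1 / 100 := by
    have h1 := hml.1
    have h3 : 100 * ‖l‖ ≤ M * ‖l‖ := mul_le_mul_of_nonneg_right hM (norm_nonneg _)
    linarith
  have hlp : 0 ≤ ‖l‖ := norm_nonneg _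
  set Q : ℂ := -l ^ 2 with hQ
  have hQe : 2 - Complex.exp ℓ - (Complex.exp ℓ)⁻¹ = Q := by
    rw [hQ, hl, ← W_Q]
  have hQn : ‖Q‖ = ‖l‖ ^ 2 := by rw [hQ, norm_neg, norm_pow]
  have hQ0 : Q ≠ 0 := by
    rw [hQ]
    exact neg_ne_zero.2 (pow_ne_zero 2 (hml.2 h0))
  have hQ1 : ‖Q‖ ≤ 1 / 10000 := by
    rw [hQn]
    nlinarith
  have hEE := hE (Complex.exp ℓ) (by rw [hq1]; exact Real.one_le_exp hσ0) (by rw [hQe]; exact hQ0)
  rw [hQe, hQn, Real.sqrt_sq hlp, U5.EE, ← hs.1, ← hs.2, hq1] at hEE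
  -- the exponent
  set K : ℤ := max (top β) (top2 β) with hK
  have hexp : Real.exp ℓ.re ^ (K + 2) = Real.exp ((K : ℝ) * ℓ.re) * Real.exp (2 * ℓ.re) := by
    rw [← Real.exp_add, ← Real.rpow_intCast, ← Real.exp_mul]
    congr 1
    push_cast
    ring
  have he2 : Real.exp (2 * ℓ.re) ≤ 2 := by
    have h3 : 2 * ℓ.re ≤ 1 / 2 := by
      have : 2 / N ≤ 1 / 4 := by
        rw [div_le_div_iff₀ (by linarith) (by norm_num)]
        linarith
      linarith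
    have h4 : Real.exp (2 * ℓ.re) ≤ Real.exp (1 / 2) := Real.exp_le_exp.2 h3
    have h5 : Real.exp (1 / 2) ^ 2 ≤ 2 ^ 2 := by
      rw [← Real.exp_nat_mul]
      have := Real.exp_one_lt_d9
      norm_num at this ⊢
      linarith
    exact h4.trans (le_of_sq_le_sq h5 (by norm_num))
  have htop0 : 0 ≤ top β := by
    refine List.sum_nonneg fun x hx => ?_
    obtain ⟨t, -, rfl⟩ := List.mem_map.1 hx
    positivity
  have hE1 : 1 ≤ Real.exp ((K : ℝ) * ℓ.re) := by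
    refine Real.one_le_exp (mul_nonneg ?_ hσ0)
    have : 0 ≤ K := htop0.trans (le_max_left _ _)
    exact_mod_cast this
  set E := Real.exp ((K : ℝ) * ℓ.re) with hEdef
  rw [hexp] at hEE
  -- the remainder
  set R : ℂ := T2 - (1 - Q) * T3 with hR
  have hR1 : ‖R‖ ≤ 3 * (S * E) := by
    have e : R = (Q ^ 2 - 3 * Q + 1 - (1 - Q) * T3 + T2) - (Q ^ 2 - 3 * Q + 1) := by
      rw [hR]
      ring
    have h3 : ‖Q ^ 2 - 3 * Q + 1‖ ≤ 2 := by
      have : ‖Q ^ 2 - 3 * Q + 1‖ ≤ ‖Q‖ ^ 2 + 3 * ‖Q‖ + 1 := by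
        refine (norm_add_le _ _).trans ?_
        rw [norm_one]
        refine add_le_add ((norm_sub_le _ _).trans ?_) le_rfl
        rw [norm_pow, norm_mul]
        simp
      have hQp := norm_nonneg Q
      nlinarith
    have h4 : S * (E * Real.exp (2 * ℓ.re)) * ‖l‖ ≤ S * E * (2 * (1 / 100)) := by
      have h5 : Real.exp (2 * ℓ.re) * ‖l‖ ≤ 2 * (1 / 100) :=
        mul_le_mul he2 hln hlp (by norm_num)
      have h6 : 0 ≤ S * E := by positivity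
      calc S * (E * Real.exp (2 * ℓ.re)) * ‖l‖ = S * E * (Real.exp (2 * ℓ.re) * ‖l‖) := by ring
        _ ≤ _ := mul_le_mul_of_nonneg_left h5 h6
    have h7 : 1 ≤ S * E := by nlinarith
    rw [e]
    refine (norm_sub_le _ _).trans ?_
    linarith
  -- the two traces are large
  set W := (3 / 4 * (M * η)) ^ β.length with hW
  have hρ : ∀ z : ℂ, ‖z‖ ≤ 1 / 4 → 3 / 4 ≤ ‖1 + z‖ := by
    intro z hz
    have := norm_sub_le (1 + z) z
    rw [add_sub_cancel_right, norm_one] at this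
    linarith
  have hWp : 0 < W := by positivity
  have hg1 : W * Real.exp ((top β : ℝ) * ℓ.re) * (3 / 4) ≤ ‖T3‖ := by
    rw [hT3, norm_mul]
    exact mul_le_mul hg.1 (hρ _ hr.1) (by norm_num) (norm_nonneg _)
  have hg2 : W * Real.exp ((top2 β : ℝ) * ℓ.re) * (3 / 4) ≤ ‖T2‖ := by
    rw [hT2, norm_mul]
    exact mul_le_mul hg.2 (hρ _ hr.2) (by norm_num) (norm_nonneg _)
  have h3p : 0 < ‖T3‖ := lt_of_lt_of_le (by positivity) hg1
  have h2p : 0 < ‖T2‖ := lt_of_lt_of_le (by positivity) hg2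
  have hmax : W * E * (3 / 4) ≤ max ‖T3‖ ‖T2‖ := by
    rcases max_choice (top β) (top2 β) with h | h
    · rw [← hK] at h
      rw [hEdef, h]
      exact hg1.trans (le_max_left _ _)
    · rw [← hK] at h
      rw [hEdef, h]
      exact hg2.trans (le_max_right _ _)
  have hSE : 100 * (S * E) ≤ W * E := by
    have h6 : 0 ≤ E := by positivity
    calc 100 * (S * E) = 100 * S * E := by ring
      _ ≤ W * E := mul_le_mul_of_nonneg_right hS h6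
  have hWE : 0 ≤ W * E := by positivity
  have hfin := W_quot (a := T3) (b := T2) (Q := Q) (R := R) (by rw [hR]; ring)
    (norm_pos_iff.1 h3p) (norm_pos_iff.1 h2p) (by linarith) (by linarith)
  rw [hT3, hT2, ← div_mul_div_comm] at hfin
  exact hfin

/-- the half turns -/
private theorem W_half (hAlg : St_Alg) (hSim : St_Sim) (hM : 100 ≤ M)
    (hσ : ∀ τ : ℝ, 0 < τ → τ ≤ 2 → 0 ≤ (pth (2 / N) τ).re ∧ (pth (2 / N) τ).re ≤ 2 / N)
    {β : List (ℤ × ℤ × ℤ)} (hne : β ≠ []) (hβ : ∀ t ∈ β, AdZ N t) {S : ℝ} (hS1 : 1 ≤ S)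
    (hS : 100 * S ≤ (3 / 4 * (M * η)) ^ β.length)
    (hE : ∀ u : ℂ, 1 ≤ ‖u‖ → 2 - u - u⁻¹ ≠ 0 → ‖U5.EE (2 - u - u⁻¹) (β.map (wts u))‖ ≤
      S * ‖u‖ ^ (max (top β) (top2 β) + 2) * Real.sqrt ‖2 - u - u⁻¹‖) :
    ∀ t ∈ β, ¬ (t.1 * t.2.1 < 0 ∧ t.1 + t.2.1 < 0) := by
  have h1 := X.W.mul _ _ _ _ (W_list X β hβ) (W_rhoW X hne hβ)
  have h2 := X.W.concl _ _ h1 fun τ hτ => W_pos X hAlg hSim hM hne hβ hS1 hS hE hτ.1 hτ.2
    (hσ τ hτ.1 hτ.2).1 (hσ τ hτ.1 hτ.2).2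
  rw [add_zero] at h2
  intro t ht hbad
  have hw : ∀ x ∈ β.map wind, x ≤ 0 := by
    intro x hx
    obtain ⟨u, -, rfl⟩ := List.mem_map.1 hx
    unfold wind
    split_ifs
    · linarith [Real.pi_pos]
    · exact le_rfl
  have hneg : ∀ L : List ℝ, (∀ x ∈ L, x ≤ 0) → L.sum ≤ 0 := by
    intro L
    induction L with
    | nil => intro _; simp
    | cons a L ih =>
      intro h
      rw [List.sum_cons]
      have h1 := h a (by simp)
      have h2 := ih fun x hx => h x (by simp [hx])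
      linarith
  have hsum : (β.map wind).sum ≤ -Real.pi := by
    obtain ⟨P, R, rfl⟩ := List.append_of_mem ht
    rw [List.map_append, List.map_cons, List.sum_append, List.sum_cons]
    have e : wind t = -Real.pi := if_pos hbad
    have h3 : (P.map wind).sum ≤ 0 := hneg _ fun x hx => hw x (by
      rw [List.map_append]
      exact List.mem_append_left _ hx)
    have h4 : (R.map wind).sum ≤ 0 := hneg _ fun x hx => hw x (by
      rw [List.map_append, List.map_cons]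
      exact List.mem_append_right _ (List.mem_cons_of_mem _ hx))
    rw [e]
    linarith
  have h5 := (abs_lt.1 h2).1
  linarith [Real.pi_pos]

end

private theorem W_pthre {N : ℝ} (hN : 0 < N) {τ : ℝ} (h0 : 0 < τ) :
    0 ≤ (pth (2 / N) τ).re ∧ (pth (2 / N) τ).re ≤ 2 / N := by
  have e : (pth (2 / N) τ).re = 2 / N * min τ 1 := by
    simp [pth]
  rw [e]
  have h1 : 0 ≤ 2 / N := by positivity
  have h2 : 0 ≤ min τ 1 := le_min h0.le zero_le_one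
  exact ⟨mul_nonneg h1 h2, mul_le_of_le_one_right h1 (min_le_right _ _)⟩

/-- **Module U7_WIND** from the other modules -/
theorem thm_Wind (hAlg : St_Alg) (hSim : St_Sim) (hLoc : St_Loc) (hEst : St_Est) (hW : St_HasW)
    (hArg : St_Arg) (hCont : St_Cont) : St_Wind := by
  obtain ⟨η, c₀, N₁, hη, hη1, hc, hc1, hN₁, hEst⟩ := hEst
  obtain ⟨M₀, hM₀, hLoc⟩ := hLoc η hη hη1
  obtain ⟨N₂, hN₂, hArg⟩ := hArg
  obtain ⟨⟨N₃, hN₃, hC1⟩, hC2, hC3, hC4⟩ := hCont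
  refine ⟨max (max N₁ N₂) (max N₃ (max 100 ((M₀ + 100) / c₀))), 3 * c₀ * η / 400, ?_, by positivity,
    ?_⟩
  · exact lt_max_of_lt_left (lt_max_of_lt_left hN₁)
  intro N hN β hne hβ S hS1 hS hE
  have k1 : N₁ ≤ N := (le_max_left _ _).trans ((le_max_left _ _).trans hN)
  have k2 : N₂ ≤ N := (le_max_right _ _).trans ((le_max_left _ _).trans hN)
  have k3 : N₃ ≤ N := (le_max_left _ _).trans ((le_max_right _ _).trans hN)
  have k4 : max 100 ((M₀ + 100) / c₀) ≤ N :=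
    (le_max_right _ _).trans ((le_max_right _ _).trans hN)
  have k5 : 100 ≤ N := (le_max_left _ _).trans k4
  have k6 : M₀ + 100 ≤ c₀ * N := by
    have := (le_max_right _ _).trans k4
    rw [div_le_iff₀ hc] at this
    linarith
  have hNp : 0 < N := by linarith
  have X : W_Ctx η (c₀ * N) N :=
    { η_pos := hη
      M_pos := by positivity
      N_pos := k5
      loc := fun l hl L hL => hLoc (c₀ * N) (by linarith) l hl L hL
      est := fun t ht τ h0 h2 ℓ hℓ => hEst N k1 t ht τ h0 h2 ℓ hℓ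
      arg := fun t ht => hArg N k2 t ht
      clm := (hC1 N k3).1
      chat := (hC1 N k3).2
      cont := hC2
      re := hC3
      re' := hC4
      W := hW }
  refine W_half X hAlg hSim (by linarith) (fun τ h0 _ => W_pthre hNp h0) hne hβ hS1 ?_ hE
  have hm : 1 ≤ β.length := List.length_pos_of_ne_nil hne
  have e : (3 / 4 * (c₀ * N * η)) = 100 * (3 * c₀ * η / 400 * N) := by ring
  rw [e, mul_pow]
  have h100 : (100 : ℝ) ≤ 100 ^ β.length := by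
    calc (100 : ℝ) = 100 ^ 1 := (pow_one _).symm
      _ ≤ 100 ^ β.length := pow_le_pow_right₀ (by norm_num) hm
  have hp : 0 ≤ (3 * c₀ * η / 400 * N) ^ β.length := by positivity
  calc 100 * S ≤ 100 * (3 * c₀ * η / 400 * N) ^ β.length :=
        mul_le_mul_of_nonneg_left hS (by norm_num)
    _ ≤ 100 ^ β.length * (3 * c₀ * η / 400 * N) ^ β.length :=
        mul_le_mul_of_nonneg_right h100 hp

end Pool.Agent.FB.U7
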